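import Pool.Agent.HK2.Conv2

/-! # Module Conv: ideals -/

namespace HK2

open MvPolynomial Finset H48.Hk

section

variable {K : Type*} [Field K] {m : ℕ}

theorem LR_of_KEx (d : ℕ) (J : Ideal (MvPolynomial (Fin m) K))
    (hJ : ∀ f ∈ J, ∀ i, homogeneousComponent i f ∈ J)
    (h0 : ∀ f ∈ J, ∀ i < d, homogeneousComponent i f = 0)
    (h : KEx m (mX K m Unit) (fun a => gV (QI J) (d + a)) (fun _ => ⊥)) :
    LR K (Fin m) (m + 1) d Unit (QI J) := by
  refine LR_of_KW (m + 1) Unit d (QI J) (fun z hz i => hJ _ hz i) ⟨?_, h, ?_, ?_⟩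
  · intro i hi
    rw [eq_bot_iff]
    intro v hv
    obtain ⟨h1, h2⟩ := hv
    have h3 : v () ∈ J := h1
    have h4 : v () ∈ homogeneousSubmodule (Fin m) K i := h2 () (Set.mem_univ _)
    have h5 := h0 _ h3 i hi
    rw [homogeneousComponent_of_mem h4, if_pos rfl] at h5
    rw [Submodule.mem_bot]
    funext u
    exact h5
  · intro i c _ hc _
    refine ⟨fun _ => 0, fun x => Submodule.zero_mem _, fun x => ?_⟩
    rw [kd_zero, hc x (Nat.lt_succ_of_le (kw_le m x))]
  · intro c _ hc _ x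
    exact hc x (Nat.lt_succ_of_le (kw_le m x))

end

end HK2
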