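import Pool.Agent.HK2.KosB
import Pool.Agent.H48.Hk.LR

/-! # Module Conv1: the free module is Koszul exact -/

namespace HK2

open MvPolynomial Finset H48.Hk

section

variable {K : Type*} [Field K] {m : ℕ}

/-- multiplication by the variables on a free module -/
noncomputable def mX (K : Type*) [Field K] (m : ℕ) (ι : Type) (j : ℕ) :
    (ι → MvPolynomial (Fin m) K) →ₗ[K] (ι → MvPolynomial (Fin m) K) :=
  LinearMap.pi fun i => (LinearMap.mulLeft K
    (if h : j < m then (X ⟨j, h⟩ : MvPolynomial (Fin m) K) else 0)).comp (LinearMap.proj i)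

/-- vectors with homogeneous entries of degree `d` -/
noncomputable def hV (K : Type*) [Field K] (m : ℕ) (ι : Type) (d : ℕ) :
    Submodule K (ι → MvPolynomial (Fin m) K) :=
  Submodule.pi Set.univ fun _ => homogeneousSubmodule (Fin m) K d

/-- graded pieces of a submodule of a free module -/
noncomputable def gV {ι : Type}
    (Z : Submodule (MvPolynomial (Fin m) K) (ι → MvPolynomial (Fin m) K)) (d : ℕ) :
    Submodule K (ι → MvPolynomial (Fin m) K) := Z.restrictScalars K ⊓ hV K m ι d

theorem mX_comm (ι : Type) (i j : ℕ) : Commute (mX K m ι i) (mX K m ι j) := by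
  refine LinearMap.ext fun v => ?_
  funext t
  simp only [mX, Module.End.mul_apply, LinearMap.pi_apply, LinearMap.comp_apply,
    LinearMap.proj_apply, LinearMap.mulLeft_apply]
  ring

private theorem conv1_mX_apply (ι : Type) {j : ℕ} (hj : j < m) (v : ι → MvPolynomial (Fin m) K)
    (t : ι) : mX K m ι j v t = X ⟨j, hj⟩ * v t := by
  simp only [mX, LinearMap.pi_apply, LinearMap.comp_apply, LinearMap.proj_apply,
    LinearMap.mulLeft_apply, dif_pos hj]

private theorem conv1_mem_hV (ι : Type) {d : ℕ} {v : ι → MvPolynomial (Fin m) K} :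
    v ∈ hV K m ι d ↔ ∀ t, (v t).IsHomogeneous d := by
  simp [hV, Submodule.mem_pi]

/-- entries in the ideal of the first `j` variables -/
private noncomputable def conv1NJ (K : Type*) [Field K] (m : ℕ) (ι : Type) (j : ℕ) (d : ℕ) :
    Submodule K (ι → MvPolynomial (Fin m) K) where
  carrier := {v | ∀ t, (v t).IsHomogeneous d ∧
    ∀ s : Fin m →₀ ℕ, coeff s (v t) ≠ 0 → ∃ i : Fin m, (i : ℕ) < j ∧ s i ≠ 0}
  add_mem' := by
    intro a b ha hb t
    refine ⟨(ha t).1.add (hb t).1, fun s hs => ?_⟩
    rw [Pi.add_apply, coeff_add] at hs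
    by_cases h : coeff s (a t) = 0
    · rw [h, zero_add] at hs
      exact (hb t).2 s hs
    · exact (ha t).2 s h
  zero_mem' := by
    intro t
    refine ⟨isHomogeneous_zero _ _ _, fun s hs => ?_⟩
    exact absurd (by simp) hs
  smul_mem' := by
    intro c a ha t
    refine ⟨(homogeneousSubmodule (Fin m) K d).smul_mem c (ha t).1, fun s hs => ?_⟩
    rw [Pi.smul_apply, coeff_smul] at hs
    exact (ha t).2 s (fun h => hs (by rw [h, smul_zero]))

private theorem conv1_mem_NJ (ι : Type) {j d : ℕ} {v : ι → MvPolynomial (Fin m) K} :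
    v ∈ conv1NJ K m ι j d ↔ ∀ t, (v t).IsHomogeneous d ∧
    ∀ s : Fin m →₀ ℕ, coeff s (v t) ≠ 0 → ∃ i : Fin m, (i : ℕ) < j ∧ s i ≠ 0 := Iff.rfl

private theorem conv1_Gr_hV (ι : Type) : Gr m (mX K m ι) (hV K m ι) := by
  rintro j hj a _ ⟨v, hv, rfl⟩
  rw [conv1_mem_hV]
  intro t
  rw [conv1_mX_apply ι hj, add_comm a 1]
  exact (isHomogeneous_X K _).mul (conv1_mem_hV ι |>.mp hv t)

private theorem conv1_Gr_NJ (ι : Type) (l : ℕ) : Gr m (mX K m ι) (conv1NJ K m ι l) := by
  classical
  rintro j hj a _ ⟨v, hv, rfl⟩
  rw [conv1_mem_NJ]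
  intro t
  rw [conv1_mX_apply ι hj]
  refine ⟨by rw [add_comm a 1]; exact (isHomogeneous_X K _).mul (hv t).1, fun s hs => ?_⟩
  rw [coeff_X_mul'] at hs
  split_ifs at hs with h
  · obtain ⟨i, hi, hsi⟩ := (hv t).2 _ hs
    refine ⟨i, hi, fun h0 => hsi ?_⟩
    rw [Finsupp.tsub_apply, h0, Nat.zero_sub]
  · exact absurd rfl hs

private theorem conv1_step (ι : Type) {j : ℕ} (hj : j < m) :
    (fun a => conv1NJ K m ι j a ⊔ HK2.shf (mX K m ι j) (hV K m ι) a) = conv1NJ K m ι (j + 1) := by
  classical
  funext a
  apply le_antisymm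
  · apply sup_le
    · intro v hv t
      refine ⟨(hv t).1, fun s hs => ?_⟩
      obtain ⟨i, hi, hsi⟩ := (hv t).2 s hs
      exact ⟨i, by omega, hsi⟩
    · cases a with
      | zero => exact bot_le
      | succ a =>
        rintro _ ⟨v, hv, rfl⟩ t
        rw [conv1_mX_apply ι hj]
        have h1 : (X ⟨j, hj⟩ * v t : MvPolynomial (Fin m) K).IsHomogeneous (a + 1) := by
          rw [add_comm a 1]
          exact (isHomogeneous_X K _).mul (conv1_mem_hV ι |>.mp hv t)
        refine ⟨h1, fun s hs => ?_⟩
        rw [coeff_X_mul'] at hs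
        split_ifs at hs with h
        · exact ⟨⟨j, hj⟩, by simp, by rwa [Finsupp.mem_support_iff] at h⟩
        · exact absurd rfl hs
  · intro v hv
    cases a with
    | zero =>
      have h0 : v = 0 := by
        funext t
        ext s
        by_contra hs
        obtain ⟨i, _, hsi⟩ := (hv t).2 s hs
        have h1 := (hv t).1.coeff_eq_zero (d := s) (fun h => hsi (by
          have := (Finsupp.degree_eq_zero_iff s).mp h
          rw [this]; rfl))
        exact hs h1
      rw [h0]
      exact Submodule.zero_mem _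
    | succ a =>
      set w : ι → MvPolynomial (Fin m) K := fun t =>
        divMonomial (v t) (Finsupp.single ⟨j, hj⟩ 1) with hw
      set u : ι → MvPolynomial (Fin m) K := fun t =>
        modMonomial (v t) (Finsupp.single ⟨j, hj⟩ 1) with hu
      have hsum : v = u + mX K m ι j w := by
        funext t
        rw [Pi.add_apply, conv1_mX_apply ι hj, add_comm]
        exact (divMonomial_add_modMonomial_single (v t) ⟨j, hj⟩).symm
      have hwh : w ∈ hV K m ι a := by
        rw [conv1_mem_hV]
        intro t s hs
        rw [hw] at hs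
        simp only [coeff_divMonomial] at hs
        have := (hv t).1 hs
        rw [map_add, Finsupp.weight_single] at this
        simp only [Pi.one_apply, smul_eq_mul, mul_one] at this
        omega
      have huh : u ∈ conv1NJ K m ι j (a + 1) := by
        intro t
        have h1 : ∀ s : Fin m →₀ ℕ, coeff s (u t) ≠ 0 → coeff s (v t) ≠ 0 ∧ s ⟨j, hj⟩ = 0 := by
          intro s hs
          by_cases h : Finsupp.single (⟨j, hj⟩ : Fin m) 1 ≤ s
          · exact absurd (coeff_modMonomial_of_le (v t) h) hs
          · refine ⟨?_, ?_⟩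
            · rw [hu] at hs
              simp only at hs
              rwa [coeff_modMonomial_of_not_le (v t) h] at hs
            · rw [Finsupp.single_le_iff] at h
              omega
        refine ⟨fun s hs => (hv t).1 (h1 s hs).1, fun s hs => ?_⟩
        obtain ⟨i, hi, hsi⟩ := (hv t).2 s (h1 s hs).1
        refine ⟨i, ?_, hsi⟩
        have h2 : (i : ℕ) ≠ j := by
          intro h3
          apply hsi
          rw [← (h1 s hs).2]
          congr 1
          ext
          exact h3
        omega
      rw [hsum]
      exact Submodule.add_mem_sup huh ⟨w, hwh, rfl⟩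

/-- the free module is Koszul exact in positive degrees -/
theorem KEx_free (ι : Type) : KEx m (mX K m ι) (hV K m ι) (fun _ => ⊥) := by
  classical
  have key : ∀ l j : ℕ, j + l = m → KEx m (mX K m ι) (hV K m ι) (conv1NJ K m ι j) := by
    intro l
    induction l with
    | zero =>
      intro j hj
      apply KEx.base
      intro a v hv t
      refine ⟨conv1_mem_hV ι |>.mp hv t, fun s hs => ?_⟩
      have h1 := (conv1_mem_hV ι |>.mp hv t) hs
      by_contra hcon
      push Not at hcon
      have h2 : s = 0 := by
        ext i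
        exact hcon i (by have := i.2; omega)
      rw [h2, map_zero] at h1
      omega
    | succ l ih =>
      intro j hj
      have hjm : j < m := by omega
      apply KEx.nzd hjm (fun i j => mX_comm ι i j) (conv1_Gr_hV ι) (conv1_Gr_NJ ι j)
      · intro a v hv h t
        refine ⟨conv1_mem_hV ι |>.mp hv t, fun s hs => ?_⟩
        have h1 := (h t).2 (s + Finsupp.single ⟨j, hjm⟩ 1) (by
          rw [conv1_mX_apply ι hjm, add_comm, coeff_X_mul]
          exact hs)
        obtain ⟨i, hi, hsi⟩ := h1
        refine ⟨i, hi, fun h0 => hsi ?_⟩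
        rw [Finsupp.add_apply, h0, zero_add, Finsupp.single_apply, if_neg]
        intro h3
        rw [← h3] at hi
        simp at hi
      · rw [conv1_step ι hjm]
        exact ih (j + 1) (by omega)
  have h0 : conv1NJ K m ι 0 = fun _ => ⊥ := by
    funext a
    rw [eq_bot_iff]
    intro v hv
    rw [Submodule.mem_bot]
    funext t
    ext s
    by_contra hs
    obtain ⟨i, hi, _⟩ := (hv t).2 s hs
    omega
  have := key m 0 (by omega)
  rwa [h0] at this

end

end HK2
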