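import Pool.Agent.HK2.Conv1

/-! # Module Conv2: resolutions from Koszul exactness -/

namespace HK2

open MvPolynomial Finset H48.Hk

section

variable {K : Type*} [Field K] {m : ℕ}

/-- exactness in the given degree and weight -/
def KW {ι : Type} (Z : Submodule (MvPolynomial (Fin m) K) (ι → MvPolynomial (Fin m) K))
    (δ k : ℕ) : Prop :=
  (∀ d < δ, gV Z d = ⊥) ∧
  KEx m (mX K m ι) (fun a => gV Z (δ + a)) (fun _ => ⊥) ∧
  (∀ (d : ℕ) (c : KI m → ι → MvPolynomial (Fin m) K), (∀ x, c x ∈ gV Z (d + 1)) →
    (∀ x, kw m x < k → c x = 0) → (∀ x, kd (mX K m ι) m c x = 0) →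
    ∃ e : KI m → ι → MvPolynomial (Fin m) K, (∀ x, e x ∈ gV Z d) ∧
      ∀ x, c x = kd (mX K m ι) m e x) ∧
  (∀ c : KI m → ι → MvPolynomial (Fin m) K, (∀ x, c x ∈ gV Z 0) →
    (∀ x, kw m x < k → c x = 0) → (∀ x, kd (mX K m ι) m c x = 0) → ∀ x, c x = 0)

private theorem mX_smul2 (ι : Type) {j : ℕ} (hj : j < m) (v : ι → MvPolynomial (Fin m) K) :
    mX K m ι j v = (X ⟨j, hj⟩ : MvPolynomial (Fin m) K) • v := by
  funext t
  simp only [mX, LinearMap.pi_apply, LinearMap.comp_apply, LinearMap.proj_apply,
    LinearMap.mulLeft_apply, dif_pos hj, Pi.smul_apply, smul_eq_mul]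

private theorem mem_hV2 {ι : Type} {d : ℕ} {v : ι → MvPolynomial (Fin m) K} :
    v ∈ hV K m ι d ↔ ∀ t, (v t).IsHomogeneous d := by
  simp [hV, Submodule.mem_pi]

private theorem mem_gV2 {ι : Type}
    {Z : Submodule (MvPolynomial (Fin m) K) (ι → MvPolynomial (Fin m) K)} {d : ℕ}
    {v : ι → MvPolynomial (Fin m) K} :
    v ∈ gV Z d ↔ v ∈ Z ∧ ∀ t, (v t).IsHomogeneous d := by
  rw [gV, Submodule.mem_inf, mem_hV2]
  rfl

private theorem kw0 : ∀ m : ℕ, ∃ x : KI m, kw m x = 0
  | 0 => ⟨(), rfl⟩
  | m + 1 => by
    obtain ⟨x, hx⟩ := kw0 m
    exact ⟨(x, false), by simp [kw, hx]⟩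

section trunc

variable {V : Type*} [AddCommGroup V] [Module K V]

private theorem kd_trunc (Y : ℕ → V →ₗ[K] V) : ∀ (m k : ℕ) (c : KI m → V),
    kd Y m (fun x => if k + 1 ≤ kw m x then c x else 0) =
      fun x => if k ≤ kw m x then kd Y m c x else 0 := by
  intro m
  induction m with
  | zero =>
    intro k c
    funext x
    simp [kd]
  | succ m ih =>
    intro k c
    funext x
    obtain ⟨x, b⟩ := x
    cases b
    · have h1 := ih k (fun i => c (i, false))
      have h2 : (fun i : KI m => (if k + 1 ≤ kw (m + 1) (i, false) then c (i, false) else 0)) =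
          fun i => if k + 1 ≤ kw m i then c (i, false) else 0 := by
        funext i
        simp [kw]
      simp only [kd, Bool.false_eq_true, if_false]
      rw [h2, h1]
      simp only [kw, if_true, add_le_add_iff_right, Bool.false_eq_true, if_false, add_zero]
      by_cases h : k ≤ kw m x
      · simp [h]
      · simp [h]
    · simp only [kd, if_true]
      rcases k with _ | k
      · have h2 : (fun i : KI m => (if 0 + 1 ≤ kw (m + 1) (i, true) then c (i, true) else 0)) =
          fun i => c (i, true) := by
          funext i
          simp [kw]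
        rw [h2]
        simp
      · have h1 := ih k (fun i => c (i, true))
        have h2 : (fun i : KI m => (if k + 1 + 1 ≤ kw (m + 1) (i, true) then c (i, true) else 0)) =
            fun i => if k + 1 ≤ kw m i then c (i, true) else 0 := by
          funext i
          simp [kw]
        rw [h2, h1]
        simp only [kw, if_true, add_le_add_iff_right]
        by_cases h : k ≤ kw m x
        · simp [h]
        · simp [h]

end trunc

/-- a submodule is zero if its graded pieces are -/
private theorem eq_bot_of_gV {ι : Type}
    {Z : Submodule (MvPolynomial (Fin m) K) (ι → MvPolynomial (Fin m) K)} (hZ : Grd Z)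
    (h : ∀ d, gV Z d = ⊥) : Z = ⊥ := by
  rw [eq_bot_iff]
  intro z hz
  rw [Submodule.mem_bot]
  funext t
  rw [Pi.zero_apply, ← sum_homogeneousComponent (z t)]
  refine Finset.sum_eq_zero fun i _ => ?_
  have h1 : (fun x => homogeneousComponent i (z x)) ∈ gV Z i :=
    mem_gV2.2 ⟨hZ z hz i, fun t => homogeneousComponent_isHomogeneous _ _⟩
  rw [h i, Submodule.mem_bot] at h1
  exact congrFun h1 t

/-- a graded submodule lies in another one if its graded pieces do -/
private theorem le_of_gV {ι : Type} [Finite ι]
    {Z Z' : Submodule (MvPolynomial (Fin m) K) (ι → MvPolynomial (Fin m) K)} (hZ : Grd Z)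
    (h : ∀ d, ∀ v ∈ gV Z d, v ∈ Z') : Z ≤ Z' := by
  classical
  intro z hz
  have := Fintype.ofFinite ι
  set N := Finset.univ.sup (fun t => (z t).totalDegree) with hN
  have h2 : z = ∑ i ∈ range (N + 1), (fun x => homogeneousComponent i (z x)) := by
    funext t
    rw [Finset.sum_apply]
    conv_lhs => rw [← sum_homogeneousComponent (z t)]
    apply Finset.sum_subset
    · intro j hj
      rw [Finset.mem_range] at hj ⊢
      have h3 : (z t).totalDegree ≤ N := Finset.le_sup (f := fun t => (z t).totalDegree)
        (Finset.mem_univ t)
      omega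
    · intro j _ hj
      rw [Finset.mem_range, not_lt] at hj
      exact homogeneousComponent_eq_zero _ _ (by omega)
  rw [h2]
  exact Z'.sum_mem fun i _ => h i _
    (mem_gV2.2 ⟨hZ z hz i, fun t => homogeneousComponent_isHomogeneous _ _⟩)

private theorem hV_finite (ι : Type) [Finite ι] (d : ℕ) : Module.Finite K (hV K m ι d) := by
  have : Module.Finite K (homogeneousSubmodule (Fin m) K d) :=
    Module.Finite.iff_fg.2 (homogeneousSubmodule_fg (Fin m) K d)
  let f : hV K m ι d →ₗ[K] (ι → homogeneousSubmodule (Fin m) K d) :=
    { toFun := fun v t => ⟨v.1 t, mem_hV2.1 v.2 t⟩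
      map_add' := fun x y => rfl
      map_smul' := fun c x => rfl }
  refine Module.Finite.of_injective f ?_
  intro x y hxy
  ext1
  funext t
  have := congrFun hxy t
  exact congrArg Subtype.val this

theorem LR_of_KW (k : ℕ) : ∀ (ι : Type) [Fintype ι] (δ : ℕ)
    (Z : Submodule (MvPolynomial (Fin m) K) (ι → MvPolynomial (Fin m) K)), Grd Z →
    KW Z δ k → LR K (Fin m) k δ ι Z := by
  classical
  induction k with
  | zero =>
    intro ι _ δ Z hZ hW
    obtain ⟨h1, h2, h3, h4⟩ := hW
    change Z = ⊥
    refine eq_bot_of_gV hZ fun d => ?_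
    obtain ⟨x0, hx0⟩ := kw0 m
    induction d with
    | zero =>
      rw [eq_bot_iff]
      intro z hz
      have := h4 (fun x => if kw m x = 0 then z else 0)
        (fun x => by
          split_ifs
          · exact hz
          · exact Submodule.zero_mem _) (fun x hx => by omega)
        (fun x => congrFun (kd_wt_zero (mX K m ι) m (fun _ => z)) x) x0
      rw [if_pos hx0] at this
      rw [Submodule.mem_bot]
      exact this
    | succ d ih =>
      rw [eq_bot_iff]
      intro z hz
      obtain ⟨e, he, hce⟩ := h3 d (fun x => if kw m x = 0 then z else 0)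
        (fun x => by
          split_ifs
          · exact hz
          · exact Submodule.zero_mem _) (fun x hx => by omega)
        (fun x => congrFun (kd_wt_zero (mX K m ι) m (fun _ => z)) x)
      have he0 : e = fun _ => 0 := by
        funext x
        have := he x
        rw [ih, Submodule.mem_bot] at this
        exact this
      have := hce x0
      rw [if_pos hx0, he0, kd_zero] at this
      rw [Submodule.mem_bot]
      exact this
  | succ k ih =>
    intro ι _ δ Z hZ hW
    obtain ⟨h1, h2, h3, h4⟩ := hW
    obtain ⟨x0, hx0⟩ := kw0 m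
    -- a basis of the lowest piece
    have hfin : FiniteDimensional K (gV Z δ) := by
      have := hV_finite (K := K) (m := m) ι δ
      exact Submodule.finiteDimensional_of_le (inf_le_right : gV Z δ ≤ hV K m ι δ)
    set N := Module.finrank K (gV Z δ) with hN
    let B := Module.finBasis K (gV Z δ)
    let g : Fin N → ι → MvPolynomial (Fin m) K := fun k => (B k : ι → MvPolynomial (Fin m) K)
    have hg : ∀ k, g k ∈ gV Z δ := fun k => (B k).2
    have hgZ : ∀ k, g k ∈ Z := fun k => (mem_gV2.1 (hg k)).1
    have hgh : ∀ k i, (g k i).IsHomogeneous δ := fun k => (mem_gV2.1 (hg k)).2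
    have hspK : ∀ z ∈ gV Z δ, z ∈ Submodule.span K (Set.range g) := by
      intro z hz
      have h5 : (⟨z, hz⟩ : gV Z δ) ∈ Submodule.span K (Set.range B) := by
        rw [B.span_eq]
        trivial
      have h6 := Submodule.mem_map_of_mem (f := (gV Z δ).subtype) h5
      rw [Submodule.map_span, ← Set.range_comp] at h6
      exact h6
    have hind : LinearIndependent K g :=
      B.linearIndependent.map' (gV Z δ).subtype (Submodule.ker_subtype _)
    let P := MvPolynomial (Fin m) K
    let π : (Fin N → MvPolynomial (Fin m) K) →ₗ[MvPolynomial (Fin m) K]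
      (ι → MvPolynomial (Fin m) K) := Fintype.linearCombination (MvPolynomial (Fin m) K) g
    have hnat : ∀ c : KI m → Fin N → MvPolynomial (Fin m) K,
        kd (mX K m ι) m (fun x => π (c x)) = fun x => π (kd (mX K m (Fin N)) m c x) := by
      intro c
      exact kd_map (mX K m (Fin N)) (mX K m ι) m (π.restrictScalars K) (by
        intro j hj v
        rw [mX_smul2 _ hj, mX_smul2 _ hj]
        exact π.map_smul _ _) c
    -- the span
    have hspan : Submodule.span (MvPolynomial (Fin m) K) (Set.range g) = Z := by
      apply le_antisymm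
      · rw [Submodule.span_le]
        rintro _ ⟨k, rfl⟩
        exact hgZ k
      · refine le_of_gV hZ fun d v hv => ?_
        rcases Nat.lt_or_ge d δ with hd | hd
        · rw [h1 d hd, Submodule.mem_bot] at hv
          rw [hv]
          exact Submodule.zero_mem _
        · obtain ⟨a, rfl⟩ : ∃ a, d = δ + a := ⟨d - δ, by omega⟩
          clear hd
          induction a generalizing v with
          | zero =>
            have h5 := hspK v hv
            have h6 : Submodule.span K (Set.range g) ≤
                (Submodule.span (MvPolynomial (Fin m) K) (Set.range g)).restrictScalars K :=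
              Submodule.span_le.2 Submodule.subset_span
            exact h6 h5
          | succ a iha =>
            obtain ⟨e, he, hce⟩ := h2 a (fun x => if kw m x = 0 then v else 0)
              (fun x => by
                split_ifs
                · exact hv
                · exact Submodule.zero_mem _)
              (fun x => by
                rw [Submodule.mem_bot]
                exact congrFun (kd_wt_zero (mX K m ι) m (fun _ => v)) x)
            have h5 := hce x0
            rw [if_pos hx0, Submodule.mem_bot, sub_eq_zero] at h5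
            rw [h5]
            refine kd_mem (mX K m ι) m
              ((Submodule.span (MvPolynomial (Fin m) K) (Set.range g)).restrictScalars K)
              ((Submodule.span (MvPolynomial (Fin m) K) (Set.range g)).restrictScalars K)
              ?_ e (fun x => iha _ (he x)) x0
            intro j hj
            rw [Submodule.map_le_iff_le_comap]
            intro w hw
            rw [Submodule.mem_comap, mX_smul2 _ hj]
            exact Submodule.smul_mem (Submodule.span (MvPolynomial (Fin m) K) (Set.range g)) _ hw
    have hπZ : ∀ v, π v ∈ Z := by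
      intro v
      rw [← hspan, ← Fintype.range_linearCombination]
      exact ⟨v, rfl⟩
    have hπh : ∀ (a : ℕ) (v : Fin N → MvPolynomial (Fin m) K), v ∈ hV K m (Fin N) a →
        π v ∈ gV Z (δ + a) := by
      intro a v hv
      refine mem_gV2.2 ⟨hπZ v, fun t => ?_⟩
      rw [lc_apply, add_comm δ a]
      exact IsHomogeneous.sum _ _ _ fun k _ => (mem_hV2.1 hv k).mul (hgh k t)
    have hsurj : ∀ (a : ℕ), ∀ z ∈ gV Z (δ + a), ∃ v ∈ hV K m (Fin N) a, π v = z := by
      intro a z hz
      obtain ⟨hzZ, hzh⟩ := mem_gV2.1 hz
      rw [← hspan, ← Fintype.range_linearCombination] at hzZ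
      obtain ⟨v, hv⟩ := hzZ
      refine ⟨fun k => homogeneousComponent a (v k),
        mem_hV2.2 fun k => homogeneousComponent_isHomogeneous _ _, ?_⟩
      funext t
      rw [lc_apply]
      have h5 : homogeneousComponent (a + δ) (z t) = z t := by
        rw [homogeneousComponent_of_mem (m := a + δ) (n := δ + a)
          ((mem_homogeneousSubmodule _ _).mpr (hzh t)), if_pos (by omega)]
      rw [← h5, ← hv, lc_apply, map_sum]
      exact Finset.sum_congr rfl fun k _ => (comp_mul _ (hgh k t)).symm
    have hinj : ∀ v ∈ hV K m (Fin N) 0, π v = 0 → v = 0 := by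
      intro v hv h
      have hv' : ∀ k, v k = C (coeff 0 (v k)) := fun k =>
        totalDegree_eq_zero_iff_eq_C.1 ((mem_hV2.1 hv k).totalDegree_le.antisymm (Nat.zero_le _))
      have h5 : ∑ k, coeff 0 (v k) • g k = 0 := by
        funext t
        have h6 := congrFun h t
        rw [lc_apply] at h6
        rw [Finset.sum_apply, ← h6]
        refine Finset.sum_congr rfl fun k _ => ?_
        rw [Pi.smul_apply]
        conv_rhs => rw [hv' k]
        rw [← C_mul']
      have h7 := Fintype.linearIndependent_iff.1 hind _ h5
      funext k
      rw [hv' k, h7 k, C_0]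
      rfl
    refine ⟨Fin N, inferInstance, g, hgh, hspan, ?_⟩
    have hZ1 : ∀ v, v ∈ LinearMap.ker (Fintype.linearCombination (MvPolynomial (Fin m) K) g) ↔
        π v = 0 := fun v => LinearMap.mem_ker
    have k0 : gV (LinearMap.ker (Fintype.linearCombination (MvPolynomial (Fin m) K) g)) 0 =
        ⊥ := by
      rw [eq_bot_iff]
      intro v hv
      obtain ⟨hv1, hv2⟩ := mem_gV2.1 hv
      rw [Submodule.mem_bot]
      exact hinj v (mem_hV2.2 hv2) ((hZ1 v).1 hv1)
    have kex : KEx m (mX K m (Fin N))
        (fun a => gV (LinearMap.ker (Fintype.linearCombination (MvPolynomial (Fin m) K) g))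
          (1 + a)) (fun _ => ⊥) := by
      intro a c hc hdc
      have hdc' : kd (mX K m (Fin N)) m c = fun _ => 0 := by
        funext x
        have := hdc x
        rwa [Submodule.mem_bot] at this
      obtain ⟨e, he, hce⟩ := KEx_free (K := K) (m := m) (Fin N) (a + 1) c
        (fun x => by
          have := (mem_gV2.1 (hc x)).2
          rw [show 1 + (a + 1) = a + 1 + 1 by omega] at this
          exact mem_hV2.2 this) (fun x => by rw [hdc']; exact Submodule.zero_mem _)
      have hce' : kd (mX K m (Fin N)) m e = c := by
        funext x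
        have := hce x
        rw [Submodule.mem_bot, sub_eq_zero] at this
        exact this.symm
      -- the image
      obtain ⟨f, hf, hfe⟩ := h2 a (fun x => π (e x)) (fun x => hπh _ _ (he x)) (fun x => by
        rw [Submodule.mem_bot, hnat e]
        have := hce x
        rw [Submodule.mem_bot, sub_eq_zero] at this
        change π (kd (mX K m (Fin N)) m e x) = 0
        rw [← this]
        exact (hZ1 _).1 (mem_gV2.1 (hc x)).1)
      choose f' hf' hff' using fun x => hsurj a (f x) (hf x)
      refine ⟨fun x => e x - kd (mX K m (Fin N)) m f' x, fun x => ?_, fun x => ?_⟩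
      · have hx1 : π (kd (mX K m (Fin N)) m f' x) = kd (mX K m ι) m f x := by
          have := congrFun (hnat f') x
          rw [← this]
          congr 1
          funext y
          exact hff' y
        refine mem_gV2.2 ⟨(hZ1 _).2 ?_, ?_⟩
        · rw [map_sub, hx1]
          have := hfe x
          rwa [Submodule.mem_bot] at this
        · rw [← mem_hV2, show 1 + a = a + 1 by omega]
          refine Submodule.sub_mem _ (he x) ?_
          refine kd_mem (mX K m (Fin N)) m (hV K m (Fin N) a) _ ?_ f' hf' x
          rintro j hj _ ⟨w, hw, rfl⟩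
          rw [mX_smul2 _ hj]
          refine mem_hV2.2 fun t => ?_
          rw [Pi.smul_apply, smul_eq_mul, add_comm a 1]
          exact (isHomogeneous_X K _).mul (mem_hV2.1 hw t)
      · have h5 : kd (mX K m (Fin N)) m (fun x => e x - kd (mX K m (Fin N)) m f' x) x = c x := by
          rw [kd_sub, kd_kd _ (fun i j => mX_comm (Fin N) i j), hce']
          exact sub_zero _
        rw [h5, sub_self]
        exact Submodule.zero_mem _
    -- cycles of high weight in degree one vanish
    have kone : ∀ c : KI m → Fin N → MvPolynomial (Fin m) K,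
        (∀ x, c x ∈ gV (LinearMap.ker
          (Fintype.linearCombination (MvPolynomial (Fin m) K) g)) 1) →
        (∀ x, kw m x < k → c x = 0) → (∀ x, kd (mX K m (Fin N)) m c x = 0) → ∀ x, c x = 0 := by
      intro c hc hcw hdc
      obtain ⟨e, he, hce⟩ := KEx_free (K := K) (m := m) (Fin N) 0 c
        (fun x => mem_hV2.2 (mem_gV2.1 (hc x)).2) (fun x => by
          rw [hdc x]
          exact Submodule.zero_mem _)
      have hce' : kd (mX K m (Fin N)) m e = c := by
        funext x
        have := hce x
        rw [Submodule.mem_bot, sub_eq_zero] at this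
        exact this.symm
      have hce2 : kd (mX K m (Fin N)) m (fun x => if k + 1 ≤ kw m x then e x else 0) = c := by
        rw [kd_trunc, hce']
        funext x
        by_cases hx : k ≤ kw m x
        · rw [if_pos hx]
        · rw [if_neg hx, hcw x (by omega)]
      have he2 : ∀ x, (if k + 1 ≤ kw m x then e x else 0) ∈ hV K m (Fin N) 0 := by
        intro x
        split_ifs
        · exact he x
        · exact Submodule.zero_mem _
      have hpe : ∀ x, π (if k + 1 ≤ kw m x then e x else 0) ∈ gV Z δ := fun x =>
        hπh 0 _ (he2 x)
      have hpw : ∀ x, kw m x < k + 1 → π (if k + 1 ≤ kw m x then e x else 0) = 0 := by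
        intro x hx
        rw [if_neg (by omega), map_zero]
      have hpd : ∀ x, kd (mX K m ι) m (fun x => π (if k + 1 ≤ kw m x then e x else 0)) x = 0 := by
        intro x
        rw [hnat]
        change π (kd (mX K m (Fin N)) m (fun x => if k + 1 ≤ kw m x then e x else 0) x) = 0
        rw [hce2]
        exact (hZ1 _).1 (mem_gV2.1 (hc x)).1
      have hz : ∀ x, π (if k + 1 ≤ kw m x then e x else 0) = 0 := by
        rcases Nat.eq_zero_or_pos δ with hδ | hδ
        · subst hδ
          exact h4 _ hpe hpw hpd
        · obtain ⟨d, rfl⟩ : ∃ d, δ = d + 1 := ⟨δ - 1, by omega⟩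
          obtain ⟨f, hf, hfe⟩ := h3 d _ hpe hpw hpd
          have hf0 : f = fun _ => 0 := by
            funext x
            have := hf x
            rw [h1 d (Nat.lt_succ_self d), Submodule.mem_bot] at this
            exact this
          intro x
          have := hfe x
          rw [hf0, kd_zero] at this
          exact this
      have hee : (fun x => if k + 1 ≤ kw m x then e x else 0) = fun _ => 0 := by
        funext x
        exact hinj _ (he2 x) (hz x)
      intro x
      rw [← hce2, hee, kd_zero]
    refine ih (Fin N) 1 _ (grd_ker g hgh) ⟨?_, kex, ?_, ?_⟩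
    · intro d hd
      obtain rfl : d = 0 := by omega
      exact k0
    · intro d c hc hcw hdc
      rcases d with _ | d
      · have h5 := kone c hc hcw hdc
        refine ⟨fun _ => 0, fun x => Submodule.zero_mem _, fun x => ?_⟩
        rw [h5 x, kd_zero]
      · obtain ⟨e, he, hce⟩ := kex d c (fun x => by
          have := hc x
          rwa [show d + 1 + 1 = 1 + (d + 1) by omega] at this)
          (fun x => by rw [hdc x]; exact Submodule.zero_mem _)
        refine ⟨e, fun x => ?_, fun x => ?_⟩
        · have h5 : e x ∈ gV (LinearMap.ker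
            (Fintype.linearCombination (MvPolynomial (Fin m) K) g)) (1 + d) := he x
          rwa [show 1 + d = d + 1 by omega] at h5
        · have := hce x
          rwa [Submodule.mem_bot, sub_eq_zero] at this
    · intro c hc _ _ x
      have := hc x
      rwa [k0, Submodule.mem_bot] at this

end

end HK2
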