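import Pool.Agent.HK.LemU

/-!
# MP_0201c8_ag, Q2: common definitions for the proof of linear powers (all n, r)

Everything is relative: an ambient space `V` with commuting operators `Y 0, Y 1, ...` and a family
of subspaces `N a` (the zero of degree `a`).
-/

namespace HK2

open Finset HK

universe u

section

variable {K : Type*} [Field K] {V : Type*} [AddCommGroup V] [Module K V]

/-- letters `(false, i) = p_i`, `(true, i) = q_i` -/
abbrev Lt := Bool × ℤ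

/-- the Koszul index set: subsets of `{0, ..., m-1}` -/
def KI : ℕ → Type
  | 0 => Unit
  | m + 1 => KI m × Bool

/-- the Koszul differential of `Y 0, ..., Y (m-1)` -/
def kd (Y : ℕ → V →ₗ[K] V) : (m : ℕ) → (KI m → V) → (KI m → V)
  | 0, _ => fun _ => 0
  | m + 1, c => fun x =>
      if x.2 then - kd Y m (fun i => c (i, true)) x.1
      else kd Y m (fun i => c (i, false)) x.1 + Y m (c (x.1, true))

/-- the number of elements of an index -/
def kw : (m : ℕ) → KI m → ℕ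
  | 0, _ => 0
  | m + 1, x => kw m x.1 + (if x.2 then 1 else 0)

/-- exactness of the Koszul complex of `S / N` in all degrees `≥ 1` -/
def KEx (m : ℕ) (Y : ℕ → V →ₗ[K] V) (S N : ℕ → Submodule K V) : Prop :=
  ∀ (a : ℕ) (c : KI m → V), (∀ x, c x ∈ S (a + 1)) → (∀ x, kd Y m c x ∈ N (a + 2)) →
    ∃ e : KI m → V, (∀ x, e x ∈ S a) ∧ ∀ x, c x - kd Y m e x ∈ N (a + 1)

/-- the operators `Y 0, ..., Y (m-1)` raise the degree of the family by one -/
def Gr (m : ℕ) (Y : ℕ → V →ₗ[K] V) (N : ℕ → Submodule K V) : Prop :=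
  ∀ j < m, ∀ a, (N a).map (Y j) ≤ N (a + 1)

/-- `S` needs at least `B` vectors over `N` -/
def RelGE (S N : Submodule K V) (B : ℕ) : Prop := ∀ B', RelLE S N B' → B ≤ B'

/-- `Y_o S_{a-1}` -/
def shf (T : V →ₗ[K] V) (S : ℕ → Submodule K V) : ℕ → Submodule K V
  | 0 => ⊥
  | a + 1 => (S a).map T

/-- the span of the values of a realisation -/
def spn (K : Type*) [Field K] {V : Type*} [AddCommGroup V] [Module K V] {k : ℕ}
    (z : (Fin k → ℤ) → Multiset Lt → V) (r : ℕ) : Submodule K V :=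
  Submodule.span K {v | ∃ (ρ : Fin k → ℤ) (u : Multiset Lt), Multiset.card u = r ∧ v = z ρ u}

/-- the span of the values of a realisation of kind `Z` -/
def spnZ (K : Type*) [Field K] {V : Type*} [AddCommGroup V] [Module K V]
    (z : Multiset Lt → V) (r : ℕ) : Submodule K V :=
  Submodule.span K {v | ∃ u : Multiset Lt, Multiset.card u = r ∧ v = z u}

/-- static relations of type `κ` with `k` columns and `m` rows, in degree `r` -/
structure Rs (κ : Bool → ℕ) (k m r : ℕ) (N0 : Submodule K V)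
    (z : (Fin k → ℤ) → Multiset Lt → V) : Prop where
  alt : ∀ (ρ : Fin k → ℤ) (a b : Fin k) (u : Multiset Lt), Multiset.card u = r → a ≠ b →
    z (ρ ∘ Equiv.swap a b) u + z ρ u ∈ N0
  rep : ∀ (ρ : Fin k → ℤ) (a b : Fin k) (u : Multiset Lt), Multiset.card u = r → a ≠ b →
    ρ a = ρ b → z ρ u ∈ N0
  out : ∀ (ρ : Fin k → ℤ) (a : Fin k) (u : Multiset Lt), Multiset.card u = r →
    (ρ a < 0 ∨ (m : ℤ) ≤ ρ a) → z ρ u ∈ N0
  bad : ∀ (ρ : Fin k → ℤ) (u : Multiset Lt), Multiset.card u = r →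
    (∃ x ∈ u, x.2 < 0 ∨ (m : ℤ) + 1 < x.2 + κ x.1) → z ρ u ∈ N0
  rel : ∀ (c : Bool) (t : ℕ), t < κ c → ∀ τ : Fin (k + 1) → ℤ,
    (∀ a, 0 ≤ τ a ∧ τ a < (m : ℤ)) → ∀ u : Multiset Lt, Multiset.card u + 1 = r →
    ∑ a : Fin (k + 1), (-1 : K) ^ (a : ℕ) • z (fun i => τ (a.succAbove i)) ((c, τ a - t) ::ₘ u) ∈ N0
  lap : ∀ σ : Fin (k + 2) → ℤ, (∀ a, 0 ≤ σ a ∧ σ a ≤ (m : ℤ)) →
    ∀ u : Multiset Lt, Multiset.card u + 2 = r →
    ∑ a : Fin (k + 2), ∑ b : Fin (k + 1), (-1 : K) ^ ((a : ℕ) + (b : ℕ)) •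
      z (fun i => σ (a.succAbove (b.succAbove i)) - 1)
        ((false, σ a) ::ₘ (true, σ (a.succAbove b)) ::ₘ u) ∈ N0

/-- relations with variables `Y j`, `o ≤ j < o + M`; the other variables act as zero -/
structure Rd (κ : Bool → ℕ) (k m r m0 o M : ℕ) (Y : ℕ → V →ₗ[K] V) (N : ℕ → Submodule K V)
    (z : (Fin k → ℤ) → Multiset Lt → V) : Prop where
  st : Rs κ k m r (N 0) z
  r1 : ∀ (ρ : Fin k → ℤ) (a : Fin k) (i : ℕ) (u : Multiset Lt), Multiset.card u = r →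
    ∑ j ∈ range (M - i), Y (o + i + j) (z (Function.update ρ a (j : ℤ)) u) ∈ N 1
  r2 : ∀ (ρ : Fin k → ℤ) (c : Bool) (i : ℕ) (u : Multiset Lt), Multiset.card u + 1 = r →
    ∑ j ∈ range (M - i), Y (o + i + j) (z ρ ((c, (j : ℤ)) ::ₘ u)) ∈ N 1
  off : ∀ (ρ : Fin k → ℤ) (u : Multiset Lt), Multiset.card u = r →
    ∀ j < m0, (j < o ∨ o + M ≤ j) → Y j (z ρ u) ∈ N 1

/-- kind `Z`: letters `(false, i)`, `0 ≤ i < c`, and `(true, 0)` -/
def Zs (c r : ℕ) (N0 : Submodule K V) (z : Multiset Lt → V) : Prop :=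
  ∀ u : Multiset Lt, Multiset.card u = r →
    (∃ x ∈ u, x.2 < 0 ∨ (x.1 = false ∧ (c : ℤ) ≤ x.2) ∨ (x.1 = true ∧ 0 < x.2)) → z u ∈ N0

/-- kind `Z` with variables -/
structure Zd (c r m0 o M : ℕ) (Y : ℕ → V →ₗ[K] V) (N : ℕ → Submodule K V)
    (z : Multiset Lt → V) : Prop where
  st : Zs c r (N 0) z
  r2 : ∀ (i : ℕ) (u : Multiset Lt), Multiset.card u + 1 = r →
    ∑ j ∈ range (M - i), Y (o + i + j) (z ((false, (j : ℤ)) ::ₘ u)) ∈ N 1
  off : ∀ u : Multiset Lt, Multiset.card u = r →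
    ∀ j < m0, (j < o ∨ o + M ≤ j) → Y j (z u) ∈ N 1

end

/-- the numbers `G(k, m, r)` -/
def GG : ℕ → ℕ → ℕ → ℕ
  | 0, 0, r => Nat.multichoose 4 r
  | _ + 1, 0, _ => 0
  | 0, m + 1, 0 => GG 0 m 0
  | 0, m + 1, r + 1 => GG 0 m (r + 1) + GG 0 (m + 1) r + Nat.multichoose (m + 4) r
  | k + 1, m + 1, 0 => GG (k + 1) m 0 + GG k m 0
  | k + 1, m + 1, r + 1 => GG (k + 1) m (r + 1) + GG (k + 1) (m + 1) r + GG k m (r + 1)

end HK2
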