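import Pool.Agent.HK2.Summ2
import Pool.Agent.HK2.Conv

/-! # Module Summ: the powers of the ideal of minors as direct summands -/

namespace HK2

open MvPolynomial Finset HK

section

variable {K : Type*} [Field K] {n m : ℕ}

/-- multiplication by the variables on the source of `tht` -/
private noncomputable def mT (K : Type*) [Field K] (n m : ℕ) (j : ℕ) :
    MvPolynomial (Fin n ↪o Fin (n + 2)) (MvPolynomial (Fin m) K) →ₗ[K]
      MvPolynomial (Fin n ↪o Fin (n + 2)) (MvPolynomial (Fin m) K) :=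
  LinearMap.mulLeft K (C (if h : j < m then (X ⟨j, h⟩ : MvPolynomial (Fin m) K) else 0))

private lemma smul_eq_CC (c : K)
    (F : MvPolynomial (Fin n ↪o Fin (n + 2)) (MvPolynomial (Fin m) K)) :
    c • F = C (C c) * F := by
  rw [C_mul', ← algebraMap_smul (MvPolynomial (Fin m) K) c]
  rfl

/-- `tht` as a linear map -/
private noncomputable def thtL (K : Type*) [Field K] (n m : ℕ) :
    MvPolynomial (Fin n ↪o Fin (n + 2)) (MvPolynomial (Fin m) K) →ₗ[K] SB K n where
  toFun F := tht K n m F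
  map_add' x y := map_add _ _ _
  map_smul' c F := by
    rw [smul_eq_CC, map_mul, RingHom.id_apply]
    have h1 : tht K n m (C (C c)) = C c := by
      unfold tht
      rw [coe_eval₂Hom, eval₂_C]
      change iot K n m (C c) = C c
      unfold iot
      rw [aeval_C]
      rfl
    rw [h1, C_mul']

/-- evaluation at the minors as a linear map -/
private noncomputable def avL (K : Type*) [Field K] (n m : ℕ) :
    MvPolynomial (Fin n ↪o Fin (n + 2)) (MvPolynomial (Fin m) K) →ₗ[K]
      (Unit → MvPolynomial (Fin m) K) where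
  toFun F := fun _ => aeval (maxMinor K n m) F
  map_add' x y := by
    funext u
    rw [map_add]
    rfl
  map_smul' c F := by
    funext u
    rw [smul_eq_CC, map_mul, aeval_C, RingHom.id_apply, Pi.smul_apply, ← C_mul']
    rfl

/-- `rr` with values in the free module -/
private noncomputable def rU (K : Type*) [Field K] (n m b : ℕ) :
    SB K n →ₗ[K] (Unit → MvPolynomial (Fin m) K) :=
  LinearMap.pi fun _ => rr K n m b

private lemma mT_apply (j : ℕ) (hj : j < m)
    (F : MvPolynomial (Fin n ↪o Fin (n + 2)) (MvPolynomial (Fin m) K)) :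
    mT K n m j F = C (X ⟨j, hj⟩ : MvPolynomial (Fin m) K) * F := by
  unfold mT
  rw [LinearMap.mulLeft_apply, dif_pos hj]

private lemma thtL_apply (F : MvPolynomial (Fin n ↪o Fin (n + 2)) (MvPolynomial (Fin m) K)) :
    thtL K n m F = tht K n m F := rfl

private lemma avL_apply (F : MvPolynomial (Fin n ↪o Fin (n + 2)) (MvPolynomial (Fin m) K))
    (u : Unit) : avL K n m F u = aeval (maxMinor K n m) F := rfl

private lemma mX_apply (j : ℕ) (hj : j < m) (v : Unit → MvPolynomial (Fin m) K) (u : Unit) :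
    mX K m Unit j v u = X ⟨j, hj⟩ * v u := by
  unfold mX
  rw [LinearMap.pi_apply, LinearMap.comp_apply, LinearMap.mulLeft_apply, LinearMap.proj_apply,
    dif_pos hj]

private lemma mY_apply (j : ℕ) (G : SB K n) : mY K n j G = xx K n j * G := by
  unfold mY
  rw [LinearMap.mulLeft_apply]

private lemma thtL_mT (j : ℕ) (hj : j < m)
    (F : MvPolynomial (Fin n ↪o Fin (n + 2)) (MvPolynomial (Fin m) K)) :
    thtL K n m (mT K n m j F) = mY K n j (thtL K n m F) := by
  rw [mT_apply j hj, mY_apply, thtL_apply, thtL_apply, map_mul]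
  congr 1
  unfold tht
  rw [coe_eval₂Hom, eval₂_C]
  have h1 : iot K n m (X ⟨j, hj⟩) = xx K n j := by
    unfold iot
    rw [aeval_X]
  exact h1

private lemma avL_mT (j : ℕ) (hj : j < m)
    (F : MvPolynomial (Fin n ↪o Fin (n + 2)) (MvPolynomial (Fin m) K)) :
    avL K n m (mT K n m j F) = mX K m Unit j (avL K n m F) := by
  funext u
  rw [mT_apply j hj, mX_apply j hj, avL_apply, avL_apply, map_mul, aeval_C]
  rfl

private lemma rU_mY (b : ℕ) (hm : m ≤ 2 * n + 1) (j : ℕ) (hj : j < m) (G : SB K n) :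
    rU K n m b (mY K n j G) = mX K m Unit j (rU K n m b G) := by
  funext u
  rw [mY_apply, mX_apply j hj]
  change rr K n m b (xx K n j * G) = X ⟨j, hj⟩ * rr K n m b G
  rw [rr_xx b j hj hm]

private lemma mY_map (m b a : ℕ) : ∀ j < m, (bih K n a b).map (mY K n j) ≤ bih K n (a + 1) b := by
  intro j _
  rw [Submodule.map_le_iff_le_comap]
  intro G hG
  have h := mul_mem_bih (xx_mem (K := K) (n := n) (j : ℤ)) hG
  rw [Nat.add_comm 1 a, Nat.zero_add] at h
  exact h

/-- Koszul exactness passes to the powers of the ideal -/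
theorem summ [CharZero K] {μ : ℕ} (hμ : 2 ≤ μ) (hn : μ ≤ n + 1) (b : ℕ)
    (h : KEx (n + μ) (mY K n) (NI (⊤ : Ideal (SB K n)) (2 * b)) (NI (AA K n μ) (2 * b))) :
    KEx (n + μ) (mX K (n + μ) Unit)
      (fun a => gV (H48.Hk.QI (mI K n (n + μ) ^ b)) (n * b + a)) (fun _ => ⊥) := by
  intro a c hc hd
  have hm : n + μ ≤ 2 * n + 1 := by omega
  have hex : ∀ x, ∃ F : MvPolynomial (Fin n ↪o Fin (n + 2)) (MvPolynomial (Fin (n + μ)) K),
      BiHom K n (n + μ) (a + 1) b F ∧ aeval (maxMinor K n (n + μ)) F = c x () := by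
    intro x
    obtain ⟨h1, h2⟩ := hc x
    exact exists_F b (a + 1) (c x ()) h1 (h2 () (Set.mem_univ _))
  choose F hF1 hF2 using hex
  have hcF : c = fun x => avL K n (n + μ) (F x) := by
    funext x u
    exact (hF2 x).symm
  have hG : ∀ x, thtL K n (n + μ) (F x) ∈ bih K n (a + 1) (2 * b) := fun x =>
    tht_bih b (a + 1) hm (F x) (hF1 x)
  have hkF : ∀ x, (kd (mT K n (n + μ)) (n + μ) F x).IsHomogeneous b := by
    refine kd_mem (mT K n (n + μ)) (n + μ)
      ((homogeneousSubmodule (Fin n ↪o Fin (n + 2)) (MvPolynomial (Fin (n + μ)) K)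
        b).restrictScalars K)
      ((homogeneousSubmodule (Fin n ↪o Fin (n + 2)) (MvPolynomial (Fin (n + μ)) K)
        b).restrictScalars K) ?_ F (fun x => (hF1 x).1)
    intro j _
    rw [Submodule.map_le_iff_le_comap]
    intro f hf
    have h1 := (isHomogeneous_C (Fin n ↪o Fin (n + 2))
      (if h : j < n + μ then (X ⟨j, h⟩ : MvPolynomial (Fin (n + μ)) K) else 0)).mul
      (show f.IsHomogeneous b from hf)
    rw [Nat.zero_add] at h1
    exact h1
  have hk0 : ∀ x, aeval (maxMinor K n (n + μ)) (kd (mT K n (n + μ)) (n + μ) F x) = 0 := by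
    intro x
    have h1 := hd x
    rw [hcF, kd_map (mT K n (n + μ)) (mX K (n + μ) Unit) (n + μ) (avL K n (n + μ))
      (fun j hj v => avL_mT j hj v) F] at h1
    exact congrFun ((Submodule.mem_bot K).1 h1) ()
  have hkG := kd_map (mT K n (n + μ)) (mY K n) (n + μ) (thtL K n (n + μ))
      (fun j hj v => thtL_mT j hj v) F
  obtain ⟨H, hH1, hH2⟩ := h a (fun x => thtL K n (n + μ) (F x))
    (fun x => ⟨trivial, hG x⟩) (by
      intro x
      refine ⟨?_, kd_mem (mY K n) (n + μ) _ _ (mY_map (n + μ) (2 * b) (a + 1)) _ hG x⟩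
      rw [hkG]
      exact tht_mem μ hμ hn (AA_prime K n μ hμ hn) b _ (hkF x) (hk0 x))
  have hN : ((b.factorial * (b + 1).factorial : ℕ) : K) ≠ 0 := by
    rw [Nat.cast_ne_zero]
    exact Nat.mul_ne_zero (Nat.factorial_ne_zero _) (Nat.factorial_ne_zero _)
  have hrH := kd_map (mY K n) (mX K (n + μ) Unit) (n + μ) (rU K n (n + μ) b)
    (fun j hj v => rU_mY b hm j hj v) H
  refine ⟨fun x => ((b.factorial * (b + 1).factorial : ℕ) : K)⁻¹ • rU K n (n + μ) b (H x), ?_, ?_⟩
  · intro x
    obtain ⟨h1, h2⟩ := rr_mem b a hm (H x) (hH1 x).2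
    exact Submodule.smul_mem _ _ ⟨h1, fun _ _ => h2⟩
  · intro x
    rw [Submodule.mem_bot, kd_smul, hrH, sub_eq_zero]
    have h1 : rr K n (n + μ) b (thtL K n (n + μ) (F x) - kd (mY K n) (n + μ) H x) = 0 :=
      rr_AA (by omega) hn (by omega) b _ (hH2 x).1
    rw [map_sub, sub_eq_zero] at h1
    have h2 : rr K n (n + μ) b (thtL K n (n + μ) (F x)) =
        (b.factorial * (b + 1).factorial : ℕ) * aeval (maxMinor K n (n + μ)) (F x) :=
      rr_tht (by omega) hn (by omega) b (F x) (hF1 x).1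
    funext u
    change c x () = ((b.factorial * (b + 1).factorial : ℕ) : K)⁻¹ •
      rr K n (n + μ) b (kd (mY K n) (n + μ) H x)
    rw [← h1, h2, hF2 x, ← nsmul_eq_mul, ← Nat.cast_smul_eq_nsmul K, smul_smul,
      inv_mul_cancel₀ hN, one_smul]

end

end HK2
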