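import Pool.Agent.HK2.TopL
import Pool.Agent.HK2.Summ

/-! # Module Final -/

namespace HK2

open MvPolynomial Finset HK

theorem LR_pow (K : Type*) [Field K] [CharZero K] {n μ : ℕ} (hμ : 2 ≤ μ) (hn : μ ≤ n + 1) (b : ℕ) :
    H48.Hk.LR K (Fin (n + μ)) (n + μ + 1) (n * b) Unit (H48.Hk.QI (mI K n (n + μ) ^ b)) :=
  LR_of_KEx (n * b) _ (mI_homog b) (mI_low b) (summ hμ hn b (chainKEx (2 * b) μ hn))

end HK2
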