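import Pool.Agent.HK2.Defs

/-! # Module KosA: the Koszul differential -/

namespace HK2

open Finset HK

section

variable {K : Type*} [Field K] {V : Type*} [AddCommGroup V] [Module K V]

private theorem kd_t (Y : ℕ → V →ₗ[K] V) (m : ℕ) (c : KI (m + 1) → V) (x : KI m) :
    kd Y (m + 1) c (x, true) = - kd Y m (fun i => c (i, true)) x := rfl

private theorem kd_f (Y : ℕ → V →ₗ[K] V) (m : ℕ) (c : KI (m + 1) → V) (x : KI m) :
    kd Y (m + 1) c (x, false) = kd Y m (fun i => c (i, false)) x + Y m (c (x, true)) := rfl

private theorem ki_ext {W : Type*} {m : ℕ} {c c' : KI (m + 1) → W}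
    (ht : ∀ x : KI m, c (x, true) = c' (x, true)) (hf : ∀ x : KI m, c (x, false) = c' (x, false)) :
    c = c' := by
  funext ⟨x, b⟩
  cases b
  · exact hf x
  · exact ht x

theorem kd_zero (Y : ℕ → V →ₗ[K] V) (m : ℕ) : kd Y m (fun _ => 0) = fun _ => 0 := by
  induction m with
  | zero => rfl
  | succ m ih =>
    refine ki_ext (fun x => ?_) (fun x => ?_)
    · rw [kd_t, ih, neg_zero]
    · rw [kd_f, ih, map_zero, add_zero]

theorem kd_add (Y : ℕ → V →ₗ[K] V) (m : ℕ) (c c' : KI m → V) :
    kd Y m (fun x => c x + c' x) = fun x => kd Y m c x + kd Y m c' x := by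
  induction m with
  | zero =>
    funext x
    exact (add_zero (0 : V)).symm
  | succ m ih =>
    refine ki_ext (fun x => ?_) (fun x => ?_)
    · rw [kd_t, kd_t, kd_t, ih (fun i => c (i, true)) (fun i => c' (i, true)), neg_add]
    · rw [kd_f, kd_f, kd_f, ih (fun i => c (i, false)) (fun i => c' (i, false)), map_add]
      exact add_add_add_comm _ _ _ _

theorem kd_map {V' : Type*} [AddCommGroup V'] [Module K V'] (Y : ℕ → V →ₗ[K] V)
    (Y' : ℕ → V' →ₗ[K] V') (m : ℕ) (f : V →ₗ[K] V') (hf : ∀ j < m, ∀ v, f (Y j v) = Y' j (f v))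
    (c : KI m → V) : kd Y' m (fun x => f (c x)) = fun x => f (kd Y m c x) := by
  induction m with
  | zero =>
    funext x
    exact (map_zero f).symm
  | succ m ih =>
    have ih' := ih (fun j hj => hf j (Nat.lt_succ_of_lt hj))
    refine ki_ext (fun x => ?_) (fun x => ?_)
    · rw [kd_t, kd_t, ih' (fun i => c (i, true)), map_neg]
    · rw [kd_f, kd_f, ih' (fun i => c (i, false)), map_add, hf m (Nat.lt_succ_self m)]

private theorem kd_neg (Y : ℕ → V →ₗ[K] V) (m : ℕ) (c : KI m → V) :
    kd Y m (fun x => - c x) = fun x => - kd Y m c x :=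
  kd_map Y Y m (-LinearMap.id) (fun j _ v => by simp) c

theorem kd_sub (Y : ℕ → V →ₗ[K] V) (m : ℕ) (c c' : KI m → V) :
    kd Y m (fun x => c x - c' x) = fun x => kd Y m c x - kd Y m c' x := by
  have h := kd_add Y m c (fun x => - c' x)
  rw [kd_neg] at h
  simpa only [sub_eq_add_neg] using h

theorem kd_smul (Y : ℕ → V →ₗ[K] V) (m : ℕ) (r : K) (c : KI m → V) :
    kd Y m (fun x => r • c x) = fun x => r • kd Y m c x :=
  kd_map Y Y m (r • LinearMap.id) (fun j _ v => by simp) c

/-- the differential raises the degree -/
theorem kd_mem (Y : ℕ → V →ₗ[K] V) (m : ℕ) (S T : Submodule K V)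
    (h : ∀ j < m, S.map (Y j) ≤ T) (c : KI m → V) (hc : ∀ x, c x ∈ S) :
    ∀ x, kd Y m c x ∈ T := by
  induction m with
  | zero => exact fun x => T.zero_mem
  | succ m ih =>
    have ih' := ih (fun j hj => h j (Nat.lt_succ_of_lt hj))
    rintro ⟨x, b⟩
    cases b
    · rw [kd_f]
      exact T.add_mem (ih' (fun i => c (i, false)) (fun y => hc _) x)
        (h m (Nat.lt_succ_self m) (Submodule.mem_map_of_mem (hc _)))
    · rw [kd_t]
      exact T.neg_mem (ih' (fun i => c (i, true)) (fun y => hc _) x)

theorem kd_kd (Y : ℕ → V →ₗ[K] V) (hY : ∀ i j, Commute (Y i) (Y j)) (m : ℕ) (c : KI m → V) :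
    kd Y m (kd Y m c) = fun _ => 0 := by
  induction m with
  | zero => rfl
  | succ m ih =>
    refine ki_ext (fun x => ?_) (fun x => ?_)
    · rw [kd_t]
      have h1 : (fun i => kd Y (m + 1) c (i, true)) =
          fun i => - kd Y m (fun i => c (i, true)) i := funext fun i => kd_t Y m c i
      rw [h1, kd_neg, ih (fun i => c (i, true))]
      exact (congrArg Neg.neg neg_zero).trans neg_zero
    · rw [kd_f]
      have h1 : (fun i => kd Y (m + 1) c (i, false)) =
          fun i => kd Y m (fun i => c (i, false)) i + Y m (c (i, true)) :=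
        funext fun i => kd_f Y m c i
      have h2 := kd_map Y Y m (Y m)
        (fun j _ v => DFunLike.congr_fun (hY m j).eq v) (fun i => c (i, true))
      rw [h1, kd_add Y m (kd Y m (fun i => c (i, false))) (fun i => Y m (c (i, true))), h2,
        ih (fun i => c (i, false)), kd_t, map_neg]
      exact (congrArg (fun v : V => v + _) (zero_add _)).trans (add_neg_cancel _)

private theorem abx (a b c : V) : a + -b + (c + b) = a + c := by abel

/-- the homotopy -/
private def hh : (m : ℕ) → ℕ → (KI m → V) → (KI m → V)
  | 0, _, _ => fun _ => 0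
  | m + 1, j, c => fun x =>
      if j = m then (if x.2 then c (x.1, false) else 0)
      else (if x.2 then - hh m j (fun i => c (i, true)) x.1
        else hh m j (fun i => c (i, false)) x.1)

private theorem hh_t (m : ℕ) (c : KI (m + 1) → V) (x : KI m) :
    hh (m + 1) m c (x, true) = c (x, false) := by simp [hh]

private theorem hh_f (m : ℕ) (c : KI (m + 1) → V) (x : KI m) :
    hh (m + 1) m c (x, false) = 0 := by simp [hh]

private theorem hh_t' {m j : ℕ} (hj : j ≠ m) (c : KI (m + 1) → V) (x : KI m) :
    hh (m + 1) j c (x, true) = - hh m j (fun i => c (i, true)) x := by simp [hh, hj]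

private theorem hh_f' {m j : ℕ} (hj : j ≠ m) (c : KI (m + 1) → V) (x : KI m) :
    hh (m + 1) j c (x, false) = hh m j (fun i => c (i, false)) x := by simp [hh, hj]

private theorem hh_add (m j : ℕ) (c c' : KI m → V) :
    hh m j (fun x => c x + c' x) = fun x => hh m j c x + hh m j c' x := by
  induction m with
  | zero =>
    funext x
    exact (add_zero (0 : V)).symm
  | succ m ih =>
    by_cases hj : j = m
    · subst hj
      refine ki_ext (fun x => ?_) (fun x => ?_)
      · rw [hh_t, hh_t, hh_t]
      · rw [hh_f, hh_f, hh_f, add_zero]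
    · refine ki_ext (fun x => ?_) (fun x => ?_)
      · rw [hh_t' hj, hh_t' hj, hh_t' hj, ih (fun i => c (i, true)) (fun i => c' (i, true)),
          neg_add]
      · rw [hh_f' hj, hh_f' hj, hh_f' hj, ih (fun i => c (i, false)) (fun i => c' (i, false))]

private theorem hh_map (m j : ℕ) (f : V →ₗ[K] V) (c : KI m → V) :
    hh m j (fun x => f (c x)) = fun x => f (hh m j c x) := by
  induction m with
  | zero =>
    funext x
    exact (map_zero f).symm
  | succ m ih =>
    by_cases hj : j = m
    · subst hj
      refine ki_ext (fun x => ?_) (fun x => ?_)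
      · rw [hh_t, hh_t]
      · rw [hh_f, hh_f, map_zero]
    · refine ki_ext (fun x => ?_) (fun x => ?_)
      · rw [hh_t' hj, hh_t' hj, ih (fun i => c (i, true)), map_neg]
      · rw [hh_f' hj, hh_f' hj, ih (fun i => c (i, false))]

private theorem hh_mem (m j : ℕ) (W : Submodule K V) (c : KI m → V) (hc : ∀ x, c x ∈ W) :
    ∀ x, hh m j c x ∈ W := by
  induction m with
  | zero => exact fun x => W.zero_mem
  | succ m ih =>
    by_cases hj : j = m
    · subst hj
      rintro ⟨x, b⟩
      cases b
      · rw [hh_f]
        exact W.zero_mem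
      · rw [hh_t]
        exact hc _
    · rintro ⟨x, b⟩
      cases b
      · rw [hh_f' hj]
        exact ih (fun i => c (i, false)) (fun y => hc _) x
      · rw [hh_t' hj]
        exact W.neg_mem (ih (fun i => c (i, true)) (fun y => hc _) x)

private theorem hh_main (Y : ℕ → V →ₗ[K] V) (m j : ℕ) (hj : j < m) (c : KI m → V) :
    ∀ x : KI m, kd Y m (hh m j c) x + hh m j (kd Y m c) x = Y j (c x) := by
  induction m with
  | zero => exact absurd hj (Nat.not_lt_zero j)
  | succ m ih =>
    by_cases hjm : j = m
    · subst hjm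
      rintro ⟨x, b⟩
      cases b
      · have h1 : (fun i => hh (j + 1) j c (i, false)) = fun _ : KI j => (0 : V) :=
          funext fun i => hh_f j c i
        rw [kd_f, h1, kd_zero, hh_t, hh_f, zero_add, add_zero]
      · have h1 : (fun i => hh (j + 1) j c (i, true)) = fun i => c (i, false) :=
          funext fun i => hh_t j c i
        rw [kd_t, h1, hh_t, kd_f]
        abel
    · have hj' : j < m := by omega
      rintro ⟨x, b⟩
      cases b
      · have h1 : (fun i => hh (m + 1) j c (i, false)) = hh m j (fun i => c (i, false)) :=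
          funext fun i => hh_f' hjm c i
        have h2 : (fun i => kd Y (m + 1) c (i, false)) =
            fun i => kd Y m (fun i => c (i, false)) i + Y m (c (i, true)) :=
          funext fun i => kd_f Y m c i
        have h3 := ih hj' (fun i => c (i, false)) x
        rw [kd_f, h1, hh_t' hjm, hh_f' hjm, h2,
          hh_add m j (kd Y m (fun i => c (i, false))) (fun i => Y m (c (i, true))),
          hh_map m j (Y m) (fun i => c (i, true)), map_neg, ← h3]
        exact abx _ _ _
      · have h1 : (fun i => hh (m + 1) j c (i, true)) =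
            fun i => - hh m j (fun i => c (i, true)) i :=
          funext fun i => hh_t' hjm c i
        have h2 : (fun i => kd Y (m + 1) c (i, true)) =
            fun i => (-LinearMap.id : V →ₗ[K] V) (kd Y m (fun i => c (i, true)) i) :=
          funext fun i => kd_t Y m c i
        have h3 := ih hj' (fun i => c (i, true)) x
        rw [kd_t, h1, kd_neg, neg_neg, hh_t' hjm, h2, hh_map m j, ← h3]
        simp

/-- multiplication by a variable is homotopic to zero on the Koszul complex -/
theorem kd_htpy (Y : ℕ → V →ₗ[K] V) (hY : ∀ i j, Commute (Y i) (Y j)) (m j : ℕ) (hj : j < m) :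
    ∃ h : (KI m → V) → (KI m → V),
      (∀ (W : Submodule K V) (c : KI m → V), (∀ x, c x ∈ W) → ∀ x, h c x ∈ W) ∧
      ∀ (c : KI m → V) (x : KI m), kd Y m (h c) x + h (kd Y m c) x = Y j (c x) :=
  ⟨hh m j, fun W c hc => hh_mem m j W c hc, fun c => hh_main Y m j hj c⟩

theorem kw_le (m : ℕ) (x : KI m) : kw m x ≤ m := by
  induction m with
  | zero => exact le_refl 0
  | succ m ih =>
    have h1 := ih x.1
    have h2 : kw (m + 1) x = kw m x.1 + (if x.2 then 1 else 0) := rfl
    rw [h2]
    split_ifs <;> omega

private theorem kw_t (m : ℕ) (x : KI m) : kw (m + 1) (x, true) = kw m x + 1 := rfl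

private theorem kw_f (m : ℕ) (x : KI m) : kw (m + 1) (x, false) = kw m x := rfl

/-- elements of weight zero are cycles -/
theorem kd_wt_zero (Y : ℕ → V →ₗ[K] V) (m : ℕ) (c : KI m → V) :
    kd Y m (fun x => if kw m x = 0 then c x else 0) = fun _ => 0 := by
  induction m with
  | zero => rfl
  | succ m ih =>
    refine ki_ext (fun x => ?_) (fun x => ?_)
    · rw [kd_t]
      have h1 : (fun i : KI m => if kw (m + 1) (i, true) = 0 then c (i, true) else 0) =
          fun _ => 0 := by
        funext i
        rw [kw_t, if_neg (Nat.succ_ne_zero _)]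
      rw [h1, kd_zero, neg_zero]
    · rw [kd_f, kw_t, if_neg (Nat.succ_ne_zero _), map_zero, add_zero]
      exact congrFun (ih (fun i => c (i, false))) x

/-- the differential lowers the weight by one -/
theorem kd_wt (Y : ℕ → V →ₗ[K] V) (m i : ℕ) (c : KI m → V) :
    kd Y m (fun x => if kw m x = i + 1 then c x else 0) =
      fun x => if kw m x = i then kd Y m c x else 0 := by
  induction m generalizing i with
  | zero =>
    funext x
    exact (ite_self (0 : V)).symm
  | succ m ih =>
    refine ki_ext (fun x => ?_) (fun x => ?_)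
    · rw [kd_t, kw_t, kd_t]
      rcases i with _ | i
      · have h1 : (fun y : KI m => if kw (m + 1) (y, true) = 0 + 1 then c (y, true) else 0) =
            fun y => if kw m y = 0 then c (y, true) else 0 := by
          funext y
          simp only [kw_t, Nat.add_right_cancel_iff]
        rw [h1, kd_wt_zero Y m (fun y => c (y, true)), neg_zero, if_neg (Nat.succ_ne_zero _)]
      · have h1 : (fun y : KI m => if kw (m + 1) (y, true) = i + 1 + 1 then c (y, true) else 0) =
            fun y => if kw m y = i + 1 then c (y, true) else 0 := by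
          funext y
          simp only [kw_t, Nat.add_right_cancel_iff]
        rw [h1, ih i (fun y => c (y, true))]
        simp only [Nat.add_right_cancel_iff]
        split_ifs
        · rfl
        · exact neg_zero
    · rw [kd_f, kw_f, kd_f, kw_t]
      have h1 : (fun y : KI m => if kw (m + 1) (y, false) = i + 1 then c (y, false) else 0) =
          fun y => if kw m y = i + 1 then c (y, false) else 0 := rfl
      rw [h1, ih i (fun y => c (y, false))]
      simp only [Nat.add_right_cancel_iff]
      split_ifs
      · rfl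
      · rw [map_zero, add_zero]

end

end HK2
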