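import Pool.Agent.HK2.KosA

/-! # Module KosB: closure properties of Koszul exactness -/

namespace HK2

open Finset HK

section

variable {K : Type*} [Field K] {V : Type*} [AddCommGroup V] [Module K V]

theorem Gr.sup {m : ℕ} {Y : ℕ → V →ₗ[K] V} {S T : ℕ → Submodule K V} (hS : Gr m Y S)
    (hT : Gr m Y T) : Gr m Y (fun a => S a ⊔ T a) := by
  intro j hj a
  show (S a ⊔ T a).map (Y j) ≤ S (a + 1) ⊔ T (a + 1)
  rw [Submodule.map_sup]
  exact sup_le_sup (hS j hj a) (hT j hj a)

theorem Gr.shf {m o : ℕ} {Y : ℕ → V →ₗ[K] V} (hY : ∀ i j, Commute (Y i) (Y j))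
    {S : ℕ → Submodule K V} (hS : Gr m Y S) : Gr m Y (HK2.shf (Y o) S) := by
  intro j hj a
  cases a with
  | zero =>
    show (⊥ : Submodule K V).map (Y j) ≤ _
    rw [Submodule.map_bot]
    exact bot_le
  | succ a =>
    show ((S a).map (Y o)).map (Y j) ≤ (S (a + 1)).map (Y o)
    rintro _ ⟨_, ⟨s, hs, rfl⟩, rfl⟩
    refine ⟨Y j s, hS j hj a ⟨s, hs, rfl⟩, ?_⟩
    exact LinearMap.congr_fun (hY o j) s

theorem Gr.US {m : ℕ} (Y : ℕ → V →ₗ[K] V) (S0 : Submodule K V) : Gr m Y (HK.US m Y S0) := by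
  intro j hj a
  exact le_iSup (fun i : Fin m => (HK.US m Y S0 a).map (Y i)) ⟨j, hj⟩

private theorem gr_kd {m : ℕ} {Y : ℕ → V →ₗ[K] V} {N : ℕ → Submodule K V} (hN : Gr m Y N)
    {a : ℕ} {c : KI m → V} (hc : ∀ x, c x ∈ N a) (x : KI m) : kd Y m c x ∈ N (a + 1) :=
  kd_mem Y m (N a) (N (a + 1)) (fun j hj => hN j hj a) c hc x

/-- only `S + N` matters -/
theorem KEx.congr {m : ℕ} {Y : ℕ → V →ₗ[K] V} {S S' N : ℕ → Submodule K V} (hN : Gr m Y N)
    (h : ∀ a, S a ⊔ N a = S' a ⊔ N a) (hS : KEx m Y S N) : KEx m Y S' N := by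
  intro a c hc hd
  have h1 : ∀ x, ∃ s ∈ S (a + 1), ∃ n ∈ N (a + 1), s + n = c x := by
    intro x
    have : c x ∈ S (a + 1) ⊔ N (a + 1) := by
      rw [h (a + 1)]
      exact Submodule.mem_sup_left (hc x)
    exact Submodule.mem_sup.1 this
  choose s hs n hn hsn using h1
  have e1 : s = fun x => c x - n x := by
    funext x
    rw [← hsn x]
    abel
  have h2 : ∀ x, kd Y m s x ∈ N (a + 2) := by
    intro x
    rw [e1, kd_sub]
    exact Submodule.sub_mem _ (hd x) (gr_kd hN hn x)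
  obtain ⟨e, he, hce⟩ := hS a s hs h2
  have h3 : ∀ x, ∃ s ∈ S' a, ∃ n ∈ N a, s + n = e x := by
    intro x
    have : e x ∈ S' a ⊔ N a := by
      rw [← h a]
      exact Submodule.mem_sup_left (he x)
    exact Submodule.mem_sup.1 this
  choose s' hs' n' hn' hsn' using h3
  refine ⟨s', hs', fun x => ?_⟩
  have e2 : kd Y m s' x = kd Y m e x - kd Y m n' x := by
    have : s' = fun x => e x - n' x := by
      funext x
      rw [← hsn' x]
      abel
    rw [this, kd_sub]
  have e3 : c x - kd Y m s' x = (s x - kd Y m e x) + n x + kd Y m n' x := by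
    rw [e2, ← hsn x]
    abel
  rw [e3]
  exact Submodule.add_mem _ (Submodule.add_mem _ (hce x) (hn x)) (gr_kd hN hn' x)

/-- a module concentrated in degree zero -/
theorem KEx.base {m : ℕ} {Y : ℕ → V →ₗ[K] V} {S N : ℕ → Submodule K V}
    (h : ∀ a, S (a + 1) ≤ N (a + 1)) : KEx m Y S N := by
  intro a c hc _
  refine ⟨fun _ => 0, fun _ => Submodule.zero_mem _, fun x => ?_⟩
  rw [kd_zero]
  simpa using h a (hc x)

/-- extensions: `0 → (S' + N) / N → (S + S' + N) / N → (S + S' + N) / (S' + N) → 0` -/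
theorem KEx.ext {m : ℕ} {Y : ℕ → V →ₗ[K] V} (hY : ∀ i j, Commute (Y i) (Y j))
    {S S' N : ℕ → Submodule K V} (hS' : Gr m Y S') (hN : Gr m Y N)
    (h1 : KEx m Y S' N) (h2 : KEx m Y S (fun a => N a ⊔ S' a)) :
    KEx m Y (fun a => S a ⊔ S' a) N := by
  intro a c hc hd
  have g1 : ∀ x, ∃ s ∈ S (a + 1), ∃ n ∈ S' (a + 1), s + n = c x :=
    fun x => Submodule.mem_sup.1 (hc x)
  choose s hs s' hs' hss using g1
  have e1 : s = fun x => c x - s' x := by
    funext x
    rw [← hss x]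
    abel
  have g2 : ∀ x, kd Y m s x ∈ (fun a => N a ⊔ S' a) (a + 2) := by
    intro x
    rw [e1, kd_sub]
    exact Submodule.sub_mem _ (Submodule.mem_sup_left (hd x))
      (Submodule.mem_sup_right (gr_kd hS' hs' x))
  obtain ⟨e, he, hse⟩ := h2 a s hs g2
  have g3 : ∀ x, ∃ n ∈ N (a + 1), ∃ t ∈ S' (a + 1), n + t = c x - kd Y m e x := by
    intro x
    have : c x - kd Y m e x ∈ N (a + 1) ⊔ S' (a + 1) := by
      have e2 : c x - kd Y m e x = (s x - kd Y m e x) + s' x := by
        rw [← hss x]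
        abel
      rw [e2]
      exact Submodule.add_mem _ (hse x) (Submodule.mem_sup_right (hs' x))
    exact Submodule.mem_sup.1 this
  choose n hn t ht hnt using g3
  have g4 : ∀ x, kd Y m t x ∈ N (a + 2) := by
    intro x
    have e3 : t = fun x => (c x - kd Y m e x) - n x := by
      funext x
      rw [← hnt x]
      abel
    rw [e3, kd_sub, kd_sub, kd_kd Y hY]
    simp only [sub_zero]
    exact Submodule.sub_mem _ (hd x) (gr_kd hN hn x)
  obtain ⟨e', he', hte⟩ := h1 a t ht g4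
  refine ⟨fun x => e x + e' x, fun x => Submodule.add_mem _ (Submodule.mem_sup_left (he x))
    (Submodule.mem_sup_right (he' x)), fun x => ?_⟩
  rw [kd_add]
  have e4 : c x - (kd Y m e x + kd Y m e' x) = n x + (t x - kd Y m e' x) := by
    have := hnt x
    rw [← sub_sub, ← this]
    abel
  show c x - (kd Y m e x + kd Y m e' x) ∈ N (a + 1)
  rw [e4]
  exact Submodule.add_mem _ (hn x) (hte x)

/-- a regular variable -/
theorem KEx.nzd {m o : ℕ} (ho : o < m) {Y : ℕ → V →ₗ[K] V} (hY : ∀ i j, Commute (Y i) (Y j))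
    {S N : ℕ → Submodule K V} (hS : Gr m Y S) (hN : Gr m Y N)
    (hr : ∀ a, ∀ s ∈ S a, Y o s ∈ N (a + 1) → s ∈ N a)
    (h : KEx m Y S (fun a => N a ⊔ HK2.shf (Y o) S a)) : KEx m Y S N := by
  intro a c hc hd
  obtain ⟨e, he, hce⟩ := h a c hc (fun x => Submodule.mem_sup_left (hd x))
  have g1 : ∀ x, ∃ n ∈ N (a + 1), ∃ f ∈ S a, n + Y o f = c x - kd Y m e x := by
    intro x
    have h0 : c x - kd Y m e x ∈ N (a + 1) ⊔ (S a).map (Y o) := hce x
    obtain ⟨n, hn, y, hy, hny⟩ := Submodule.mem_sup.1 h0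
    obtain ⟨f, hf, rfl⟩ := hy
    exact ⟨n, hn, f, hf, hny⟩
  choose n hn f hf hnf using g1
  have e1 : kd Y m (fun x => Y o (f x)) = fun x => Y o (kd Y m f x) :=
    kd_map Y Y m (Y o) (fun j _ v => LinearMap.congr_fun (hY o j) v) f
  have g2 : ∀ x, kd Y m f x ∈ N (a + 1) := by
    intro x
    refine hr (a + 1) _ (gr_kd hS hf x) ?_
    have e2 : (fun x => Y o (f x)) = fun x => (c x - kd Y m e x) - n x := by
      funext x
      rw [← hnf x]
      abel
    have e3 : Y o (kd Y m f x) = kd Y m (fun x => Y o (f x)) x := by rw [e1]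
    rw [e3, e2, kd_sub, kd_sub, kd_kd Y hY]
    simp only [sub_zero]
    exact Submodule.sub_mem _ (hd x) (gr_kd hN hn x)
  obtain ⟨H, hH1, hH2⟩ := kd_htpy Y hY m o ho
  refine ⟨fun x => e x + H f x, fun x => Submodule.add_mem _ (he x) (hH1 (S a) f hf x),
    fun x => ?_⟩
  rw [kd_add]
  have e4 : c x - (kd Y m e x + kd Y m (H f) x) = n x + H (kd Y m f) x := by
    have a1 := hnf x
    have a2 := hH2 f x
    rw [← sub_sub, ← a1, ← a2]
    abel
  show c x - (kd Y m e x + kd Y m (H f) x) ∈ N (a + 1)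
  rw [e4]
  exact Submodule.add_mem _ (hn x) (hH1 (N (a + 1)) _ g2 x)

/-- a new variable acting as zero -/
theorem KEx.addvar {m : ℕ} {Y : ℕ → V →ₗ[K] V} {S N : ℕ → Submodule K V}
    (h0 : ∀ a, (S a).map (Y m) ≤ N (a + 1)) (h : KEx m Y S N) : KEx (m + 1) Y S N := by
  intro a c hc hd
  have d1 : ∀ i : KI m, kd Y m (fun i => c (i, true)) i ∈ N (a + 2) := by
    intro i
    have := hd (i, true)
    simp only [kd, if_true] at this
    exact (Submodule.neg_mem_iff _).1 this
  have d2 : ∀ i : KI m, kd Y m (fun i => c (i, false)) i ∈ N (a + 2) := by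
    intro i
    have h3 := hd (i, false)
    simp only [kd, Bool.false_eq_true, if_false] at h3
    have h4 : Y m (c (i, true)) ∈ N (a + 2) := h0 (a + 1) ⟨_, hc (i, true), rfl⟩
    exact (Submodule.add_mem_iff_left _ h4).1 h3
  obtain ⟨e1, he1, hc1⟩ := h a (fun i => c (i, true)) (fun i => hc (i, true)) d1
  obtain ⟨e2, he2, hc2⟩ := h a (fun i => c (i, false)) (fun i => hc (i, false)) d2
  refine ⟨fun x => if x.2 then - e1 x.1 else e2 x.1, fun x => ?_, fun x => ?_⟩
  · obtain ⟨i, b⟩ := x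
    cases b with
    | true => simpa using he1 i
    | false => simpa using he2 i
  · obtain ⟨i, b⟩ := x
    cases b with
    | true =>
      have e3 : kd Y (m + 1) (fun x : KI (m + 1) => if x.2 then - e1 x.1 else e2 x.1) (i, true) =
          kd Y m e1 i := by
        simp only [kd, if_true]
        have : (fun x => - e1 x) = fun x => (-1 : K) • e1 x := by
          funext x
          simp
        rw [this, kd_smul]
        simp
      rw [e3]
      exact hc1 i
    | false =>
      have e3 : kd Y (m + 1) (fun x : KI (m + 1) => if x.2 then - e1 x.1 else e2 x.1) (i, false) =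
          kd Y m e2 i - Y m (e1 i) := by
        simp only [kd, Bool.false_eq_true, if_false, if_true, map_neg]
        abel
      rw [e3]
      have e4 : c (i, false) - (kd Y m e2 i - Y m (e1 i)) =
          (c (i, false) - kd Y m e2 i) + Y m (e1 i) := by abel
      rw [e4]
      exact Submodule.add_mem _ (hc2 i) (h0 a ⟨_, he1 i, rfl⟩)

/-- everything is zero -/
theorem KEx.zero {m : ℕ} {Y : ℕ → V →ₗ[K] V} {S N : ℕ → Submodule K V}
    (h : ∀ a, S a ≤ N a) : KEx m Y S N :=
  KEx.base fun a => h (a + 1)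

end

end HK2
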