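import Pool.Agent.HK2.Defs

/-! # Module TZ: transitions of kind `Z` -/

namespace HK2

open Finset HK

section

variable {K : Type*} [Field K] {V : Type*} [AddCommGroup V] [Module K V]

/-- letters of kind `Z` inside the letters of type `(0,0)` with `m + 1` rows -/
def thZ (m : ℕ) (x : Lt) : Lt := if x.1 = false then x else (x.1, x.2 + (m + 2))

/-- the realisation of kind `Z` -/
def zTZ {V : Type*} (m : ℕ) (z : (Fin 0 → ℤ) → Multiset Lt → V) (u : Multiset Lt) : V :=
  z Fin.elim0 ((false, 0) ::ₘ u.map (thZ m))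

/-- shift of the letters `(false, i)` -/
def shZ (x : Lt) : Lt := if x.1 = false then (x.1, x.2 + 1) else x

private theorem elim0_eq (ρ : Fin 0 → ℤ) : ρ = Fin.elim0 := Subsingleton.elim _ _

private theorem thZ_inv (m : ℕ) (x : Lt) :
    thZ m (if x.1 = false then x else (x.1, x.2 - (m + 2))) = x := by
  obtain ⟨c, i⟩ := x
  cases c
  · simp [thZ]
  · simp [thZ]

private theorem shZ_inv (x : Lt) :
    shZ (if x.1 = false then (x.1, x.2 - 1) else x) = x := by
  obtain ⟨c, i⟩ := x
  cases c
  · simp [shZ]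
  · simp [shZ]

private theorem map_surj {g h : Lt → Lt} (hg : ∀ x, g (h x) = x) (u : Multiset Lt) :
    (u.map h).map g = u := by
  rw [Multiset.map_map]
  conv_rhs => rw [← Multiset.map_id u]
  exact Multiset.map_congr rfl (fun x _ => by simp [hg])

theorem Rs.TZ {κ : Bool → ℕ} {m r : ℕ} {N0 N0' : Submodule K V}
    {z : (Fin 0 → ℤ) → Multiset Lt → V} (hκ : ∀ c, κ c = 0)
    (h : Rs κ 0 (m + 1) (r + 1) N0 z) (hN : N0 ≤ N0')
    (h1 : ∀ u : Multiset Lt, Multiset.card u = r → z Fin.elim0 ((true, 0) ::ₘ u) ∈ N0') :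
    Zs (m + 3) r N0' (zTZ m z) := by
  intro u hu hx
  obtain ⟨x, hxu, hx⟩ := hx
  obtain ⟨u', rfl⟩ := Multiset.exists_cons_of_mem hxu
  rw [Multiset.card_cons] at hu
  have hcard : ∀ y : Lt, Multiset.card (y ::ₘ (thZ m x ::ₘ u'.map (thZ m))) = r + 1 := by
    intro y
    rw [Multiset.card_cons, Multiset.card_cons, Multiset.card_map]
    omega
  have hb : (thZ m x).2 < 0 ∨ ((m + 1 : ℕ) : ℤ) + 1 < (thZ m x).2 + κ (thZ m x).1 →
      zTZ m z (x ::ₘ u') ∈ N0' := by
    intro hbad
    unfold zTZ
    rw [Multiset.map_cons]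
    refine hN (h.bad _ _ (hcard _) ⟨thZ m x, ?_, hbad⟩)
    simp
  obtain ⟨c, i⟩ := x
  cases c
  · refine hb ?_
    simp only [thZ, hκ, Nat.cast_zero, add_zero, if_true]
    simp only [Bool.false_eq_true, false_and, or_false, true_and] at hx
    rcases hx with hx | hx
    · exact Or.inl hx
    · refine Or.inr ?_
      push_cast at hx ⊢
      omega
  · simp only [Bool.true_eq_false, false_and, false_or, true_and] at hx
    have hth : thZ m (true, i) = (true, i + (m + 2)) := by simp [thZ]
    by_cases h0 : i + (m + 2) < 0 ∨ 0 < i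
    · refine hb ?_
      rw [hth]
      simp only [hκ, Nat.cast_zero, add_zero]
      rcases h0 with h0 | h0
      · exact Or.inl h0
      · refine Or.inr ?_
        push_cast
        omega
    · rw [not_or, not_lt, not_lt] at h0
      obtain ⟨h01, h02⟩ := h0
      have hi : i < 0 := by omega
      unfold zTZ
      rw [Multiset.map_cons, hth]
      set j : ℤ := i + (m + 2) with hj
      have hlap := h.lap (fun a => if a = 0 then 0 else j) (by
        intro a
        split_ifs
        · exact ⟨le_rfl, by positivity⟩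
        · exact ⟨h01, by push_cast; omega⟩) (u'.map (thZ m)) (by
          rw [Multiset.card_map]
          omega)
      simp only [Nat.reduceAdd, Fin.sum_univ_two, Fin.isValue, Finset.univ_unique,
        Fin.default_eq_zero, Finset.sum_singleton] at hlap
      have e1 : ((0 : Fin 2).succAbove (0 : Fin 1)) = 1 := rfl
      have e2 : ((1 : Fin 2).succAbove (0 : Fin 1)) = 0 := rfl
      rw [e1, e2] at hlap
      simp only [Fin.val_zero, Fin.val_one, add_zero, pow_zero, one_smul, pow_one, neg_smul,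
        if_true, Fin.isValue, one_ne_zero, if_false] at hlap
      rw [elim0_eq (fun i => _), elim0_eq (fun i => _)] at hlap
      have h4 : z Fin.elim0 ((false, j) ::ₘ (true, 0) ::ₘ u'.map (thZ m)) ∈ N0' := by
        rw [Multiset.cons_swap]
        refine h1 _ ?_
        rw [Multiset.card_cons, Multiset.card_map]
        omega
      have h5 := N0'.add_mem (hN hlap) h4
      rwa [neg_add_cancel_right] at h5

theorem Rd.TZ {κ : Bool → ℕ} {m r m0 o M : ℕ} {Y : ℕ → V →ₗ[K] V} {N N' : ℕ → Submodule K V}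
    {z : (Fin 0 → ℤ) → Multiset Lt → V} (hκ : ∀ c, κ c = 0)
    (h : Rd κ 0 (m + 1) (r + 1) m0 o (M + 1) Y N z) (hM : o + M < m0)
    (hN : ∀ a, N a ≤ N' a) (hN' : Gr m0 Y N')
    (h1 : ∀ u : Multiset Lt, Multiset.card u = r → z Fin.elim0 ((true, 0) ::ₘ u) ∈ N' 0) :
    Zd (m + 3) r m0 o M Y N' (zTZ m z) := by
  have hT : ∀ u : Multiset Lt, Multiset.card u = r →
      Y (o + M) (z Fin.elim0 ((false, 0) ::ₘ u)) ∈ N' 1 := by
    intro u hu
    have h2 := h.r2 Fin.elim0 false M u (by omega)
    rw [show M + 1 - M = 1 by omega, Finset.sum_range_one] at h2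
    exact hN 1 (by simpa using h2)
  refine ⟨h.st.TZ hκ (hN 0) h1, ?_, ?_⟩
  · intro i u hu
    rcases Nat.lt_or_ge M i with hi | hi
    · rw [show M - i = 0 by omega, Finset.sum_range_zero]
      exact Submodule.zero_mem _
    · have h2 := h.r2 Fin.elim0 false i ((false, 0) ::ₘ u.map (thZ m)) (by
        rw [Multiset.card_cons, Multiset.card_map]
        omega)
      rw [show M + 1 - i = (M - i) + 1 by omega, Finset.sum_range_succ] at h2
      have h3 : Y (o + i + (M - i)) (z Fin.elim0 ((false, ((M - i : ℕ) : ℤ)) ::ₘ (false, 0) ::ₘ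
          u.map (thZ m))) ∈ N' 1 := by
        rw [Multiset.cons_swap, show o + i + (M - i) = o + M by omega]
        refine hT _ ?_
        rw [Multiset.card_cons, Multiset.card_map]
        omega
      have h4 := (N' 1).sub_mem (hN 1 h2) h3
      rw [add_sub_cancel_right] at h4
      convert h4 using 1
      refine Finset.sum_congr rfl (fun j _ => ?_)
      unfold zTZ
      rw [Multiset.map_cons, Multiset.cons_swap]
      simp [thZ]
  · intro u hu j hj hjo
    have hc : Multiset.card ((false, (0 : ℤ)) ::ₘ u.map (thZ m)) = r + 1 := by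
      rw [Multiset.card_cons, Multiset.card_map, hu]
    unfold zTZ
    by_cases hjM : j = o + M
    · rw [hjM]
      exact hT _ (by rw [Multiset.card_map, hu])
    · exact hN 1 (h.off _ _ hc j hj (by omega))

theorem spnZ_zTZ {m r : ℕ} (z : (Fin 0 → ℤ) → Multiset Lt → V) :
    spnZ K (zTZ m z) r =
      spn K (fun (ρ : Fin 0 → ℤ) (u : Multiset Lt) => z ρ ((false, 0) ::ₘ u)) r := by
  apply le_antisymm
  · refine Submodule.span_le.2 ?_
    rintro v ⟨u, hu, rfl⟩
    exact Submodule.subset_span ⟨Fin.elim0, u.map (thZ m), by rw [Multiset.card_map, hu], rfl⟩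
  · refine Submodule.span_le.2 ?_
    rintro v ⟨ρ, u, hu, rfl⟩
    refine Submodule.subset_span
      ⟨u.map (fun x => if x.1 = false then x else (x.1, x.2 - (m + 2))), ?_, ?_⟩
    · rw [Multiset.card_map, hu]
    · unfold zTZ
      rw [map_surj (thZ_inv m), elim0_eq ρ]

theorem Zs.T2 {c r : ℕ} {N0 : Submodule K V} {z : Multiset Lt → V} (h : Zs c (r + 1) N0 z) :
    Zs c r N0 (fun u => z ((false, 0) ::ₘ u)) := by
  intro u hu hx
  obtain ⟨x, hxu, hx⟩ := hx
  exact h _ (by rw [Multiset.card_cons, hu]) ⟨x, Multiset.mem_cons_of_mem hxu, hx⟩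

theorem Zd.T2 {c r m0 o M : ℕ} {Y : ℕ → V →ₗ[K] V} {N : ℕ → Submodule K V}
    {z : Multiset Lt → V} (hN : Gr m0 Y N) (hM : o + M < m0)
    (h : Zd c (r + 1) m0 o (M + 1) Y N z) :
    Zd c r m0 o M Y N (fun u => z ((false, 0) ::ₘ u)) := by
  have hT : ∀ u : Multiset Lt, Multiset.card u = r → Y (o + M) (z ((false, 0) ::ₘ u)) ∈ N 1 := by
    intro u hu
    have h2 := h.r2 M u (by omega)
    rw [show M + 1 - M = 1 by omega, Finset.sum_range_one] at h2
    simpa using h2
  refine ⟨h.st.T2, ?_, ?_⟩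
  · intro i u hu
    rcases Nat.lt_or_ge M i with hi | hi
    · rw [show M - i = 0 by omega, Finset.sum_range_zero]
      exact Submodule.zero_mem _
    · have h2 := h.r2 i ((false, 0) ::ₘ u) (by
        rw [Multiset.card_cons]
        omega)
      rw [show M + 1 - i = (M - i) + 1 by omega, Finset.sum_range_succ] at h2
      have h3 : Y (o + i + (M - i)) (z ((false, ((M - i : ℕ) : ℤ)) ::ₘ (false, 0) ::ₘ u)) ∈
          N 1 := by
        rw [Multiset.cons_swap, show o + i + (M - i) = o + M by omega]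
        refine hT _ ?_
        rw [Multiset.card_cons]
        omega
      have h4 := (N 1).sub_mem h2 h3
      rw [add_sub_cancel_right] at h4
      convert h4 using 1
      refine Finset.sum_congr rfl (fun j _ => ?_)
      rw [Multiset.cons_swap]
  · intro u hu j hj hjo
    have hc : Multiset.card ((false, (0 : ℤ)) ::ₘ u) = r + 1 := by
      rw [Multiset.card_cons, hu]
    by_cases hjM : j = o + M
    · rw [hjM]
      exact hT _ hu
    · exact h.off _ hc j hj (by omega)

theorem Zs.T1 {c r : ℕ} {N0 N0' : Submodule K V} {z : Multiset Lt → V}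
    (h : Zs (c + 1) r N0 z) (hN : N0 ≤ N0')
    (h2 : ∀ u : Multiset Lt, Multiset.card u + 1 = r → z ((false, 0) ::ₘ u) ∈ N0') :
    Zs c r N0' (fun u => z (u.map shZ)) := by
  intro u hu hx
  obtain ⟨x, hxu, hx⟩ := hx
  obtain ⟨u', rfl⟩ := Multiset.exists_cons_of_mem hxu
  rw [Multiset.card_cons] at hu
  have hcard : Multiset.card (shZ x ::ₘ u'.map shZ) = r := by
    rw [Multiset.card_cons, Multiset.card_map, hu]
  have hb : ((shZ x).2 < 0 ∨ ((shZ x).1 = false ∧ ((c + 1 : ℕ) : ℤ) ≤ (shZ x).2) ∨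
      ((shZ x).1 = true ∧ 0 < (shZ x).2)) → z ((x ::ₘ u').map shZ) ∈ N0' := by
    intro hbad
    rw [Multiset.map_cons]
    exact hN (h _ hcard ⟨shZ x, Multiset.mem_cons_self _ _, hbad⟩)
  obtain ⟨d, i⟩ := x
  cases d
  · simp only [Bool.false_eq_true, false_and, or_false, true_and] at hx
    have hs : shZ (false, i) = (false, i + 1) := by simp [shZ]
    rw [hs] at hb
    rcases hx with hx | hx
    · by_cases hi : i = -1
      · subst hi
        show z (((false, -1) ::ₘ u').map shZ) ∈ N0'
        rw [Multiset.map_cons, hs]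
        norm_num
        exact h2 _ (by rw [Multiset.card_map, hu])
      · exact hb (Or.inl (by show i + 1 < 0; omega))
    · refine hb (Or.inr (Or.inl ⟨rfl, ?_⟩))
      show ((c + 1 : ℕ) : ℤ) ≤ i + 1
      push_cast
      omega
  · simp only [Bool.true_eq_false, false_and, false_or, true_and] at hx
    have hs : shZ (true, i) = (true, i) := by simp [shZ]
    rw [hs] at hb
    rcases hx with hx | hx
    · exact hb (Or.inl hx)
    · exact hb (Or.inr (Or.inr ⟨rfl, hx⟩))

theorem Zd.T1 {c r m0 o M : ℕ} {Y : ℕ → V →ₗ[K] V} {N N' : ℕ → Submodule K V}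
    {z : Multiset Lt → V} (h : Zd (c + 1) r m0 o (M + 1) Y N z)
    (hM : o + M < m0) (hN : ∀ a, N a ≤ N' a) (hN' : Gr m0 Y N')
    (h2 : ∀ u : Multiset Lt, Multiset.card u + 1 = r → z ((false, 0) ::ₘ u) ∈ N' 0)
    (h3 : ∀ u : Multiset Lt, Multiset.card u = r → Y o (z u) ∈ N' 1) :
    Zd c r m0 (o + 1) M Y N' (fun u => z (u.map shZ)) := by
  refine ⟨h.st.T1 (hN 0) h2, ?_, ?_⟩
  · intro i u hu
    rcases Nat.lt_or_ge M i with hi | hi
    · rw [show M - i = 0 by omega, Finset.sum_range_zero]
      exact Submodule.zero_mem _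
    · have h4 := h.r2 i (u.map shZ) (by
        rw [Multiset.card_map]
        omega)
      rw [show M + 1 - i = (M - i) + 1 by omega, Finset.sum_range_succ'] at h4
      have h5 : Y (o + i + 0) (z ((false, ((0 : ℕ) : ℤ)) ::ₘ u.map shZ)) ∈ N' 1 := by
        refine hN' (o + i + 0) (by omega) 0 (Submodule.mem_map_of_mem ?_)
        exact h2 _ (by rw [Multiset.card_map]; omega)
      have h6 := (N' 1).sub_mem (hN 1 h4) h5
      rw [add_sub_cancel_right] at h6
      convert h6 using 1
      refine Finset.sum_congr rfl (fun j _ => ?_)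
      rw [Multiset.map_cons, show o + 1 + i + j = o + i + (j + 1) by omega]
      simp [shZ]
  · intro u hu j hj hjo
    have hc : Multiset.card (u.map shZ) = r := by rw [Multiset.card_map, hu]
    by_cases hjM : j = o
    · rw [hjM]
      exact h3 _ hc
    · exact hN 1 (h.off _ hc j hj (by omega))

theorem spnZ_T1 {r : ℕ} (z : Multiset Lt → V) :
    spnZ K (fun u : Multiset Lt => z (u.map shZ)) r = spnZ K z r := by
  apply le_antisymm
  · refine Submodule.span_le.2 ?_
    rintro v ⟨u, hu, rfl⟩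
    exact Submodule.subset_span ⟨u.map shZ, by rw [Multiset.card_map, hu], rfl⟩
  · refine Submodule.span_le.2 ?_
    rintro v ⟨u, hu, rfl⟩
    refine Submodule.subset_span
      ⟨u.map (fun x => if x.1 = false then (x.1, x.2 - 1) else x), ?_, ?_⟩
    · rw [Multiset.card_map, hu]
    · show z u = z ((u.map _).map shZ)
      rw [map_surj shZ_inv]

theorem spnZ_T2_le {r : ℕ} (z : Multiset Lt → V) :
    spnZ K (fun u : Multiset Lt => z ((false, 0) ::ₘ u)) r ≤ spnZ K z (r + 1) := by
  refine Submodule.span_le.2 ?_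
  rintro v ⟨u, hu, rfl⟩
  exact Submodule.subset_span ⟨(false, 0) ::ₘ u, by rw [Multiset.card_cons, hu], rfl⟩

end

end HK2
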