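import Pool.Agent.HK2.RelA
import Pool.Agent.HK2.TZ

/-! # Module MainA: static count, kind Z -/

namespace HK2

open Finset HK

section

variable {K : Type*} [Field K] {V : Type*} [AddCommGroup V] [Module K V]

theorem zStat (c : ℕ) : ∀ (r : ℕ) (N0 : Submodule K V) (z : Multiset Lt → V), Zs c r N0 z →
    RelLE (spnZ K z r) N0 (Nat.multichoose (c + 1) r) := by
  classical
  intro r N0 z h
  let φ : Fin (c + 1) → Lt := fun i => if (i : ℕ) = c then (true, 0) else (false, (i : ℕ))
  let ψ : Lt → Fin (c + 1) := fun x => if x.1 then Fin.last c else Fin.ofNat (c + 1) x.2.toNat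
  refine ⟨univ.image (fun s : Sym (Fin (c + 1)) r => z ((s : Multiset (Fin (c + 1))).map φ)),
    ?_, ?_⟩
  · refine Finset.card_image_le.trans ?_
    rw [Finset.card_univ, Sym.card_sym_eq_multichoose, Fintype.card_fin]
  · refine Submodule.span_le.2 ?_
    rintro _ ⟨u, hu, rfl⟩
    by_cases hb : ∃ x ∈ u, x.2 < 0 ∨ (x.1 = false ∧ (c : ℤ) ≤ x.2) ∨ (x.1 = true ∧ 0 < x.2)
    · exact Submodule.mem_sup_left (h u hu hb)
    · push Not at hb
      refine Submodule.mem_sup_right (Submodule.subset_span ?_)
      rw [Finset.mem_coe, Finset.mem_image]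
      refine ⟨⟨u.map ψ, by rw [Multiset.card_map, hu]⟩, Finset.mem_univ _, ?_⟩
      have h1 : (u.map ψ).map φ = u := by
        rw [Multiset.map_map]
        conv_rhs => rw [← Multiset.map_id u]
        refine Multiset.map_congr rfl fun x hx => ?_
        obtain ⟨h2, h3, h4⟩ := hb x hx
        obtain ⟨b, i⟩ := x
        cases b
        · have h5 : i < (c : ℤ) := by
            have := h3 rfl
            exact this
          have h6 : (0 : ℤ) ≤ i := h2
          have h7 : i.toNat < c + 1 := by omega
          have h8 : ((Fin.ofNat (c + 1) i.toNat : Fin (c + 1)) : ℕ) = i.toNat := by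
            rw [Fin.ofNat_eq_cast, Fin.val_natCast]
            exact Nat.mod_eq_of_lt h7
          simp only [Function.comp, φ, ψ, id, Bool.false_eq_true, if_false, h8]
          rw [if_neg (by omega)]
          congr 1
          omega
        · have h5 : i ≤ 0 := h4 rfl
          have h6 : (0 : ℤ) ≤ i := h2
          have h7 : i = 0 := le_antisymm h5 h6
          subst h7
          simp [φ, ψ]
      exact congrArg z h1

end

end HK2
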