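import Pool.Agent.HK2.T3A

/-! # Module T3B: static part -/

namespace HK2

open Finset HK

section

variable {K : Type*} [Field K] {V : Type*} [AddCommGroup V] [Module K V]

private theorem cons_swap {k : ℕ} (ρ : Fin k → ℤ) (a b : Fin k) :
    (Fin.cons 0 (fun c => (ρ ∘ Equiv.swap a b) c + 1) : Fin (k + 1) → ℤ) =
      (Fin.cons 0 (fun c => ρ c + 1) : Fin (k + 1) → ℤ) ∘ Equiv.swap a.succ b.succ := by
  funext x
  refine Fin.cases ?_ (fun y => ?_) x
  · rw [Function.comp_apply, Equiv.swap_apply_of_ne_of_ne (Fin.succ_ne_zero a).symm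
      (Fin.succ_ne_zero b).symm]
    rfl
  · rw [Fin.cons_succ, Function.comp_apply, Function.comp_apply, Equiv.swap_apply_def,
      Equiv.swap_apply_def]
    simp only [Fin.succ_inj]
    split_ifs
    · rw [Fin.cons_succ]
    · rw [Fin.cons_succ]
    · rw [Fin.cons_succ]

/-- the static relations, modulo the larger space -/
private theorem Rs.mono' {κ : Bool → ℕ} {k m r : ℕ} {N0 N0' : Submodule K V}
    {z : (Fin k → ℤ) → Multiset Lt → V} (h : Rs κ k m r N0 z) (hN : N0 ≤ N0') :
    Rs κ k m r N0' z where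
  alt ρ a b u hu hab := hN (h.alt ρ a b u hu hab)
  rep ρ a b u hu hab h' := hN (h.rep ρ a b u hu hab h')
  out ρ a u hu h' := hN (h.out ρ a u hu h')
  bad ρ u hu h' := hN (h.bad ρ u hu h')
  rel c t ht τ hτ u hu := hN (h.rel c t ht τ hτ u hu)
  lap σ hσ u hu := hN (h.lap σ hσ u hu)

private theorem upd_self (κ : Bool → ℕ) (e : Bool) (v : ℕ) :
    Function.update κ (!e) v (!e) = v := Function.update_self _ _ _

private theorem upd_ne (κ : Bool → ℕ) (e : Bool) (v : ℕ) :
    Function.update κ (!e) v e = κ e := Function.update_of_ne (by cases e <;> simp) _ _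

private theorem she_self (e : Bool) (x : ℤ) : she e (e, x) = (e, x + 1) := by
  unfold she; simp

private theorem she_ne (e : Bool) (x : ℤ) : she e (!e, x) = (!e, x) := by
  unfold she
  rw [if_neg]
  cases e <;> simp

/-- rows of a sum over `Fin (k+2)`: the term of row zero split off -/
private theorem succAbove_cons {k : ℕ} (τ : Fin (k + 1) → ℤ) (a : Fin (k + 1)) :
    (fun i : Fin (k + 1) => (Fin.cons 0 τ : Fin (k + 2) → ℤ) (a.succ.succAbove i)) =
      Fin.cons 0 (fun i => τ (a.succAbove i)) := by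
  funext i
  refine Fin.cases ?_ (fun j => ?_) i
  · rw [Fin.succ_succAbove_zero]; rfl
  · rw [Fin.succ_succAbove_succ]; rfl

/-- the relation with a repeated column, first term isolated -/
private theorem Rs.relc {κ : Bool → ℕ} {k m r : ℕ} {N0 : Submodule K V}
    {z : (Fin (k + 1) → ℤ) → Multiset Lt → V} (h : Rs κ (k + 1) (m + 1) r N0 z) (c : Bool) (t : ℕ)
    (ht : t < κ c) (τ : Fin (k + 1) → ℤ) (hτ : ∀ a, 0 ≤ τ a ∧ τ a ≤ (m : ℤ)) (u : Multiset Lt)
    (hu : Multiset.card u + 1 = r) :
    z τ ((c, -(t : ℤ)) ::ₘ u) - ∑ a : Fin (k + 1), (-1 : K) ^ (a : ℕ) •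
      z (Fin.cons 0 (fun i => τ (a.succAbove i))) ((c, τ a - t) ::ₘ u) ∈ N0 := by
  have h1 := h.rel c t ht (Fin.cons 0 τ) (by
    intro a
    refine Fin.cases ?_ (fun b => ?_) a
    · rw [Fin.cons_zero]
      exact ⟨le_refl _, by push_cast; positivity⟩
    · rw [Fin.cons_succ]
      have := hτ b
      push_cast
      constructor <;> linarith) u hu
  rw [Fin.sum_univ_succ] at h1
  have e1 : (fun i : Fin (k + 1) => (Fin.cons 0 τ : Fin (k + 2) → ℤ) ((0 : Fin (k + 2)).succAbove i))
      = τ := by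
    funext i
    rw [Fin.zero_succAbove, Fin.cons_succ]
  rw [e1, Fin.cons_zero, Fin.val_zero, pow_zero, one_smul, zero_sub] at h1
  have e2 : ∀ a : Fin (k + 1), (-1 : K) ^ ((a.succ : Fin (k + 2)) : ℕ) •
      z (fun i : Fin (k + 1) => (Fin.cons 0 τ : Fin (k + 2) → ℤ) (a.succ.succAbove i))
        ((c, (Fin.cons 0 τ : Fin (k + 2) → ℤ) a.succ - t) ::ₘ u) =
      - ((-1 : K) ^ (a : ℕ) • z (Fin.cons 0 (fun i => τ (a.succAbove i)))
        ((c, τ a - t) ::ₘ u)) := by
    intro a
    rw [succAbove_cons, Fin.cons_succ, Fin.val_succ, pow_succ, mul_neg_one, neg_smul]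
  rw [Finset.sum_congr rfl (fun a _ => e2 a), Finset.sum_neg_distrib, ← sub_eq_add_neg] at h1
  exact h1

/-- the Laplace relation for rows `(0, σ + 1)` -/
private theorem Rs.lap0 {κ : Bool → ℕ} {k m r : ℕ} {N0 : Submodule K V}
    {z : (Fin (k + 1) → ℤ) → Multiset Lt → V} (h : Rs κ (k + 1) (m + 1) r N0 z)
    (σ : Fin (k + 2) → ℤ) (hσ : ∀ a, 0 ≤ σ a ∧ σ a ≤ (m : ℤ)) (v : Multiset Lt)
    (hv : Multiset.card v + 2 = r) :
    ∑ a : Fin (k + 2), (-1 : K) ^ (a : ℕ) •
      z (fun i => σ (a.succAbove i)) ((false, 0) ::ₘ (true, σ a + 1) ::ₘ v) -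
    ∑ a : Fin (k + 2), (-1 : K) ^ (a : ℕ) •
      z (fun i => σ (a.succAbove i)) ((false, σ a + 1) ::ₘ (true, 0) ::ₘ v) ∈ N0 := by
  have hL := h.lap (Fin.cons 0 (fun a => σ a + 1)) (by
    intro a
    refine Fin.cases ?_ (fun b => ?_) a
    · rw [Fin.cons_zero]
      exact ⟨le_refl _, by push_cast; positivity⟩
    · rw [Fin.cons_succ]
      have := hσ b
      push_cast
      constructor <;> linarith) v hv
  rw [Fin.sum_univ_succ] at hL
  have eA : ∀ b : Fin (k + 2), (-1 : K) ^ (((0 : Fin (k + 3)) : ℕ) + (b : ℕ)) •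
      z (fun i => (Fin.cons 0 (fun a => σ a + 1) : Fin (k + 3) → ℤ)
          ((0 : Fin (k + 3)).succAbove (b.succAbove i)) - 1)
        ((false, (Fin.cons 0 (fun a => σ a + 1) : Fin (k + 3) → ℤ) 0) ::ₘ
          (true, (Fin.cons 0 (fun a => σ a + 1) : Fin (k + 3) → ℤ)
            ((0 : Fin (k + 3)).succAbove b)) ::ₘ v) =
      (-1 : K) ^ (b : ℕ) •
        z (fun i => σ (b.succAbove i)) ((false, 0) ::ₘ (true, σ b + 1) ::ₘ v) := by
    intro b
    have e1 : (fun i => (Fin.cons 0 (fun a => σ a + 1) : Fin (k + 3) → ℤ)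
          ((0 : Fin (k + 3)).succAbove (b.succAbove i)) - 1) = fun i => σ (b.succAbove i) := by
      funext i
      rw [Fin.zero_succAbove, Fin.cons_succ]
      ring
    rw [e1, Fin.cons_zero, Fin.zero_succAbove, Fin.cons_succ, Fin.val_zero, zero_add]
  rw [Finset.sum_congr rfl (fun b _ => eA b)] at hL
  have eB : ∀ a : Fin (k + 2), (∑ b : Fin (k + 2), (-1 : K) ^ ((a.succ : ℕ) + (b : ℕ)) •
      z (fun i => (Fin.cons 0 (fun a => σ a + 1) : Fin (k + 3) → ℤ)
          (a.succ.succAbove (b.succAbove i)) - 1)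
        ((false, (Fin.cons 0 (fun a => σ a + 1) : Fin (k + 3) → ℤ) a.succ) ::ₘ
          (true, (Fin.cons 0 (fun a => σ a + 1) : Fin (k + 3) → ℤ)
            (a.succ.succAbove b)) ::ₘ v)) +
      (-1 : K) ^ (a : ℕ) •
        z (fun i => σ (a.succAbove i)) ((false, σ a + 1) ::ₘ (true, 0) ::ₘ v) ∈ N0 := by
    intro a
    rw [Fin.sum_univ_succ]
    have e1 : (fun i => (Fin.cons 0 (fun a => σ a + 1) : Fin (k + 3) → ℤ)
          (a.succ.succAbove ((0 : Fin (k + 2)).succAbove i)) - 1) =
          fun i => σ (a.succAbove i) := by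
      funext i
      rw [Fin.zero_succAbove, Fin.succ_succAbove_succ, Fin.cons_succ]
      ring
    rw [e1, Fin.cons_succ, Fin.succ_succAbove_zero, Fin.cons_zero, Fin.val_zero, add_zero,
      Fin.val_succ, pow_succ, mul_neg_one, neg_smul]
    rw [add_assoc, add_comm, add_assoc]
    have e2 : ∀ x y : V, x + (y + -y) = x := by intro x y; abel
    rw [e2]
    refine N0.sum_mem (fun b _ => N0.smul_mem _ ?_)
    refine h.out _ 0 _ ?_ ?_
    · rw [Multiset.card_cons, Multiset.card_cons]; omega
    · left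
      rw [Fin.succ_succAbove_zero, Fin.succ_succAbove_zero, Fin.cons_zero]
      norm_num
  have hB := N0.sum_mem (fun a (_ : a ∈ (Finset.univ : Finset (Fin (k + 2)))) => eB a)
  rw [Finset.sum_add_distrib] at hB
  have hC := N0.sub_mem hL hB
  have e3 : ∀ x s y : V, x + s - (s + y) = x - y := by intro x s y; abel
  rw [e3] at hC
  exact hC

/-- the Laplace relation from the two rewritten halves, general form -/
private theorem lap_comb {k : ℕ} {N0 : Submodule K V} (Y : Fin (k + 2) → V)
    (G : Fin (k + 2) → Fin (k + 1) → V)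
    (hY : ∑ a : Fin (k + 2), (-1 : K) ^ (a : ℕ) • Y a ∈ N0)
    (hG : ∀ a, Y a - ∑ b : Fin (k + 1), (-1 : K) ^ (b : ℕ) • G a b ∈ N0) :
    ∑ a : Fin (k + 2), ∑ b : Fin (k + 1), (-1 : K) ^ ((a : ℕ) + (b : ℕ)) • G a b ∈ N0 := by
  have h1 := N0.sum_mem (fun a (_ : a ∈ (Finset.univ : Finset (Fin (k + 2)))) =>
    N0.smul_mem ((-1 : K) ^ (a : ℕ)) (hG a))
  have h2 := N0.sub_mem hY h1
  rw [← Finset.sum_sub_distrib] at h2
  have e1 : ∀ a : Fin (k + 2), (-1 : K) ^ (a : ℕ) • Y a - (-1 : K) ^ (a : ℕ) •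
      (Y a - ∑ b : Fin (k + 1), (-1 : K) ^ (b : ℕ) • G a b) =
      ∑ b : Fin (k + 1), (-1 : K) ^ ((a : ℕ) + (b : ℕ)) • G a b := by
    intro a
    rw [smul_sub, sub_sub_cancel, Finset.smul_sum]
    refine Finset.sum_congr rfl (fun b _ => ?_)
    rw [smul_smul, pow_add]
  rw [Finset.sum_congr rfl (fun a _ => e1 a)] at h2
  exact h2

theorem Rs.T3 {κ : Bool → ℕ} {k m r : ℕ} {N0 N0' : Submodule K V}
    {z : (Fin (k + 1) → ℤ) → Multiset Lt → V} (e : Bool) (hκ : 1 ≤ κ (!e))
    (h : Rs κ (k + 1) (m + 1) r N0 z) (hN : N0 ≤ N0')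
    (h1 : ∀ (ρ : Fin (k + 1) → ℤ) (u : Multiset Lt), Multiset.card u + 1 = r →
      z ρ ((e, 0) ::ₘ u) ∈ N0') :
    Rs (Function.update κ (!e) (κ (!e) - 1)) k m r N0' (zT3 e z) := by
  have h' := h.mono' hN
  have hcard : ∀ u : Multiset Lt, Multiset.card (u.map (she e)) = Multiset.card u :=
    fun u => Multiset.card_map _ _
  refine ⟨?_, ?_, ?_, ?_, ?_, ?_⟩
  · intro ρ a b u hu hab
    unfold zT3
    rw [cons_swap]
    exact h'.alt _ _ _ _ ((hcard u).trans hu) (fun h => hab (Fin.succ_injective _ h))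
  · intro ρ a b u hu hab hρ
    unfold zT3
    refine h'.rep _ a.succ b.succ _ ((hcard u).trans hu) (fun h => hab (Fin.succ_injective _ h)) ?_
    rw [Fin.cons_succ, Fin.cons_succ, hρ]
  · intro ρ a u hu hρ
    unfold zT3
    by_cases h0 : ρ a = -1
    · refine h'.rep _ 0 a.succ _ ((hcard u).trans hu) (Fin.succ_ne_zero a).symm ?_
      rw [Fin.cons_zero, Fin.cons_succ, h0]
      norm_num
    · refine h'.out _ a.succ _ ((hcard u).trans hu) ?_
      rw [Fin.cons_succ]
      rcases hρ with hρ | hρ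
      · left; omega
      · right; push_cast; omega
  · intro ρ u hu ⟨x, hx, hx'⟩
    unfold zT3
    obtain ⟨c, i⟩ := x
    have hmem : she e (c, i) ∈ u.map (she e) := Multiset.mem_map_of_mem _ hx
    by_cases hc : c = e
    · subst hc
      rw [she_self] at hmem
      rw [upd_ne] at hx'
      by_cases h0 : i = -1
      · rw [h0] at hmem
        obtain ⟨v, hv⟩ := Multiset.exists_cons_of_mem hmem
        have e0 : ((-1 : ℤ) + 1) = 0 := by norm_num
        rw [e0] at hv
        rw [hv]
        refine h1 _ _ ?_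
        have := hcard u
        rw [hv, Multiset.card_cons] at this
        omega
      · refine h'.bad _ _ ((hcard u).trans hu) ⟨_, hmem, ?_⟩
        rcases hx' with hx' | hx'
        · left; simp only at hx' ⊢; omega
        · right; simp only at hx' ⊢; push_cast; omega
    · have hc' : c = !e := by cases c <;> cases e <;> simp_all
      subst hc'
      rw [she_ne] at hmem
      rw [upd_self] at hx'
      refine h'.bad _ _ ((hcard u).trans hu) ⟨_, hmem, ?_⟩
      rcases hx' with hx' | hx'
      · left; exact hx'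
      · right; simp only at hx' ⊢; push_cast; omega
  · intro c t ht τ hτ u hu
    unfold zT3
    by_cases hc : c = e
    · subst hc
      rw [upd_ne] at ht
      have h2 := h'.relc c t ht (fun a => τ a + 1)
        (by intro a; have := hτ a; constructor <;> omega) (u.map (she c))
        (by rw [hcard]; exact hu)
      have h3 : z (fun a => τ a + 1) ((c, -(t : ℤ)) ::ₘ u.map (she c)) ∈ N0' := by
        by_cases h0 : t = 0
        · subst h0
          have e0 : -((0 : ℕ) : ℤ) = 0 := by norm_num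
          rw [e0]
          exact h1 _ _ (by rw [hcard]; exact hu)
        · refine h'.bad _ _ (by rw [Multiset.card_cons, hcard]; exact hu)
            ⟨_, Multiset.mem_cons_self _ _, ?_⟩
          left; simp only; omega
      have h4 := N0'.sub_mem h3 h2
      rw [sub_sub_cancel] at h4
      have e1 : ∀ a : Fin (k + 1), (-1 : K) ^ (a : ℕ) •
          z (Fin.cons 0 (fun i => τ (a.succAbove i) + 1))
            (((c, τ a - t) ::ₘ u).map (she c)) = (-1 : K) ^ (a : ℕ) •
          z (Fin.cons 0 (fun i => τ (a.succAbove i) + 1)) ((c, τ a + 1 - t) ::ₘ u.map (she c)) := by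
        intro a
        rw [Multiset.map_cons, she_self]
        have e0 : τ a - t + 1 = τ a + 1 - t := by ring
        rw [e0]
      rw [Finset.sum_congr rfl (fun a _ => e1 a)]
      exact h4
    · have hc' : c = !e := by cases c <;> cases e <;> simp_all
      subst hc'
      rw [upd_self] at ht
      have h2 := h'.relc (!e) (t + 1) (by omega) (fun a => τ a + 1)
        (by intro a; have := hτ a; constructor <;> omega) (u.map (she e))
        (by rw [hcard]; exact hu)
      have h3 : z (fun a => τ a + 1) ((!e, -((t + 1 : ℕ) : ℤ)) ::ₘ u.map (she e)) ∈ N0' := by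
        refine h'.bad _ _ (by rw [Multiset.card_cons, hcard]; exact hu)
            ⟨_, Multiset.mem_cons_self _ _, ?_⟩
        left; simp only; push_cast; omega
      have h4 := N0'.sub_mem h3 h2
      rw [sub_sub_cancel] at h4
      have e1 : ∀ a : Fin (k + 1), (-1 : K) ^ (a : ℕ) •
          z (Fin.cons 0 (fun i => τ (a.succAbove i) + 1))
            (((!e, τ a - t) ::ₘ u).map (she e)) = (-1 : K) ^ (a : ℕ) •
          z (Fin.cons 0 (fun i => τ (a.succAbove i) + 1))
            ((!e, τ a + 1 - ((t + 1 : ℕ) : ℤ)) ::ₘ u.map (she e)) := by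
        intro a
        rw [Multiset.map_cons, she_ne]
        have e0 : τ a - t = τ a + 1 - ((t + 1 : ℕ) : ℤ) := by push_cast; ring
        rw [e0]
      rw [Finset.sum_congr rfl (fun a _ => e1 a)]
      exact h4
  · intro σ hσ u hu
    have hu' : Multiset.card (u.map (she e)) + 2 = r := by rw [hcard]; exact hu
    have hl := h'.lap0 σ hσ (u.map (she e)) hu'
    have hτ : ∀ a : Fin (k + 2), ∀ b : Fin (k + 1), 0 ≤ σ (a.succAbove b) ∧
        σ (a.succAbove b) ≤ (m : ℤ) := fun a b => hσ _
    have ez : ∀ x : ℤ, x - ((0 : ℕ) : ℤ) = x := by intro x; push_cast; ring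
    have en : -((0 : ℕ) : ℤ) = 0 := by norm_num
    cases e with
    | false =>
      have hX : ∑ a : Fin (k + 2), (-1 : K) ^ (a : ℕ) •
          z (fun i => σ (a.succAbove i))
            ((false, 0) ::ₘ (true, σ a + 1) ::ₘ u.map (she false)) ∈ N0' :=
        N0'.sum_mem (fun a _ => N0'.smul_mem _ (h1 _ _ (by rw [Multiset.card_cons]; omega)))
      have hY := N0'.sub_mem hX hl
      rw [sub_sub_cancel] at hY
      have hG : ∀ a : Fin (k + 2), z (fun i => σ (a.succAbove i))
          ((false, σ a + 1) ::ₘ (true, 0) ::ₘ u.map (she false)) -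
          ∑ b : Fin (k + 1), (-1 : K) ^ (b : ℕ) •
            zT3 false z (fun i => σ (a.succAbove (b.succAbove i)) - 1)
              ((false, σ a) ::ₘ (true, σ (a.succAbove b)) ::ₘ u) ∈ N0' := by
        intro a
        have h2 := h'.relc true 0 hκ (fun i => σ (a.succAbove i)) (hτ a)
          ((false, σ a + 1) ::ₘ u.map (she false)) (by rw [Multiset.card_cons]; omega)
        rw [en, Multiset.cons_swap] at h2
        have e1 : ∀ b : Fin (k + 1), (-1 : K) ^ (b : ℕ) •
            zT3 false z (fun i => σ (a.succAbove (b.succAbove i)) - 1)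
              ((false, σ a) ::ₘ (true, σ (a.succAbove b)) ::ₘ u) = (-1 : K) ^ (b : ℕ) •
            z (Fin.cons 0 (fun i => σ (a.succAbove (b.succAbove i))))
              ((true, σ (a.succAbove b) - ((0 : ℕ) : ℤ)) ::ₘ (false, σ a + 1) ::ₘ
                u.map (she false)) := by
          intro b
          unfold zT3
          have e2 : she false (true, σ (a.succAbove b)) = (true, σ (a.succAbove b)) :=
            she_ne false _
          rw [Multiset.map_cons, Multiset.map_cons, she_self, e2, ez, Multiset.cons_swap]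
          simp only [sub_add_cancel]
        rw [Finset.sum_congr rfl (fun b _ => e1 b)]
        exact h2
      exact lap_comb _ _ hY hG
    | true =>
      have hX : ∑ a : Fin (k + 2), (-1 : K) ^ (a : ℕ) •
          z (fun i => σ (a.succAbove i))
            ((false, σ a + 1) ::ₘ (true, 0) ::ₘ u.map (she true)) ∈ N0' :=
        N0'.sum_mem (fun a _ => N0'.smul_mem _ (by
          rw [Multiset.cons_swap]
          exact h1 _ _ (by rw [Multiset.card_cons]; omega)))
      have hY := N0'.add_mem hX hl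
      rw [add_sub_cancel] at hY
      have hG : ∀ a : Fin (k + 2), z (fun i => σ (a.succAbove i))
          ((false, 0) ::ₘ (true, σ a + 1) ::ₘ u.map (she true)) -
          ∑ b : Fin (k + 1), (-1 : K) ^ (b : ℕ) •
            z (Fin.cons 0 (fun i => σ (a.succAbove (b.succAbove i))))
              ((false, σ (a.succAbove b)) ::ₘ (true, σ a + 1) ::ₘ u.map (she true)) ∈ N0' := by
        intro a
        have h2 := h'.relc false 0 hκ (fun i => σ (a.succAbove i)) (hτ a)
          ((true, σ a + 1) ::ₘ u.map (she true)) (by rw [Multiset.card_cons]; omega)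
        rw [en] at h2
        simp only [ez] at h2
        exact h2
      have h3 := lap_comb _ _ hY hG
      have h4 := dswap (K := K) (fun (x y : Fin (k + 2)) (g : Fin k → Fin (k + 2)) =>
        z (Fin.cons 0 (fun i => σ (g i)))
          ((false, σ x) ::ₘ (true, σ y + 1) ::ₘ u.map (she true)))
      have h5 : ∑ a : Fin (k + 2), ∑ b : Fin (k + 1), (-1 : K) ^ ((a : ℕ) + (b : ℕ)) •
          zT3 true z (fun i => σ (a.succAbove (b.succAbove i)) - 1)
            ((false, σ a) ::ₘ (true, σ (a.succAbove b)) ::ₘ u) =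
          ∑ a : Fin (k + 2), ∑ b : Fin (k + 1), (-1 : K) ^ ((a : ℕ) + (b : ℕ)) •
          z (Fin.cons 0 (fun i => σ (a.succAbove (b.succAbove i))))
            ((false, σ a) ::ₘ (true, σ (a.succAbove b) + 1) ::ₘ u.map (she true)) := by
        refine Finset.sum_congr rfl (fun a _ => Finset.sum_congr rfl (fun b _ => ?_))
        unfold zT3
        have e2 : she true (false, σ a) = (false, σ a) := she_ne true _
        rw [Multiset.map_cons, Multiset.map_cons, she_self, e2]
        simp only [sub_add_cancel]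
      rw [h5, h4]
      exact N0'.neg_mem h3

end

end HK2
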