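import Pool.Agent.HK2.T3B

/-! # Module T3C: dynamic part -/

namespace HK2

open Finset HK

section

variable {K : Type*} [Field K] {V : Type*} [AddCommGroup V] [Module K V]

private theorem t3c_tri (F : ℕ → ℕ → V) (M j : ℕ) :
    ∑ k ∈ range (M - j), F j k = ∑ k ∈ range (M + 1), if j + k < M then F j k else 0 := by
  rw [← Finset.sum_filter]
  apply Finset.sum_congr _ (fun _ _ => rfl)
  ext k
  simp only [mem_range, mem_filter]
  omega

private theorem t3c_anti (P : Submodule K V) (G : ℕ → ℕ → V) (h1 : ∀ j k, G j k + G k j ∈ P)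
    (h2 : ∀ j, G j j ∈ P) (n : ℕ) : ∑ j ∈ range n, ∑ k ∈ range n, G j k ∈ P := by
  induction n with
  | zero => simp
  | succ n ih =>
    have e : ∑ j ∈ range (n + 1), ∑ k ∈ range (n + 1), G j k
        = (∑ j ∈ range n, ∑ k ∈ range n, G j k) + (∑ j ∈ range n, (G j n + G n j)) + G n n := by
      rw [Finset.sum_range_succ]
      have : ∀ j ∈ range n, ∑ k ∈ range (n + 1), G j k = ∑ k ∈ range n, G j k + G j n :=
        fun j _ => Finset.sum_range_succ _ _
      rw [Finset.sum_congr rfl this, Finset.sum_add_distrib, Finset.sum_range_succ,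
        Finset.sum_add_distrib]
      abel
    rw [e]
    exact P.add_mem (P.add_mem ih (P.sum_mem (fun j _ => h1 j n))) (h2 n)

private theorem t3c_top {κ : Bool → ℕ} {k m r m0 o M : ℕ} {Y : ℕ → V →ₗ[K] V}
    {N : ℕ → Submodule K V} {z : (Fin (k + 1) → ℤ) → Multiset Lt → V}
    (h : Rd κ (k + 1) m r m0 o (M + 1) Y N z) (ρ : Fin (k + 1) → ℤ) (hρ : ρ 0 = 0)
    (u : Multiset Lt) (hu : Multiset.card u = r) : Y (o + M) (z ρ u) ∈ N 1 := by
  have h0 := h.r1 ρ 0 M u hu
  have e1 : M + 1 - M = 1 := by omega
  rw [e1, Finset.sum_range_one] at h0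
  have e2 : Function.update ρ 0 (((0 : ℕ) : ℤ)) = ρ := by
    have : (((0 : ℕ) : ℤ)) = ρ 0 := by rw [hρ]; rfl
    rw [this, Function.update_eq_self]
  rw [e2] at h0
  simpa using h0

private theorem t3c_cons {k : ℕ} (R : Fin k → ℤ) (a : Fin k) (j : ℤ) :
    (Fin.cons 0 (fun b => Function.update R a j b + 1) : Fin (k + 1) → ℤ)
      = Function.update (Fin.cons 0 (fun b => R b + 1) : Fin (k + 1) → ℤ) a.succ (j + 1) := by
  funext b
  refine Fin.cases ?_ (fun b => ?_) b
  · rw [Function.update_of_ne (Fin.succ_ne_zero a).symm]; rfl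
  · simp only [Fin.cons_succ]
    by_cases hb : b = a
    · subst hb; simp
    · rw [Function.update_of_ne hb, Function.update_of_ne (fun h => hb (Fin.succ_injective _ h))]
      rfl

private theorem t3c_swap {k : ℕ} (ρ : Fin (k + 1) → ℤ) (a : Fin (k + 1)) (ha : a ≠ 0) (x y : ℤ) :
    (Function.update (Function.update ρ 0 x) a y) ∘ Equiv.swap 0 a
      = Function.update (Function.update ρ 0 y) a x := by
  funext b
  simp only [Function.comp]
  by_cases h0 : b = 0
  · subst h0
    rw [Equiv.swap_apply_left, Function.update_self, Function.update_of_ne ha.symm,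
      Function.update_self]
  · by_cases h1 : b = a
    · subst h1
      rw [Equiv.swap_apply_right, Function.update_self, Function.update_of_ne ha.symm,
        Function.update_self]
    · rw [Equiv.swap_apply_of_ne_of_ne h0 h1, Function.update_of_ne h1, Function.update_of_ne h0,
        Function.update_of_ne h1, Function.update_of_ne h0]

theorem Rd.T3 {κ : Bool → ℕ} {k m r m0 o M : ℕ} {Y : ℕ → V →ₗ[K] V} {N N' : ℕ → Submodule K V}
    {z : (Fin (k + 1) → ℤ) → Multiset Lt → V} (e : Bool) (hκ : 1 ≤ κ (!e))
    (hN0 : Gr m0 Y N) (h : Rd κ (k + 1) (m + 1) r m0 o (M + 1) Y N z) (hM : o + M < m0)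
    (hN : ∀ a, N a ≤ N' a) (hN' : Gr m0 Y N')
    (h1 : ∀ (ρ : Fin (k + 1) → ℤ) (u : Multiset Lt), Multiset.card u + 1 = r →
      z ρ ((e, 0) ::ₘ u) ∈ N' 0) :
    Rd (Function.update κ (!e) (κ (!e) - 1)) k m r m0 o M Y N' (zT3 e z) := by
  have hY : ∀ j < m0, ∀ v ∈ N' 0, Y j v ∈ N' 1 := fun j hj v hv =>
    hN' j hj 0 (Submodule.mem_map_of_mem hv)
  have hT : ∀ (ρ : Fin (k + 1) → ℤ), ρ 0 = 0 → ∀ u : Multiset Lt, Multiset.card u = r →
      Y (o + M) (z ρ u) ∈ N' 1 := fun ρ hρ u hu => hN 1 (t3c_top h ρ hρ u hu)
  have hrep : ∀ (ρ : Fin (k + 1) → ℤ) (a b : Fin (k + 1)) (u : Multiset Lt),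
      Multiset.card u = r → a ≠ b → ρ a = ρ b → ∀ j < m0, Y j (z ρ u) ∈ N' 1 :=
    fun ρ a b u hu hab hρ j hj => hY j hj _ (hN 0 (h.st.rep ρ a b u hu hab hρ))
  refine ⟨Rs.T3 e hκ h.st (hN 0) h1, ?_, ?_, ?_⟩
  · -- r1
    intro R a i u hu
    by_cases hi : M ≤ i
    · have : M - i = 0 := by omega
      rw [this]; simp
    push Not at hi
    set U := u.map (she e) with hU
    have hUc : Multiset.card U = r := by rw [hU, Multiset.card_map, hu]
    set ρ : Fin (k + 1) → ℤ := Fin.cons 0 (fun b => R b + 1) with hρ
    have hρ0 : ρ 0 = 0 := rfl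
    have hne : a.succ ≠ 0 := Fin.succ_ne_zero a
    have hz : ∀ j : ℕ, zT3 e z (Function.update R a (j : ℤ)) u
        = z (Function.update ρ a.succ ((j : ℤ) + 1)) U := by
      intro j
      unfold zT3
      rw [t3c_cons]
    simp only [hz]
    -- enough: the sum with one more term
    suffices hs : ∑ j ∈ range (M - i + 1), Y (o + i + j)
        (z (Function.update ρ a.succ ((j : ℤ) + 1)) U) ∈ N' 1 by
      rw [Finset.sum_range_succ] at hs
      have hl : Y (o + i + (M - i)) (z (Function.update ρ a.succ (((M - i : ℕ) : ℤ) + 1)) U)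
          ∈ N' 1 := by
        have : o + i + (M - i) = o + M := by omega
        rw [this]
        exact hT _ (by rw [Function.update_of_ne hne.symm, hρ0]) _ hUc
      exact (Submodule.add_mem_iff_left _ hl).1 hs
    rcases Nat.eq_zero_or_pos i with h0 | hpos
    · subst h0
      -- the big sum
      have hbig : ∑ j ∈ range (M + 1), ∑ l ∈ range (M + 1 - j), Y (o + j + l)
          (z (Function.update (Function.update ρ 0 ((j : ℤ) + 1)) a.succ (l : ℤ)) U) ∈ N' 1 := by
        refine Submodule.sum_mem _ (fun j hj => hN 1 ?_)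
        exact h.r1 (Function.update ρ 0 ((j : ℤ) + 1)) a.succ j U hUc
      have hsplit : ∀ j ∈ range (M + 1), ∑ l ∈ range (M + 1 - j), Y (o + j + l)
          (z (Function.update (Function.update ρ 0 ((j : ℤ) + 1)) a.succ (l : ℤ)) U)
          = (∑ l ∈ range (M - j), Y (o + j + (l + 1)) (z (Function.update (Function.update ρ 0
              ((j : ℤ) + 1)) a.succ ((l : ℤ) + 1)) U))
            + Y (o + j) (z (Function.update (Function.update ρ 0 ((j : ℤ) + 1)) a.succ 0) U) := by
        intro j hj
        have : M + 1 - j = (M - j) + 1 := by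
          have := mem_range.1 hj; omega
        rw [this, Finset.sum_range_succ']
        simp
      rw [Finset.sum_congr rfl hsplit, Finset.sum_add_distrib] at hbig
      have hanti : ∑ j ∈ range (M + 1), ∑ l ∈ range (M - j), Y (o + j + (l + 1))
          (z (Function.update (Function.update ρ 0 ((j : ℤ) + 1)) a.succ ((l : ℤ) + 1)) U)
          ∈ N' 1 := by
        have e1 : ∀ j ∈ range (M + 1), ∑ l ∈ range (M - j), Y (o + j + (l + 1))
            (z (Function.update (Function.update ρ 0 ((j : ℤ) + 1)) a.succ ((l : ℤ) + 1)) U)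
            = ∑ l ∈ range (M + 1), if j + l < M then Y (o + j + (l + 1))
              (z (Function.update (Function.update ρ 0 ((j : ℤ) + 1)) a.succ ((l : ℤ) + 1)) U)
              else 0 := fun j _ => t3c_tri (fun j l => Y (o + j + (l + 1))
              (z (Function.update (Function.update ρ 0 ((j : ℤ) + 1)) a.succ ((l : ℤ) + 1)) U)) M j
        rw [Finset.sum_congr rfl e1]
        apply t3c_anti
        · intro j l
          by_cases hjl : j + l < M
          · rw [if_pos hjl, if_pos (by omega)]
            have e2 : o + l + (j + 1) = o + j + (l + 1) := by omega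
            rw [e2, ← map_add]
            apply hY _ (by omega)
            apply hN 0
            have := h.st.alt (Function.update (Function.update ρ 0 ((l : ℤ) + 1)) a.succ
              ((j : ℤ) + 1)) 0 a.succ U hUc hne.symm
            rwa [t3c_swap _ _ hne] at this
          · rw [if_neg hjl, if_neg (by omega)]; simp
        · intro j
          by_cases hjl : j + j < M
          · rw [if_pos hjl]
            apply hrep _ 0 a.succ U hUc hne.symm
            · rw [Function.update_self, Function.update_of_ne hne.symm, Function.update_self]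
            · omega
          · rw [if_neg hjl]; simp
      have h2 := (Submodule.add_mem_iff_right _ hanti).1 hbig
      have h3 : ∑ j ∈ range (M + 1), (Y (o + j)
          (z (Function.update (Function.update ρ 0 ((j : ℤ) + 1)) a.succ 0) U)
          + Y (o + j) (z (Function.update ρ a.succ ((j : ℤ) + 1)) U)) ∈ N' 1 := by
        refine Submodule.sum_mem _ (fun j hj => ?_)
        rw [← map_add]
        apply hY _ (by have := mem_range.1 hj; omega)
        apply hN 0
        have := h.st.alt (Function.update (Function.update ρ 0 0) a.succ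
              ((j : ℤ) + 1)) 0 a.succ U hUc hne.symm
        rw [t3c_swap _ _ hne] at this
        have e3 : Function.update ρ 0 0 = ρ := by
          have := Function.update_eq_self 0 ρ
          rwa [hρ0] at this
        rwa [e3] at this
      rw [Finset.sum_add_distrib] at h3
      have h4 := (Submodule.add_mem_iff_right _ h2).1 h3
      simpa using h4
    · obtain ⟨i', rfl⟩ : ∃ i', i = i' + 1 := ⟨i - 1, by omega⟩
      have h2 := hN 1 (h.r1 ρ a.succ i' U hUc)
      have e1 : M + 1 - i' = (M - (i' + 1) + 1) + 1 := by omega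
      rw [e1, Finset.sum_range_succ'] at h2
      have h3 : Y (o + i' + 0) (z (Function.update ρ a.succ ((0 : ℕ) : ℤ)) U) ∈ N' 1 := by
        apply hrep _ 0 a.succ U hUc hne.symm
        · rw [Function.update_self, Function.update_of_ne hne.symm, hρ0]; rfl
        · omega
      have h4 := (Submodule.add_mem_iff_left _ h3).1 h2
      convert h4 using 1
      refine Finset.sum_congr rfl (fun j _ => ?_)
      have e2 : o + (i' + 1) + j = o + i' + (j + 1) := by omega
      rw [e2]
      push_cast
      rfl
  · -- r2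
    intro R c i u hu
    by_cases hi : M ≤ i
    · have : M - i = 0 := by omega
      rw [this]; simp
    push Not at hi
    set U := u.map (she e) with hU
    have hUc : Multiset.card U + 1 = r := by rw [hU, Multiset.card_map, hu]
    set ρ : Fin (k + 1) → ℤ := Fin.cons 0 (fun b => R b + 1) with hρ
    have hρ0 : ρ 0 = 0 := rfl
    by_cases hc : c = e
    · subst hc
      have hz : ∀ j : ℕ, zT3 c z R ((c, (j : ℤ)) ::ₘ u) = z ρ ((c, (j : ℤ) + 1) ::ₘ U) := by
        intro j
        unfold zT3 she
        simp [hU, hρ, she]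
      simp only [hz]
      suffices hs : ∑ j ∈ range (M - i + 1), Y (o + i + j)
          (z ρ ((c, (j : ℤ) + 1) ::ₘ U)) ∈ N' 1 by
        rw [Finset.sum_range_succ] at hs
        have hl : Y (o + i + (M - i)) (z ρ ((c, ((M - i : ℕ) : ℤ) + 1) ::ₘ U)) ∈ N' 1 := by
          have : o + i + (M - i) = o + M := by omega
          rw [this]
          exact hT _ hρ0 _ (by rw [Multiset.card_cons, hUc])
        exact (Submodule.add_mem_iff_left _ hl).1 hs
      rcases Nat.eq_zero_or_pos i with h0 | hpos
      · subst h0
        have hA : ∑ j ∈ range (M + 1), ∑ l ∈ range (M + 1 - j), Y (o + j + l)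
            (z (Function.update ρ 0 (l : ℤ)) ((c, (j : ℤ) + 1) ::ₘ U)) ∈ N' 1 := by
          refine Submodule.sum_mem _ (fun j hj => hN 1 ?_)
          exact h.r1 ρ 0 j _ (by rw [Multiset.card_cons, hUc])
        have hB : ∑ l ∈ range (M + 1), ∑ j ∈ range (M + 1 - l), Y (o + l + j)
            (z (Function.update ρ 0 ((l : ℤ) + 1)) ((c, (j : ℤ)) ::ₘ U)) ∈ N' 1 := by
          refine Submodule.sum_mem _ (fun j hj => hN 1 ?_)
          exact h.r2 (Function.update ρ 0 ((j : ℤ) + 1)) c j U hUc
        have hsA : ∀ j ∈ range (M + 1), ∑ l ∈ range (M + 1 - j), Y (o + j + l)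
            (z (Function.update ρ 0 (l : ℤ)) ((c, (j : ℤ) + 1) ::ₘ U))
            = (∑ l ∈ range (M - j), Y (o + j + (l + 1)) (z (Function.update ρ 0 ((l : ℤ) + 1))
                ((c, (j : ℤ) + 1) ::ₘ U))) + Y (o + j) (z ρ ((c, (j : ℤ) + 1) ::ₘ U)) := by
          intro j hj
          have : M + 1 - j = (M - j) + 1 := by
            have := mem_range.1 hj; omega
          rw [this, Finset.sum_range_succ']
          have e3 : Function.update ρ 0 (((0 : ℕ) : ℤ)) = ρ := by
            have := Function.update_eq_self 0 ρ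
            rwa [hρ0] at this
          rw [e3]
          simp
        have hsB : ∀ l ∈ range (M + 1), ∑ j ∈ range (M + 1 - l), Y (o + l + j)
            (z (Function.update ρ 0 ((l : ℤ) + 1)) ((c, (j : ℤ)) ::ₘ U))
            = (∑ j ∈ range (M - l), Y (o + l + (j + 1)) (z (Function.update ρ 0 ((l : ℤ) + 1))
                ((c, (j : ℤ) + 1) ::ₘ U)))
              + Y (o + l) (z (Function.update ρ 0 ((l : ℤ) + 1)) ((c, 0) ::ₘ U)) := by
          intro l hl
          have : M + 1 - l = (M - l) + 1 := by
            have := mem_range.1 hl; omega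
          rw [this, Finset.sum_range_succ']
          simp
        rw [Finset.sum_congr rfl hsA, Finset.sum_add_distrib] at hA
        rw [Finset.sum_congr rfl hsB, Finset.sum_add_distrib] at hB
        have hC : ∑ l ∈ range (M + 1), Y (o + l) (z (Function.update ρ 0 ((l : ℤ) + 1))
            ((c, 0) ::ₘ U)) ∈ N' 1 := by
          refine Submodule.sum_mem _ (fun l hl => ?_)
          exact hY _ (by have := mem_range.1 hl; omega) _ (h1 _ _ hUc)
        have hB' := (Submodule.add_mem_iff_left _ hC).1 hB
        have hEq : ∑ j ∈ range (M + 1), ∑ l ∈ range (M - j), Y (o + j + (l + 1))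
              (z (Function.update ρ 0 ((l : ℤ) + 1)) ((c, (j : ℤ) + 1) ::ₘ U))
            = ∑ l ∈ range (M + 1), ∑ j ∈ range (M - l), Y (o + l + (j + 1))
              (z (Function.update ρ 0 ((l : ℤ) + 1)) ((c, (j : ℤ) + 1) ::ₘ U)) := by
          rw [Finset.sum_congr rfl (fun j _ => t3c_tri (fun j l => Y (o + j + (l + 1))
              (z (Function.update ρ 0 ((l : ℤ) + 1)) ((c, (j : ℤ) + 1) ::ₘ U))) M j),
            Finset.sum_congr rfl (fun l _ => t3c_tri (fun l j => Y (o + l + (j + 1))
              (z (Function.update ρ 0 ((l : ℤ) + 1)) ((c, (j : ℤ) + 1) ::ₘ U))) M l),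
            Finset.sum_comm]
          refine Finset.sum_congr rfl (fun l _ => Finset.sum_congr rfl (fun j _ => ?_))
          have e1 : o + j + (l + 1) = o + l + (j + 1) := by omega
          by_cases hjl : j + l < M
          · rw [if_pos hjl, if_pos (by omega), e1]
          · rw [if_neg hjl, if_neg (by omega)]
        rw [hEq] at hA
        have h4 := (Submodule.add_mem_iff_right _ hB').1 hA
        simpa using h4
      · obtain ⟨i', rfl⟩ : ∃ i', i = i' + 1 := ⟨i - 1, by omega⟩
        have h2 := hN 1 (h.r2 ρ c i' U hUc)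
        have e1 : M + 1 - i' = (M - (i' + 1) + 1) + 1 := by omega
        rw [e1, Finset.sum_range_succ'] at h2
        have h3 : Y (o + i' + 0) (z ρ ((c, ((0 : ℕ) : ℤ)) ::ₘ U)) ∈ N' 1 :=
          hY _ (by omega) _ (h1 _ _ hUc)
        have h4 := (Submodule.add_mem_iff_left _ h3).1 h2
        convert h4 using 1
        refine Finset.sum_congr rfl (fun j _ => ?_)
        have e2 : o + (i' + 1) + j = o + i' + (j + 1) := by omega
        rw [e2]
        push_cast
        rfl
    · have hz : ∀ j : ℕ, zT3 e z R ((c, (j : ℤ)) ::ₘ u) = z ρ ((c, (j : ℤ)) ::ₘ U) := by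
        intro j
        unfold zT3 she
        simp [hU, hρ, she, hc]
      simp only [hz]
      have h2 := hN 1 (h.r2 ρ c i U hUc)
      have e1 : M + 1 - i = (M - i) + 1 := by omega
      rw [e1, Finset.sum_range_succ] at h2
      have hl : Y (o + i + (M - i)) (z ρ ((c, ((M - i : ℕ) : ℤ)) ::ₘ U)) ∈ N' 1 := by
        have : o + i + (M - i) = o + M := by omega
        rw [this]
        exact hT _ hρ0 _ (by rw [Multiset.card_cons, hUc])
      exact (Submodule.add_mem_iff_left _ hl).1 h2
  · -- off
    intro R u hu j hj hjo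
    have hUc : Multiset.card (u.map (she e)) = r := by rw [Multiset.card_map, hu]
    unfold zT3
    by_cases hjM : j = o + M
    · subst hjM
      exact hT _ rfl _ hUc
    · exact hN 1 (h.off _ _ hUc j hj (by omega))

end

end HK2
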