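import Pool.Agent.HK2.T12
import Pool.Agent.HK2.T3
import Pool.Agent.HK2.MainA

/-! # Module MainC: static count -/

namespace HK2

open Finset HK

section

variable {K : Type*} [Field K] {V : Type*} [AddCommGroup V] [Module K V]

/-- the four letters that are allowed for no columns and no rows -/
private def l4 (p : Fin 2 × Fin 2) : Lt := (decide (p.1 = 1), if p.2 = 0 then 0 else 1)

private lemma exists_l4 (x : Lt) (h : x.2 = 0 ∨ x.2 = 1) : ∃ p, l4 p = x := by
  obtain ⟨c, i⟩ := x
  rcases h with h | h <;> cases c <;> simp only at h <;> subst h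
  · exact ⟨(0, 0), rfl⟩
  · exact ⟨(1, 0), rfl⟩
  · exact ⟨(0, 1), rfl⟩
  · exact ⟨(1, 1), rfl⟩

private lemma exists_map_l4 (u : Multiset Lt) (h : ∀ x ∈ u, x.2 = 0 ∨ x.2 = 1) :
    ∃ w : Multiset (Fin 2 × Fin 2), w.map l4 = u := by
  induction u using Multiset.induction_on with
  | empty => exact ⟨0, rfl⟩
  | cons x u ih =>
    obtain ⟨w, hw⟩ := ih (fun y hy => h y (Multiset.mem_cons_of_mem hy))
    obtain ⟨p, hp⟩ := exists_l4 x (h x (Multiset.mem_cons_self _ _))
    exact ⟨p ::ₘ w, by rw [Multiset.map_cons, hw, hp]⟩

private lemma stat00 {κ : Bool → ℕ} {r : ℕ} {N0 : Submodule K V}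
    {z : (Fin 0 → ℤ) → Multiset Lt → V} (hκ : ∀ c, κ c = 0) (h : Rs κ 0 0 r N0 z) :
    RelLE (spn K z r) N0 (Nat.multichoose 4 r) := by
  classical
  refine ⟨Finset.univ.image
    (fun w : Sym (Fin 2 × Fin 2) r => z Fin.elim0 ((w : Multiset (Fin 2 × Fin 2)).map l4)), ?_, ?_⟩
  · refine Finset.card_image_le.trans ?_
    rw [Finset.card_univ, Sym.card_sym_eq_multichoose]
    simp
  · refine Submodule.span_le.2 ?_
    rintro v ⟨ρ, u, hu, rfl⟩
    have hρ : ρ = Fin.elim0 := Subsingleton.elim _ _
    rw [hρ]
    by_cases hb : ∀ x ∈ u, x.2 = 0 ∨ x.2 = 1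
    · obtain ⟨w, hw⟩ := exists_map_l4 u hb
      refine Submodule.mem_sup_right (Submodule.subset_span ?_)
      rw [Finset.coe_image]
      refine ⟨⟨w, ?_⟩, Finset.mem_coe.2 (Finset.mem_univ _), ?_⟩
      · rw [← hu, ← hw, Multiset.card_map]
      · change z Fin.elim0 (w.map l4) = _
        rw [hw]
    · push Not at hb
      obtain ⟨x, hx, h0, h1⟩ := hb
      refine Submodule.mem_sup_left (h.bad _ u hu ⟨x, hx, ?_⟩)
      rw [hκ]
      push_cast
      omega

theorem mainStat (m : ℕ) : ∀ (κ : Bool → ℕ) (k r : ℕ) (N0 : Submodule K V)
    (z : (Fin k → ℤ) → Multiset Lt → V), κ false + κ true = k → Rs κ k m r N0 z →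
    RelLE (spn K z r) N0 (GG k m r) := by
  induction m with
  | zero =>
    intro κ k r N0 z hk h
    cases k with
    | zero =>
      have hκ : ∀ c, κ c = 0 := by
        intro c
        cases c <;> omega
      have := stat00 hκ h
      rw [GG]
      exact this
    | succ k =>
      refine ⟨∅, by simp, ?_⟩
      refine Submodule.span_le.2 ?_
      rintro v ⟨ρ, u, hu, rfl⟩
      refine Submodule.mem_sup_left (h.out ρ 0 u hu ?_)
      push_cast
      omega
  | succ m ihm =>
    intro κ k r
    induction r generalizing κ k with
    | zero =>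
      intro N0 z hk h
      cases k with
      | zero =>
        have h1 := h.T1 (N0' := N0) le_rfl (fun ρ a => a.elim0)
          (fun ρ c u hu => absurd hu (by omega))
        have h2 := ihm κ 0 0 N0 _ hk h1
        rw [spn_T1] at h2
        rw [GG]
        exact h2
      | succ k =>
        obtain ⟨e, he⟩ : ∃ e : Bool, 1 ≤ κ (!e) := by
          by_cases h0 : 1 ≤ κ true
          · exact ⟨false, h0⟩
          · refine ⟨true, ?_⟩
            change 1 ≤ κ false
            omega
        have h1 := h.T3 (N0' := N0) e he le_rfl (fun ρ u hu => absurd hu (by omega))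
        have hk' : Function.update κ (!e) (κ (!e) - 1) false +
            Function.update κ (!e) (κ (!e) - 1) true = k := by
          cases e
          · simp only [Bool.not_false] at he ⊢
            rw [Function.update_of_ne (by decide), Function.update_self]
            omega
          · simp only [Bool.not_true] at he ⊢
            rw [Function.update_self, Function.update_of_ne (by decide)]
            omega
        have h2 := ihm _ k 0 N0 _ hk' h1
        have h3 := h.T1 (N0' := N0 ⊔ spn K (zT3 e z) 0) le_sup_left
          (fun ρ a u hu ha => h.front ρ a ha u hu e) (fun ρ c u hu => absurd hu (by omega))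
        have h4 := ihm κ (k + 1) 0 _ _ hk h3
        rw [spn_T1] at h4
        rw [GG]
        exact (h2.trans_sup h4).mono le_sup_left le_rfl le_rfl
    | succ r ihr =>
      intro N0 z hk h
      cases k with
      | zero =>
        have hκ : ∀ c, κ c = 0 := by
          intro c
          cases c <;> omega
        have hQ := ihr κ 0 N0 _ hk (h.T2 true)
        have hTZ := h.TZ (N0' := N0 ⊔ spn K (fun (ρ : Fin 0 → ℤ) (u : Multiset Lt) =>
          z ρ ((true, 0) ::ₘ u)) r) hκ le_sup_left
          (fun u hu => Submodule.mem_sup_right (Submodule.subset_span ⟨Fin.elim0, u, hu, rfl⟩))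
        have hW := zStat (m + 3) r _ _ hTZ
        have hQW := hQ.trans_sup hW
        have h3 := h.T1 (N0' := N0 ⊔ (spnZ K (zTZ m z) r ⊔
          spn K (fun (ρ : Fin 0 → ℤ) (u : Multiset Lt) => z ρ ((true, 0) ::ₘ u)) r)) le_sup_left
          (fun ρ a => a.elim0) (by
            intro ρ c u hu
            have hu' : Multiset.card u = r := by omega
            cases c
            · refine Submodule.mem_sup_right (Submodule.mem_sup_left ?_)
              rw [spnZ_zTZ]
              exact Submodule.subset_span ⟨ρ, u, hu', rfl⟩
            · exact Submodule.mem_sup_right (Submodule.mem_sup_right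
                (Submodule.subset_span ⟨ρ, u, hu', rfl⟩)))
        have h4 := ihm κ 0 (r + 1) _ _ hk h3
        rw [spn_T1] at h4
        rw [GG]
        refine (hQW.trans_sup h4).mono le_sup_left le_rfl (le_of_eq ?_)
        ring
      | succ k =>
        obtain ⟨e, he⟩ : ∃ e : Bool, 1 ≤ κ (!e) := by
          by_cases h0 : 1 ≤ κ true
          · exact ⟨false, h0⟩
          · refine ⟨true, ?_⟩
            change 1 ≤ κ false
            omega
        have hQ := ihr κ (k + 1) N0 _ hk (h.T2 e)
        have h1 := h.T3 (N0' := N0 ⊔ spn K (fun (ρ : Fin (k + 1) → ℤ) (u : Multiset Lt) =>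
          z ρ ((e, 0) ::ₘ u)) r) e he le_sup_left
          (fun ρ u hu => Submodule.mem_sup_right (Submodule.subset_span ⟨ρ, u, by omega, rfl⟩))
        have hk' : Function.update κ (!e) (κ (!e) - 1) false +
            Function.update κ (!e) (κ (!e) - 1) true = k := by
          cases e
          · simp only [Bool.not_false] at he ⊢
            rw [Function.update_of_ne (by decide), Function.update_self]
            omega
          · simp only [Bool.not_true] at he ⊢
            rw [Function.update_self, Function.update_of_ne (by decide)]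
            omega
        have hW := ihm _ k (r + 1) _ _ hk' h1
        have hQW := hQ.trans_sup hW
        have h3 := h.T1 (N0' := N0 ⊔ (spn K (zT3 e z) (r + 1) ⊔
          spn K (fun (ρ : Fin (k + 1) → ℤ) (u : Multiset Lt) => z ρ ((e, 0) ::ₘ u)) r))
          le_sup_left
          (fun ρ a u hu ha => (sup_le_sup_left le_sup_left N0) (h.front ρ a ha u hu e)) (by
            intro ρ c u hu
            by_cases hc : c = e
            · subst hc
              exact Submodule.mem_sup_right (Submodule.mem_sup_right
                (Submodule.subset_span ⟨ρ, u, by omega, rfl⟩))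
            · have hc' : c = !e := by
                cases c <;> cases e <;> simp_all
              subst hc'
              exact (sup_le_sup_left le_sup_left N0) (h.front' e (by omega) he ρ u hu))
        have h4 := ihm κ (k + 1) (r + 1) _ _ hk h3
        rw [spn_T1] at h4
        rw [GG]
        refine (hQW.trans_sup h4).mono le_sup_left le_rfl (le_of_eq ?_)
        ring

end

end HK2
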