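import Pool.Agent.HK2.MainB
import Pool.Agent.HK2.MainC

/-! # Module Main: the recursion -/

namespace HK2

open Finset HK

section

variable {K : Type*} [Field K] {V : Type*} [AddCommGroup V] [Module K V]

/-- window of length zero -/
theorem main_zero (m0 : ℕ) (Y : ℕ → V →ₗ[K] V)
    (κ : Bool → ℕ) (k m r o : ℕ) (N : ℕ → Submodule K V)
    (z : (Fin k → ℤ) → Multiset Lt → V) (hk : κ false + κ true = k) (hN : Gr m0 Y N)
    (h : Rd κ k m r m0 o 0 Y N z) :
    (∀ a, RelLE (US m0 Y (spn K z r) a) (N a) (uBn 0 a (fun j => GG k (m - j) r))) ∧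
    ((∀ a, RelGE (US m0 Y (spn K z r) a) (N a) (uBn 0 a (fun j => GG k (m - j) r))) →
      KEx m0 Y (US m0 Y (spn K z r)) N) := by
  have h2 : ∀ a, US m0 Y (spn K z r) (a + 1) ≤ N (a + 1) := by
    intro a
    induction a with
    | zero =>
      refine iSup_le fun j => ?_
      rw [Submodule.map_le_iff_le_comap]
      refine Submodule.span_le.2 ?_
      rintro v ⟨ρ, u, hu, rfl⟩
      exact h.off ρ u hu j j.2 (by omega)
    | succ a ih =>
      refine iSup_le fun j => ?_
      exact (Submodule.map_mono ih).trans (hN j j.2 (a + 1))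
  refine ⟨fun a => ?_, fun _ => KEx.base h2⟩
  cases a with
  | zero =>
    have h3 := mainStat m κ k r (N 0) z hk h.st
    simpa [uBn, US] using h3
  | succ a => exact ⟨∅, by simp, by simpa using h2 a⟩

/-- the step, once `Q` and `W` are treated -/
theorem main_core (m0 : ℕ) (Y : ℕ → V →ₗ[K] V) (hY : ∀ i j, Commute (Y i) (Y j)) (M : ℕ)
    (ih : ∀ (κ : Bool → ℕ) (k m r o : ℕ) (N : ℕ → Submodule K V)
    (z : (Fin k → ℤ) → Multiset Lt → V), κ false + κ true = k → Gr m0 Y N → M ≤ m →
    o + M ≤ m0 → Rd κ k m r m0 o M Y N z →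
    (∀ a, RelLE (US m0 Y (spn K z r) a) (N a) (uBn M a (fun j => GG k (m - j) r))) ∧
    ((∀ a, RelGE (US m0 Y (spn K z r) a) (N a) (uBn M a (fun j => GG k (m - j) r))) →
      KEx m0 Y (US m0 Y (spn K z r)) N))
    (κ : Bool → ℕ) (k m r o : ℕ) (N : ℕ → Submodule K V)
    (z : (Fin k → ℤ) → Multiset Lt → V) (hk : κ false + κ true = k) (hN : Gr m0 Y N)
    (hM : M ≤ m) (ho : o + (M + 1) ≤ m0) (h : Rd κ k (m + 1) r m0 o (M + 1) Y N z)
    (Q0 W0 : Submodule K V) (hQ : Q0 ≤ spn K z r) (hW : W0 ≤ spn K z r) (fq fw : ℕ → ℕ)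
    (hf : ∀ j ≤ M, GG k (m + 1 - j) r = GG k (m - j) r + fw j + fq j)
    (q1 : ∀ a, RelLE (US m0 Y Q0 a) (N a) (uBn M a fq))
    (q2 : (∀ a, RelGE (US m0 Y Q0 a) (N a) (uBn M a fq)) → KEx m0 Y (US m0 Y Q0) N)
    (w1 : ∀ a, RelLE (US m0 Y W0 a) (N a ⊔ US m0 Y Q0 a) (uBn M a fw))
    (w2 : (∀ a, RelGE (US m0 Y W0 a) (N a ⊔ US m0 Y Q0 a) (uBn M a fw)) →
      KEx m0 Y (US m0 Y W0) (fun a => N a ⊔ US m0 Y Q0 a))
    (h1 : ∀ (ρ : Fin k → ℤ) (a : Fin k) (u : Multiset Lt), Multiset.card u = r → ρ a = 0 →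
      z ρ u ∈ N 0 ⊔ Q0 ⊔ W0)
    (h2 : ∀ (ρ : Fin k → ℤ) (c : Bool) (u : Multiset Lt), Multiset.card u + 1 = r →
      z ρ ((c, 0) ::ₘ u) ∈ N 0 ⊔ Q0 ⊔ W0) :
    (∀ a, RelLE (US m0 Y (spn K z r) a) (N a)
      (uBn (M + 1) a (fun j => GG k (m + 1 - j) r))) ∧
    ((∀ a, RelGE (US m0 Y (spn K z r) a) (N a)
      (uBn (M + 1) a (fun j => GG k (m + 1 - j) r))) →
      KEx m0 Y (US m0 Y (spn K z r)) N) := by
  have hoM : o + M < m0 := by omega
  have hNN : Gr m0 Y (fun a => N a ⊔ US m0 Y Q0 a ⊔ US m0 Y W0 a ⊔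
      shf (Y o) (US m0 Y (spn K z r)) a) :=
    Gr.sup (Gr.sup (Gr.sup hN (Gr.US Y Q0)) (Gr.US Y W0)) (Gr.shf hY (Gr.US Y _))
  have hT := Rd.T1 (N' := fun a => N a ⊔ US m0 Y Q0 a ⊔ US m0 Y W0 a ⊔
      shf (Y o) (US m0 Y (spn K z r)) a) h hoM
    (fun a => (le_sup_left.trans le_sup_left).trans le_sup_left) hNN
    (fun ρ a u hu ha => Submodule.mem_sup_left (h1 ρ a u hu ha))
    (fun ρ c u hu => Submodule.mem_sup_left (h2 ρ c u hu))
    (fun ρ u hu => Submodule.mem_sup_right
      (Submodule.mem_map_of_mem (Submodule.subset_span ⟨ρ, u, hu, rfl⟩)))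
  have hS := ih κ k m r (o + 1) _ _ hk hNN hM (by omega) hT
  rw [spn_T1] at hS
  have hst := step m0 o (by omega) Y hY N hN (spn K z r) Q0 W0 hQ hW
    (fun a => uBn M a fq) (fun a => uBn M a fw) (fun a => uBn M a (fun j => GG k (m - j) r))
    q1 q2 w1 w2 hS.1 hS.2
  have hnum : ∀ a, uBn (M + 1) a (fun j => GG k (m + 1 - j) r) =
      (∑ e ∈ range (a + 1), uBn M (a - e) (fun j => GG k (m - j) r)) +
        uBn M a fw + uBn M a fq := by
    intro a
    have := uBn_split M a (fun j => GG k (m + 1 - j) r) fw fq (by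
      intro j hj
      have e1 : m + 1 - (j + 1) = m - j := by omega
      simp only [e1]
      exact hf j hj)
    rw [this]
    simp only [Nat.add_sub_add_right]
  simp only [hnum]
  exact hst

theorem mainThm (m0 : ℕ) (Y : ℕ → V →ₗ[K] V) (hY : ∀ i j, Commute (Y i) (Y j)) (M : ℕ) :
    ∀ (κ : Bool → ℕ) (k m r o : ℕ) (N : ℕ → Submodule K V)
    (z : (Fin k → ℤ) → Multiset Lt → V), κ false + κ true = k → Gr m0 Y N → M ≤ m →
    o + M ≤ m0 → Rd κ k m r m0 o M Y N z →
    (∀ a, RelLE (US m0 Y (spn K z r) a) (N a) (uBn M a (fun j => GG k (m - j) r))) ∧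
    ((∀ a, RelGE (US m0 Y (spn K z r) a) (N a) (uBn M a (fun j => GG k (m - j) r))) →
      KEx m0 Y (US m0 Y (spn K z r)) N) := by
  induction M with
  | zero =>
    intro κ k m r o N z hk hN _ _ h
    exact main_zero m0 Y κ k m r o N z hk hN h
  | succ M ih =>
    intro κ k m r o N z hk hN hM ho h
    obtain ⟨m, rfl⟩ : ∃ m', m = m' + 1 := ⟨m - 1, by omega⟩
    have hM' : M ≤ m := by omega
    have hoM : o + M < m0 := by omega
    -- the empty part
    have zz1 : ∀ (N' : ℕ → Submodule K V) (a : ℕ),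
        RelLE (US m0 Y (⊥ : Submodule K V) a) (N' a) (uBn M a (fun _ => 0)) := by
      intro N' a
      have h0 : US m0 Y (⊥ : Submodule K V) a = ⊥ := by
        induction a with
        | zero => rfl
        | succ a iha => simp [US, iha]
      rw [h0]
      exact (RelLE.zero (N' a)).mono le_rfl le_rfl (Nat.zero_le _)
    have zz2 : ∀ (N' : ℕ → Submodule K V), KEx m0 Y (US m0 Y (⊥ : Submodule K V)) N' := by
      intro N'
      refine KEx.zero fun a => ?_
      have h0 : US m0 Y (⊥ : Submodule K V) a = ⊥ := by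
        induction a with
        | zero => rfl
        | succ a iha => simp [US, iha]
      rw [h0]
      exact bot_le
    have hNQ : ∀ Q0 : Submodule K V, Gr m0 Y (fun a => N a ⊔ US m0 Y Q0 a) :=
      fun Q0 => Gr.sup hN (Gr.US Y Q0)
    rcases k with _ | k
    · -- no columns
      have hκ : ∀ c, κ c = 0 := by
        intro c
        cases c <;> omega
      rcases r with _ | r
      · refine main_core m0 Y hY M ih κ 0 m 0 o N z hk hN hM' ho h ⊥ ⊥ bot_le bot_le
          (fun _ => 0) (fun _ => 0) ?_ (zz1 N) (fun _ => zz2 N)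
          (zz1 (fun a => N a ⊔ US m0 Y ⊥ a)) (fun _ => zz2 _) ?_ ?_
        · intro j hj
          have e1 : m + 1 - j = (m - j) + 1 := by omega
          rw [e1]
          simp [GG]
        · intro ρ a
          exact a.elim0
        · intro ρ c u hu
          omega
      · have hQr := Rd.T2 true hN hoM h
        have hq := ih κ 0 (m + 1) r o N _ hk hN (by omega) (by omega) hQr
        have hZr := Rd.TZ (N' := fun a => N a ⊔ US m0 Y (spn K
            (fun (ρ : Fin 0 → ℤ) (u : Multiset Lt) => z ρ ((true, 0) ::ₘ u)) r) a)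
          hκ h hoM (fun a => le_sup_left) (hNQ _)
          (fun u hu => Submodule.mem_sup_right (Submodule.subset_span ⟨Fin.elim0, u, hu, rfl⟩))
        have hw := zMain m0 Y hY M (m + 3) r o _ _ (hNQ _) (by omega) (by omega) hZr
        refine main_core m0 Y hY M ih κ 0 m (r + 1) o N z hk hN hM' ho h
          (spn K (fun (ρ : Fin 0 → ℤ) (u : Multiset Lt) => z ρ ((true, 0) ::ₘ u)) r)
          (spnZ K (zTZ m z) r) (spn_T2_le z true) ?_
          (fun j => GG 0 (m + 1 - j) r) (fun j => Nat.multichoose (m + 3 + 1 - j) r)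
          ?_ hq.1 hq.2 hw.1 hw.2 ?_ ?_
        · rw [spnZ_zTZ]
          exact spn_T2_le z false
        · intro j hj
          have e1 : m + 1 - j = (m - j) + 1 := by omega
          have e2 : m + 3 + 1 - j = (m - j) + 4 := by omega
          rw [e1, e2]
          simp only [GG]
          omega
        · intro ρ a
          exact a.elim0
        · intro ρ c u hu
          have hu' : Multiset.card u = r := by omega
          cases c
          · refine Submodule.mem_sup_right ?_
            rw [spnZ_zTZ]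
            exact Submodule.subset_span ⟨ρ, u, hu', rfl⟩
          · exact Submodule.mem_sup_left (Submodule.mem_sup_right
              (Submodule.subset_span ⟨ρ, u, hu', rfl⟩))
    · -- at least one column
      obtain ⟨e, he⟩ : ∃ e : Bool, 1 ≤ κ (!e) := by
        by_cases h0 : 1 ≤ κ false
        · exact ⟨true, h0⟩
        · exact ⟨false, by simp only [Bool.not_false]; omega⟩
      have hκ' : (Function.update κ (!e) (κ (!e) - 1)) false +
          (Function.update κ (!e) (κ (!e) - 1)) true = k := by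
        cases e <;> simp [Function.update] at he ⊢ <;> omega
      rcases r with _ | r
      · have hWr := Rd.T3 (N' := fun a => N a ⊔ US m0 Y ⊥ a) e he hN h hoM
          (fun a => le_sup_left) (hNQ _) (fun ρ u hu => by omega)
        have hw := ih _ k m 0 o _ _ hκ' (hNQ ⊥) hM' (by omega) hWr
        refine main_core m0 Y hY M ih κ (k + 1) m 0 o N z hk hN hM' ho h ⊥
          (spn K (zT3 e z) 0) bot_le (spn_zT3_le e z)
          (fun _ => 0) (fun j => GG k (m - j) 0) ?_ (zz1 N) (fun _ => zz2 N) hw.1 hw.2 ?_ ?_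
        · intro j hj
          have e1 : m + 1 - j = (m - j) + 1 := by omega
          rw [e1]
          simp [GG]
        · intro ρ a u hu ha
          refine (sup_le_sup_right le_sup_left _ : N 0 ⊔ _ ≤ _) (h.st.front ρ a ha u hu e)
        · intro ρ c u hu
          omega
      · have hQr := Rd.T2 e hN hoM h
        have hq := ih κ (k + 1) (m + 1) r o N _ hk hN (by omega) (by omega) hQr
        have hWr := Rd.T3 (N' := fun a => N a ⊔ US m0 Y (spn K
            (fun (ρ : Fin (k + 1) → ℤ) (u : Multiset Lt) => z ρ ((e, 0) ::ₘ u)) r) a)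
          e he hN h hoM (fun a => le_sup_left) (hNQ _)
          (fun ρ u hu => Submodule.mem_sup_right
            (Submodule.subset_span ⟨ρ, u, by omega, rfl⟩))
        have hw := ih _ k m (r + 1) o _ _ hκ' (hNQ _) hM' (by omega) hWr
        refine main_core m0 Y hY M ih κ (k + 1) m (r + 1) o N z hk hN hM' ho h
          (spn K (fun (ρ : Fin (k + 1) → ℤ) (u : Multiset Lt) => z ρ ((e, 0) ::ₘ u)) r)
          (spn K (zT3 e z) (r + 1)) (spn_T2_le z e) (spn_zT3_le e z)
          (fun j => GG (k + 1) (m + 1 - j) r) (fun j => GG k (m - j) (r + 1))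
          ?_ hq.1 hq.2 hw.1 hw.2 ?_ ?_
        · intro j hj
          have e1 : m + 1 - j = (m - j) + 1 := by omega
          rw [e1]
          simp only [GG]
          omega
        · intro ρ a u hu ha
          refine (sup_le_sup_right le_sup_left _ : N 0 ⊔ _ ≤ _) (h.st.front ρ a ha u hu e)
        · intro ρ c u hu
          have hu' : Multiset.card u = r := by omega
          by_cases hc : c = e
          · subst hc
            exact Submodule.mem_sup_left (Submodule.mem_sup_right
              (Submodule.subset_span ⟨ρ, u, hu', rfl⟩))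
          · have hc' : c = !e := by
              cases c <;> cases e <;> simp_all
            subst hc'
            exact (sup_le_sup_right le_sup_left _ : N 0 ⊔ _ ≤ _)
              (h.st.front' e (by omega) he ρ u hu)

end

end HK2
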