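import Pool.Agent.HK2.Defs

/-! # Module NumA: the numbers `uBn` -/

namespace HK2

open Finset HK

theorem uBn_add (M : ℕ) : ∀ (a : ℕ) (v w : ℕ → ℕ),
    uBn M a (fun k => v k + w k) = uBn M a v + uBn M a w := by
  induction M with
  | zero =>
    intro a v w
    simp only [uBn]
    split_ifs <;> rfl
  | succ M ih =>
    intro a v w
    have h2 : ∀ b, uBn M b (fun k => v (k + 1) + w (k + 1)) =
        uBn M b (fun k => v (k + 1)) + uBn M b (fun k => w (k + 1)) := fun b =>
      ih b (fun k => v (k + 1)) (fun k => w (k + 1))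
    simp only [uBn]
    rw [ih a v w, Finset.sum_congr rfl (fun e _ => h2 (a - 1 - e)), Finset.sum_add_distrib]
    omega

theorem uBn_congr (M : ℕ) : ∀ (a : ℕ) (v w : ℕ → ℕ), (∀ k ≤ M, v k = w k) →
    uBn M a v = uBn M a w := by
  induction M with
  | zero =>
    intro a v w h
    simp only [uBn]
    rw [h 0 le_rfl]
  | succ M ih =>
    intro a v w h
    simp only [uBn]
    rw [ih a v w (fun k hk => h k (by omega)),
      Finset.sum_congr rfl (fun e _ => ih (a - 1 - e) (fun k => v (k + 1)) (fun k => w (k + 1))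
        (fun k hk => h (k + 1) (by omega)))]

theorem uBn_zero (M a : ℕ) : uBn M a (fun _ => 0) = 0 := by
  induction M generalizing a with
  | zero => simp [uBn]
  | succ M ih =>
    simp only [uBn]
    rw [ih a, Finset.sum_congr rfl (fun e _ => ih (a - 1 - e))]
    simp

theorem uBn_split (M a : ℕ) (v fw fq : ℕ → ℕ) (h : ∀ j ≤ M, v j = v (j + 1) + fw j + fq j) :
    uBn (M + 1) a v = (∑ e ∈ range (a + 1), uBn M (a - e) (fun j => v (j + 1))) +
      uBn M a fw + uBn M a fq := by
  have h1 : uBn M a v = uBn M a (fun j => v (j + 1)) + uBn M a fw + uBn M a fq := by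
    rw [uBn_congr M a v (fun j => (v (j + 1) + fw j) + fq j) h, uBn_add M a _ fq,
      uBn_add M a (fun j => v (j + 1)) fw]
  have h2 : ∑ e ∈ range (a + 1), uBn M (a - e) (fun j => v (j + 1)) =
      (∑ e ∈ range a, uBn M (a - 1 - e) (fun j => v (j + 1))) + uBn M a (fun j => v (j + 1)) := by
    rw [Finset.sum_range_succ']
    have h3 : ∀ e ∈ range a, uBn M (a - (e + 1)) (fun j => v (j + 1)) =
        uBn M (a - 1 - e) (fun j => v (j + 1)) := by
      intro e _
      congr 1
      omega
    rw [Finset.sum_congr rfl h3, Nat.sub_zero]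
  rw [h2]
  show uBn M a v + ∑ e ∈ range a, uBn M (a - 1 - e) (fun k => v (k + 1)) = _
  rw [h1]
  omega

end HK2
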