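import Pool.Agent.HK2.Step
import Pool.Agent.HK2.NumA
import Pool.Agent.HK2.MainA

/-! # Module MainB: recursion, kind Z -/

namespace HK2

open Finset HK

section

variable {K : Type*} [Field K] {V : Type*} [AddCommGroup V] [Module K V]

lemma mainB_US_bot (m0 : ℕ) (Y : ℕ → V →ₗ[K] V) (a : ℕ) :
    US m0 Y (⊥ : Submodule K V) a = ⊥ := by
  induction a with
  | zero => rfl
  | succ a ih =>
    rw [US]
    refine le_antisymm (iSup_le fun j => ?_) bot_le
    rw [ih, Submodule.map_bot]

lemma mainB_relLE_of_le {S N : Submodule K V} (h : S ≤ N) (B : ℕ) : RelLE S N B :=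
  ⟨∅, by simp, by simpa using h⟩

theorem zMain (m0 : ℕ) (Y : ℕ → V →ₗ[K] V) (hY : ∀ i j, Commute (Y i) (Y j)) (M : ℕ) :
    ∀ (c r o : ℕ) (N : ℕ → Submodule K V) (z : Multiset Lt → V), Gr m0 Y N → M ≤ c →
    o + M ≤ m0 → Zd c r m0 o M Y N z →
    (∀ a, RelLE (US m0 Y (spnZ K z r) a) (N a)
      (uBn M a (fun j => Nat.multichoose (c + 1 - j) r))) ∧
    ((∀ a, RelGE (US m0 Y (spnZ K z r) a) (N a)
      (uBn M a (fun j => Nat.multichoose (c + 1 - j) r))) →
      KEx m0 Y (US m0 Y (spnZ K z r)) N) := by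
  induction M with
  | zero =>
    intro c r o N z hN _ _ hz
    have h0 : ∀ a, US m0 Y (spnZ K z r) (a + 1) ≤ N (a + 1) := by
      intro a
      induction a with
      | zero =>
        refine iSup_le fun j => ?_
        change (spnZ K z r).map (Y j) ≤ N 1
        rw [Submodule.map_le_iff_le_comap, spnZ, Submodule.span_le]
        rintro v ⟨u, hu, rfl⟩
        exact hz.off u hu j j.2 (by omega)
      | succ a ih =>
        refine iSup_le fun j => ?_
        exact (Submodule.map_mono ih).trans (hN j j.2 (a + 1))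
    refine ⟨fun a => ?_, fun _ => KEx.base h0⟩
    rcases a with _ | a
    · have h1 := zStat c r (N 0) z hz.st
      have h2 : uBn 0 0 (fun j => Nat.multichoose (c + 1 - j) r) = Nat.multichoose (c + 1) r := by
        simp [uBn]
      rw [h2]
      exact h1
    · exact mainB_relLE_of_le (h0 a) _
  | succ M ih =>
    intro c r o N z hN hMc hoM hz
    obtain ⟨c, rfl⟩ : ∃ c', c = c' + 1 := ⟨c - 1, by omega⟩
    have ho : o < m0 := by omega
    -- the submodule `Q`
    obtain ⟨Q0, fq, hQ, hq1, hq2, hmem, hnum⟩ : ∃ (Q0 : Submodule K V) (fq : ℕ → ℕ),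
        Q0 ≤ spnZ K z r ∧ (∀ a, RelLE (US m0 Y Q0 a) (N a) (uBn M a fq)) ∧
        ((∀ a, RelGE (US m0 Y Q0 a) (N a) (uBn M a fq)) → KEx m0 Y (US m0 Y Q0) N) ∧
        (∀ u : Multiset Lt, Multiset.card u + 1 = r → z ((false, 0) ::ₘ u) ∈ Q0) ∧
        (∀ j ≤ M, Nat.multichoose (c + 1 + 1 - j) r =
          Nat.multichoose (c + 1 + 1 - (j + 1)) r + 0 + fq j) := by
      rcases r with _ | r
      · refine ⟨⊥, fun _ => 0, bot_le, fun a => ?_, fun _ => ?_, fun u hu => ?_, fun j _ => ?_⟩
        · rw [mainB_US_bot]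
          exact mainB_relLE_of_le bot_le _
        · exact KEx.zero fun a => by
            rw [mainB_US_bot]
            exact bot_le
        · omega
        · simp
      · have hz2 : Zd (c + 1) r m0 o M Y N (fun u => z ((false, 0) ::ₘ u)) :=
          Zd.T2 hN (by omega) hz
        obtain ⟨h1, h2⟩ := ih (c + 1) r o N (fun u => z ((false, 0) ::ₘ u)) hN (by omega)
          (by omega) hz2
        refine ⟨_, _, spnZ_T2_le z, h1, h2, fun u hu => ?_, fun j hj => ?_⟩
        · exact Submodule.subset_span ⟨u, by omega, rfl⟩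
        · obtain ⟨n, hn⟩ : ∃ n, c + 1 + 1 - j = n + 1 := ⟨c + 1 + 1 - j - 1, by omega⟩
          have hn' : c + 1 + 1 - (j + 1) = n := by omega
          rw [hn, hn', Nat.multichoose_succ_succ, add_zero]
    set S0 := spnZ K z r with hS0
    have hw : ∀ a, US m0 Y (⊥ : Submodule K V) a = ⊥ := mainB_US_bot m0 Y
    have hN' : Gr m0 Y (fun a => N a ⊔ US m0 Y Q0 a ⊔ US m0 Y ⊥ a ⊔
        shf (Y o) (US m0 Y S0) a) :=
      Gr.sup (Gr.sup (Gr.sup hN (Gr.US Y Q0)) (Gr.US Y ⊥)) (Gr.shf hY (Gr.US Y S0))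
    have hz1 : Zd c r m0 (o + 1) M Y (fun a => N a ⊔ US m0 Y Q0 a ⊔ US m0 Y ⊥ a ⊔
        shf (Y o) (US m0 Y S0) a) (fun u => z (u.map shZ)) := by
      refine Zd.T1 hz (by omega) (fun a => ?_) hN' (fun u hu => ?_) (fun u hu => ?_)
      · exact le_sup_of_le_left (le_sup_of_le_left le_sup_left)
      · exact Submodule.mem_sup_left (Submodule.mem_sup_left (Submodule.mem_sup_right
          (hmem u hu)))
      · refine Submodule.mem_sup_right ?_
        exact Submodule.mem_map_of_mem (Submodule.subset_span ⟨u, hu, rfl⟩)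
    obtain ⟨s1, s2⟩ := ih c r (o + 1) _ _ hN' (by omega) (by omega) hz1
    rw [spnZ_T1, ← hS0] at s1 s2
    have hst := step m0 o ho Y hY N hN S0 Q0 ⊥ hQ bot_le (fun a => uBn M a fq)
      (fun a => uBn M a (fun _ => 0))
      (fun a => uBn M a (fun j => Nat.multichoose (c + 1 - j) r)) hq1 hq2
      (fun a => by
        rw [hw]
        exact mainB_relLE_of_le bot_le _)
      (fun _ => KEx.zero fun a => by
        rw [hw]
        exact bot_le) s1 s2
    have hsum : ∀ a, uBn (M + 1) a (fun j => Nat.multichoose (c + 1 + 1 - j) r) =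
        (∑ e ∈ range (a + 1), uBn M (a - e) (fun j => Nat.multichoose (c + 1 - j) r)) +
          uBn M a (fun _ => 0) + uBn M a fq := by
      intro a
      rw [uBn_split M a (fun j => Nat.multichoose (c + 1 + 1 - j) r) (fun _ => 0) fq hnum]
      simp only [Nat.add_sub_add_right]
    refine ⟨fun a => ?_, fun hge => ?_⟩
    · rw [hsum]
      exact hst.1 a
    · refine hst.2 fun a => ?_
      rw [← hsum]
      exact hge a

end

end HK2
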