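import Pool.Agent.HK2.Defs
import Pool.Agent.HK.Num

/-! # Module NumB: the numbers `GG` -/

namespace HK2

open Finset HK

/-- closed form -/
theorem GG_closed (k m r : ℕ) : ((GG k m r : ℕ) : ℤ) =
    (Nat.choose (m + 1) (k + 1) : ℤ) * Nat.choose (m + 3 + r) r -
      (Nat.choose m (k + 1) : ℤ) * Nat.choose (m + 2 + r) r := by
  induction k, m, r using GG.induct with
  | case1 r =>
    have h : Nat.multichoose 4 r = Nat.choose (3 + r) r := by
      rw [Nat.multichoose_eq]
      congr 1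
      omega
    simp [GG, h]
  | case2 k r => simp [GG]
  | case3 m ih =>
    rw [GG, ih]
    simp
  | case4 m r ih1 ih2 =>
    have h : Nat.multichoose (m + 4) r = Nat.choose (m + 3 + r) r := by
      rw [Nat.multichoose_eq]
      congr 1
      omega
    rw [GG]
    push_cast
    rw [ih1, ih2, h]
    have e1 : m + 1 + 3 + (r + 1) = (m + 3 + r + 1) + 1 := by omega
    have e2 : m + 1 + 2 + (r + 1) = m + 3 + r + 1 := by omega
    have e4 : m + 2 + (r + 1) = m + 3 + r := by omega
    have e5 : m + 1 + 3 + r = m + 3 + r + 1 := by omega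
    have e6 : m + 1 + 2 + r = m + 3 + r := by omega
    simp only [Nat.succ_eq_add_one, e1, e2, e4, e5, e6]
    rw [Nat.choose_succ_succ (m + 3 + r + 1) r, Nat.choose_succ_succ (m + 3 + r) r]
    simp only [zero_add, Nat.choose_one_right]
    push_cast
    ring
  | case5 k m ih1 ih2 =>
    rw [GG]
    push_cast
    rw [ih1, ih2, Nat.choose_succ_succ (m + 1) (k + 1), Nat.choose_succ_succ m (k + 1)]
    simp only [Nat.choose_zero_right]
    push_cast
    ring
  | case6 k m r ih1 ih2 ih3 =>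
    rw [GG]
    push_cast
    rw [ih1, ih2, ih3]
    have e1 : m + 1 + 3 + (r + 1) = (m + 3 + r + 1) + 1 := by omega
    have e2 : m + 1 + 2 + (r + 1) = m + 3 + r + 1 := by omega
    have e4 : m + 2 + (r + 1) = m + 3 + r := by omega
    have e5 : m + 1 + 3 + r = m + 3 + r + 1 := by omega
    have e6 : m + 1 + 2 + r = m + 3 + r := by omega
    simp only [Nat.succ_eq_add_one, e1, e2, e4, e5, e6]
    rw [Nat.choose_succ_succ (m + 3 + r + 1) r, Nat.choose_succ_succ (m + 3 + r) r,
      Nat.choose_succ_succ (m + 1) (k + 1), Nat.choose_succ_succ m (k + 1)]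
    push_cast
    ring

private theorem qn_eq (n μ b : ℕ) (hμ : μ ≤ n) (hb : 2 * μ ≤ b) : qn n μ b =
    (Nat.choose (n + μ + 1) (2 * μ + 1) : ℤ) * Nat.choose (n + μ + 3 + (b - 2 * μ)) (b - 2 * μ) -
      (Nat.choose (n + μ) (2 * μ + 1) : ℤ) * Nat.choose (n + μ + 2 + (b - 2 * μ)) (b - 2 * μ) := by
  have h1 := qR_eq hμ
  have h4 := mc_gen (n + μ + 4)
  have h3 := mc_gen (n + μ + 3)
  have key : qR n μ = PowerSeries.X ^ (2 * μ) *
      ((((2 * μ + 1 + (n - μ)).choose (2 * μ + 1) : ℕ) : PowerSeries ℤ) *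
        (PowerSeries.mk (fun b => ((Nat.multichoose (n + μ + 4) b : ℕ) : ℤ)) : PowerSeries ℤ) -
      (((2 * μ + (n - μ)).choose (2 * μ + 1) : ℕ) : PowerSeries ℤ) *
        (PowerSeries.mk (fun b => ((Nat.multichoose (n + μ + 3) b : ℕ) : ℤ)) : PowerSeries ℤ)) := by
    have hne : (1 - PowerSeries.X : PowerSeries ℤ) ^ (2 * n + 4) ≠ 0 := by
      intro h
      have := congrArg (PowerSeries.coeff (R := ℤ) 0) h
      simp at this
    refine mul_left_cancel₀ hne (h1.trans ?_)
    have e1 : (2 * n + 4) = (n - μ) + (n + μ + 4) := by omega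
    have e2 : (2 * n + 4) = (n - μ + 1) + (n + μ + 3) := by omega
    have a1 : (1 - PowerSeries.X : PowerSeries ℤ) ^ (2 * n + 4) *
        (PowerSeries.mk (fun b => ((Nat.multichoose (n + μ + 4) b : ℕ) : ℤ)) : PowerSeries ℤ) =
        (1 - PowerSeries.X) ^ (n - μ) := by
      rw [e1, pow_add, mul_assoc, h4, mul_one]
    have a2 : (1 - PowerSeries.X : PowerSeries ℤ) ^ (2 * n + 4) *
        (PowerSeries.mk (fun b => ((Nat.multichoose (n + μ + 3) b : ℕ) : ℤ)) : PowerSeries ℤ) =
        (1 - PowerSeries.X) ^ (n - μ + 1) := by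
      rw [e2, pow_add, mul_assoc, h3, mul_one]
    rw [← a1, ← a2]
    ring
  have h5 := congrArg (PowerSeries.coeff (R := ℤ) b) key
  rw [qR, PowerSeries.coeff_mk] at h5
  rw [h5]
  obtain ⟨r, rfl⟩ := Nat.exists_eq_add_of_le hb
  rw [Nat.add_comm (2 * μ) r, PowerSeries.coeff_X_pow_mul, map_sub, Nat.add_sub_cancel]
  have c1 : ∀ (c : ℕ) (F : PowerSeries ℤ), PowerSeries.coeff r ((c : PowerSeries ℤ) * F) =
      (c : ℤ) * PowerSeries.coeff r F := by
    intro c F
    have : (c : PowerSeries ℤ) = PowerSeries.C (c : ℤ) := by simp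
    rw [this, PowerSeries.coeff_C_mul]
  rw [c1, c1, PowerSeries.coeff_mk, PowerSeries.coeff_mk, Nat.multichoose_eq, Nat.multichoose_eq]
  have e3 : 2 * μ + 1 + (n - μ) = n + μ + 1 := by omega
  have e4 : 2 * μ + (n - μ) = n + μ := by omega
  have e5 : n + μ + 4 + r - 1 = n + μ + 3 + r := by omega
  have e6 : n + μ + 3 + r - 1 = n + μ + 2 + r := by omega
  rw [e3, e4, e5, e6]

theorem GG_eU (n μ b j : ℕ) (hμ : μ ≤ n) (hb : 2 * μ ≤ b) (hj : j ≤ n + μ) :
    ((GG (2 * μ) (n + μ - j) (b - 2 * μ) : ℕ) : ℤ) = eU n μ b j := by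
  rw [GG_closed, eU]
  by_cases h1 : j ≤ n
  · rw [if_pos h1]
    by_cases h2 : μ ≤ n - j
    · rw [qn_eq (n - j) μ b h2 hb]
      have e : n + μ - j = n - j + μ := by omega
      rw [e]
    · have h3 : HM (n - j) μ b = 0 := by
        rw [HM, if_neg]
        intro h
        exact h2 h.1
      have h4 : HM (n - j) (μ + 1) b = 0 := by
        rw [HM, if_neg]
        intro h
        exact h2 (by omega)
      rw [qn, h3, h4, Nat.choose_eq_zero_of_lt (show n + μ - j + 1 < 2 * μ + 1 by omega),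
        Nat.choose_eq_zero_of_lt (show n + μ - j < 2 * μ + 1 by omega)]
      simp
  · rw [if_neg h1, Nat.choose_eq_zero_of_lt (show n + μ - j + 1 < 2 * μ + 1 by omega),
      Nat.choose_eq_zero_of_lt (show n + μ - j < 2 * μ + 1 by omega)]
    simp

end HK2
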