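import Pool.Agent.HK2.Defs

/-! # Module RelA: minimal numbers of generators -/

namespace HK2

open Finset HK

section

variable {K : Type*} [Field K] {V : Type*} [AddCommGroup V] [Module K V]

theorem RelGE.mono {S S' N N' : Submodule K V} {B B' : ℕ} (h : RelGE S N B) (h1 : S ≤ S')
    (h2 : N' ≤ N) (h3 : B' ≤ B) : RelGE S' N' B' := fun B'' h'' =>
  h3.trans (h B'' (h''.mono h1 h2 le_rfl))

/-- the lower part of a chain -/
theorem RelGE.lower {A C N : Submodule K V} {B1 B2 : ℕ} (h : RelGE (C ⊔ A) N (B2 + B1))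
    (h2 : RelLE C (N ⊔ A) B2) : RelGE A N B1 := by
  intro B' hB'
  have h3 := h _ (hB'.trans_sup h2)
  omega

/-- the upper part of a chain -/
theorem RelGE.upper {A C N : Submodule K V} {B1 B2 : ℕ} (h : RelGE (C ⊔ A) N (B2 + B1))
    (h1 : RelLE A N B1) : RelGE C (N ⊔ A) B2 := by
  intro B' hB'
  have h3 := h _ (h1.trans_sup hB')
  omega

private theorem exch_aux [DecidableEq V] {N : Submodule K V} {s : V} (hs' : s ∉ N)
    (t : Finset V) : s ∈ N ⊔ Submodule.span K (t : Set V) →
    ∃ x ∈ t, x ∈ N ⊔ Submodule.span K ((insert s (t.erase x) : Finset V) : Set V) := by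
  induction t using Finset.induction_on with
  | empty =>
    intro h
    simp only [Finset.coe_empty, Submodule.span_empty, sup_bot_eq] at h
    exact absurd h hs'
  | insert y t0 hy ih =>
    intro h
    by_cases hc : s ∈ N ⊔ Submodule.span K (t0 : Set V)
    · obtain ⟨x, hx, hx'⟩ := ih hc
      refine ⟨x, Finset.mem_insert_of_mem hx, ?_⟩
      refine (sup_le_sup_left (Submodule.span_mono ?_) N : _ ≤ _) hx'
      intro z hz
      simp only [Finset.coe_insert, Finset.coe_erase, Set.mem_insert_iff, Set.mem_sdiff,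
        Finset.mem_coe, Set.mem_singleton_iff] at hz ⊢
      rcases hz with hz | ⟨hz1, hz2⟩
      · exact Or.inl hz
      · exact Or.inr ⟨Or.inr hz1, hz2⟩
    · refine ⟨y, Finset.mem_insert_self y t0, ?_⟩
      rw [Finset.erase_insert hy]
      obtain ⟨n, hn, v, hv, hnv⟩ := Submodule.mem_sup.1 h
      rw [Finset.coe_insert, Submodule.mem_span_insert] at hv
      obtain ⟨c, w, hw, hv⟩ := hv
      have hc0 : c ≠ 0 := by
        intro hc0
        apply hc
        rw [← hnv, hv, hc0, zero_smul, zero_add]
        exact Submodule.add_mem_sup hn hw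
      have e1 : y = c⁻¹ • (s - (n + w)) := by
        rw [← hnv, hv]
        have : n + (c • y + w) - (n + w) = c • y := by abel
        rw [this, smul_smul, inv_mul_cancel₀ hc0, one_smul]
      rw [e1]
      apply Submodule.smul_mem
      apply Submodule.sub_mem
      · apply Submodule.mem_sup_right
        apply Submodule.subset_span
        simp
      · refine Submodule.add_mem_sup hn ?_
        refine Submodule.span_mono ?_ hw
        simp

/-- exchange -/
theorem RelLE.exchange {S N : Submodule K V} {B : ℕ} (h : RelLE S N B) {s : V} (hs : s ∈ S)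
    (hs' : s ∉ N) : 1 ≤ B ∧ RelLE S (N ⊔ Submodule.span K {s}) (B - 1) := by
  classical
  obtain ⟨t, ht, hS⟩ := h
  obtain ⟨x, hx, hx'⟩ := exch_aux hs' t (hS hs)
  have hc : 1 ≤ t.card := Finset.card_pos.2 ⟨x, hx⟩
  refine ⟨hc.trans ht, t.erase x, ?_, ?_⟩
  · rw [Finset.card_erase_of_mem hx]
    exact Nat.sub_le_sub_right ht 1
  · have e1 : N ⊔ Submodule.span K {s} ⊔ Submodule.span K ((t.erase x : Finset V) : Set V)
        = N ⊔ Submodule.span K ((insert s (t.erase x) : Finset V) : Set V) := by
      rw [Finset.coe_insert, Submodule.span_insert, sup_assoc]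
    rw [e1]
    refine hS.trans (sup_le le_sup_left ?_)
    rw [Submodule.span_le]
    intro z hz
    by_cases hzx : z = x
    · rw [hzx]; exact hx'
    · apply Submodule.mem_sup_right
      apply Submodule.subset_span
      simp only [Finset.coe_insert, Finset.coe_erase, Set.mem_insert_iff, Set.mem_sdiff,
        Finset.mem_coe, Set.mem_singleton_iff]
      exact Or.inr ⟨hz, hzx⟩

/-- a map between spaces of the same relative size is injective -/
theorem RelGE.nzd {S N N' : Submodule K V} {B : ℕ} (T : V →ₗ[K] V) (hT : N.map T ≤ N')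
    (h1 : RelLE S N B) (h2 : RelGE (S.map T) N' B) : ∀ s ∈ S, T s ∈ N' → s ∈ N := by
  intro s hs hTs
  by_contra hc
  obtain ⟨hB, h3⟩ := RelLE.exchange h1 hs hc
  have h4 : RelLE (S.map T) N' (B - 1) := by
    refine (h3.map T).mono le_rfl ?_ le_rfl
    rw [Submodule.map_sup, Submodule.map_span]
    refine sup_le hT ?_
    rw [Submodule.span_le]
    rintro _ ⟨z, hz, rfl⟩
    rw [Set.mem_singleton_iff] at hz
    rw [hz]
    exact hTs
  have h5 := h2 _ h4
  omega

theorem RelLE.bot' {N : Submodule K V} : RelLE (⊥ : Submodule K V) N 0 := RelLE.zero N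

end

end HK2
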