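import Pool.Agent.HK2.KosB
import Pool.Agent.HK2.RelA

/-! # Module Step: the abstract recursion step -/

namespace HK2

open Finset HK

section

variable {K : Type*} [Field K] {V : Type*} [AddCommGroup V] [Module K V]

private theorem fs_sum (fs : ℕ → ℕ) (a : ℕ) :
    ∑ e ∈ range (a + 1 + 1), fs (a + 1 - e) = fs (a + 1) + ∑ e ∈ range (a + 1), fs (a - e) := by
  rw [Finset.sum_range_succ' (fun e => fs (a + 1 - e)) (a + 1), add_comm]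
  congr 1
  refine Finset.sum_congr rfl fun e _ => ?_
  congr 1
  omega

/-- the part with the free variable, upper bound -/
private theorem chain_le (m0 o : ℕ) (ho : o < m0) (Y : ℕ → V →ₗ[K] V)
    (S M : ℕ → Submodule K V) (hM : Gr m0 Y M) (fs : ℕ → ℕ)
    (s1 : ∀ a, RelLE (S a) (M a ⊔ shf (Y o) S a) (fs a)) (a : ℕ) :
    RelLE (S a) (M a) (∑ e ∈ range (a + 1), fs (a - e)) := by
  induction a with
  | zero =>
    refine (s1 0).mono le_rfl ?_ (by simp)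
    exact sup_le le_rfl bot_le
  | succ a ih =>
    rw [fs_sum]
    have h1 : RelLE ((S a).map (Y o)) (M (a + 1)) (∑ e ∈ range (a + 1), fs (a - e)) :=
      (ih.map (Y o)).mono le_rfl (hM o ho a) le_rfl
    exact (h1.trans_sup (s1 (a + 1))).mono le_sup_left le_rfl le_rfl

/-- the part with the free variable, case of equality -/
private theorem chain_ge (m0 o : ℕ) (ho : o < m0) (Y : ℕ → V →ₗ[K] V)
    (S M : ℕ → Submodule K V) (hM : Gr m0 Y M) (fs : ℕ → ℕ)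
    (s1 : ∀ a, RelLE (S a) (M a ⊔ shf (Y o) S a) (fs a))
    (h : ∀ a, RelGE (S a) (M a) (∑ e ∈ range (a + 1), fs (a - e))) :
    (∀ a, RelGE (S a) (M a ⊔ shf (Y o) S a) (fs a)) ∧
    ∀ a, ∀ s ∈ S a, Y o s ∈ M (a + 1) → s ∈ M a := by
  have hle := chain_le m0 o ho Y S M hM fs s1
  have hshf : ∀ a, RelLE ((S a).map (Y o)) (M (a + 1)) (∑ e ∈ range (a + 1), fs (a - e)) :=
    fun a => ((hle a).map (Y o)).mono le_rfl (hM o ho a) le_rfl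
  have hsup : ∀ a, RelGE (S (a + 1) ⊔ (S a).map (Y o)) (M (a + 1))
      (fs (a + 1) + ∑ e ∈ range (a + 1), fs (a - e)) := by
    intro a
    refine (h (a + 1)).mono le_sup_left le_rfl ?_
    rw [fs_sum]
  constructor
  · intro a
    cases a with
    | zero =>
      refine (h 0).mono le_rfl ?_ (by simp)
      exact sup_le le_rfl bot_le
    | succ a => exact (hsup a).upper (hshf a)
  · intro a
    exact RelGE.nzd (Y o) (hM o ho a) (hle a) ((hsup a).lower (s1 (a + 1)))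

/-- the abstract recursion step -/
theorem step (m0 o : ℕ) (ho : o < m0) (Y : ℕ → V →ₗ[K] V) (hY : ∀ i j, Commute (Y i) (Y j))
    (N : ℕ → Submodule K V) (hN : Gr m0 Y N) (S0 Q0 W0 : Submodule K V) (hQ : Q0 ≤ S0)
    (hW : W0 ≤ S0) (fq fw fs : ℕ → ℕ)
    (q1 : ∀ a, RelLE (US m0 Y Q0 a) (N a) (fq a))
    (q2 : (∀ a, RelGE (US m0 Y Q0 a) (N a) (fq a)) → KEx m0 Y (US m0 Y Q0) N)
    (w1 : ∀ a, RelLE (US m0 Y W0 a) (N a ⊔ US m0 Y Q0 a) (fw a))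
    (w2 : (∀ a, RelGE (US m0 Y W0 a) (N a ⊔ US m0 Y Q0 a) (fw a)) →
      KEx m0 Y (US m0 Y W0) (fun a => N a ⊔ US m0 Y Q0 a))
    (s1 : ∀ a, RelLE (US m0 Y S0 a)
      (N a ⊔ US m0 Y Q0 a ⊔ US m0 Y W0 a ⊔ shf (Y o) (US m0 Y S0) a) (fs a))
    (s2 : (∀ a, RelGE (US m0 Y S0 a)
      (N a ⊔ US m0 Y Q0 a ⊔ US m0 Y W0 a ⊔ shf (Y o) (US m0 Y S0) a) (fs a)) →
      KEx m0 Y (US m0 Y S0)
        (fun a => N a ⊔ US m0 Y Q0 a ⊔ US m0 Y W0 a ⊔ shf (Y o) (US m0 Y S0) a)) :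
    (∀ a, RelLE (US m0 Y S0 a) (N a) ((∑ e ∈ range (a + 1), fs (a - e)) + fw a + fq a)) ∧
    ((∀ a, RelGE (US m0 Y S0 a) (N a) ((∑ e ∈ range (a + 1), fs (a - e)) + fw a + fq a)) →
      KEx m0 Y (US m0 Y S0) N) := by
  have hSG : Gr m0 Y (US m0 Y S0) := Gr.US Y S0
  have hQG : Gr m0 Y (US m0 Y Q0) := Gr.US Y Q0
  have hWG : Gr m0 Y (US m0 Y W0) := Gr.US Y W0
  have hNQ : Gr m0 Y (fun a => N a ⊔ US m0 Y Q0 a) := hN.sup hQG
  have hNQW : Gr m0 Y (fun a => N a ⊔ US m0 Y Q0 a ⊔ US m0 Y W0 a) := hNQ.sup hWG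
  have hQS : ∀ a, US m0 Y Q0 a ≤ US m0 Y S0 a := US_mono m0 Y hQ
  have hWS : ∀ a, US m0 Y W0 a ≤ US m0 Y S0 a := US_mono m0 Y hW
  have c1 : ∀ a, RelLE (US m0 Y S0 a) (N a ⊔ US m0 Y Q0 a ⊔ US m0 Y W0 a)
      (∑ e ∈ range (a + 1), fs (a - e)) :=
    chain_le m0 o ho Y (US m0 Y S0) (fun a => N a ⊔ US m0 Y Q0 a ⊔ US m0 Y W0 a) hNQW fs s1
  have c2 : ∀ a, RelLE (US m0 Y S0 a) (N a ⊔ US m0 Y Q0 a)
      ((∑ e ∈ range (a + 1), fs (a - e)) + fw a) :=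
    fun a => ((w1 a).trans_sup (c1 a)).mono le_sup_left le_rfl le_rfl
  refine ⟨fun a => ((q1 a).trans_sup (c2 a)).mono le_sup_left le_rfl le_rfl, fun hge => ?_⟩
  have g1 : ∀ a, RelGE (US m0 Y S0 a ⊔ US m0 Y Q0 a) (N a)
      (((∑ e ∈ range (a + 1), fs (a - e)) + fw a) + fq a) :=
    fun a => (hge a).mono le_sup_left le_rfl le_rfl
  have gq : ∀ a, RelGE (US m0 Y Q0 a) (N a) (fq a) := fun a => (g1 a).lower (c2 a)
  have g2 : ∀ a, RelGE (US m0 Y S0 a ⊔ US m0 Y W0 a) (N a ⊔ US m0 Y Q0 a)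
      ((∑ e ∈ range (a + 1), fs (a - e)) + fw a) :=
    fun a => ((g1 a).upper (q1 a)).mono le_sup_left le_rfl le_rfl
  have gw : ∀ a, RelGE (US m0 Y W0 a) (N a ⊔ US m0 Y Q0 a) (fw a) :=
    fun a => (g2 a).lower (c1 a)
  have g3 : ∀ a, RelGE (US m0 Y S0 a) (N a ⊔ US m0 Y Q0 a ⊔ US m0 Y W0 a)
      (∑ e ∈ range (a + 1), fs (a - e)) := fun a => (g2 a).upper (w1 a)
  obtain ⟨gs, gn⟩ := chain_ge m0 o ho Y (US m0 Y S0)
    (fun a => N a ⊔ US m0 Y Q0 a ⊔ US m0 Y W0 a) hNQW fs s1 g3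
  have k1 : KEx m0 Y (US m0 Y S0) (fun a => N a ⊔ US m0 Y Q0 a ⊔ US m0 Y W0 a) :=
    KEx.nzd ho hY hSG hNQW gn (s2 gs)
  have k2 : KEx m0 Y (fun a => US m0 Y S0 a ⊔ US m0 Y W0 a) (fun a => N a ⊔ US m0 Y Q0 a) :=
    KEx.ext hY hWG hNQ (w2 gw) k1
  have k3 : KEx m0 Y (fun a => (US m0 Y S0 a ⊔ US m0 Y W0 a) ⊔ US m0 Y Q0 a) N :=
    KEx.ext hY hQG hN (q2 gq) k2
  have e1 : (fun a => (US m0 Y S0 a ⊔ US m0 Y W0 a) ⊔ US m0 Y Q0 a) = US m0 Y S0 := by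
    funext a
    rw [sup_eq_left.2 (hWS a), sup_eq_left.2 (hQS a)]
  rw [e1] at k3
  exact k3

end

end HK2
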