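import Pool.Agent.HK2.TopDefs
import Pool.Agent.HK.Final

/-! # Module Summ1: the retraction -/

namespace HK2

open MvPolynomial Finset HK

section

variable {K : Type*} [Field K] {n m : ℕ}

/-- the ideal of maximal minors -/
noncomputable def mI (K : Type*) [Field K] (n m : ℕ) : Ideal (MvPolynomial (Fin m) K) :=
  Ideal.span (Set.range (maxMinor K n m))

/-- the retraction -/
noncomputable def rr (K : Type*) [Field K] (n m b : ℕ) : SB K n →ₗ[K] MvPolynomial (Fin m) K where
  toFun G := aeval (maxMinor K n m) (Psi K n m b (piS K n m G))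
  map_add' x y := by
    rw [map_add, Psi_add, map_add]
  map_smul' c x := by
    have h1 : piS K n m (c • x) = C (C c) * piS K n m x := by
      rw [map_smul, C_mul', ← algebraMap_smul (MvPolynomial (Fin m) K) c]
      rfl
    rw [h1, Psi_C_mul, map_mul, aeval_C, RingHom.id_apply, ← C_mul']
    rfl

theorem rr_apply (b : ℕ) (G : SB K n) :
    rr K n m b G = aeval (maxMinor K n m) (Psi K n m b (piS K n m G)) := rfl

theorem rr_xx (b j : ℕ) (hj : j < m) (hm : m ≤ 2 * n + 1) (G : SB K n) :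
    rr K n m b (xx K n j * G) = X ⟨j, hj⟩ * rr K n m b G := by
  rw [rr_apply, rr_apply, map_mul, piS_xx, dif_pos (by omega), Psi_C_mul, map_mul, aeval_C]
  rfl

/-- the fiber type ideal is killed by the evaluation at the minors -/
theorem aeval_JJ {F : MvPolynomial (Fin n ↪o Fin (n + 2)) (MvPolynomial (Fin m) K)}
    (hF : F ∈ JJ K n m) : aeval (maxMinor K n m) F = 0 := by
  have h1 : JJ K n m ≤ RingHom.ker (aeval (maxMinor K n m) :
      MvPolynomial (Fin n ↪o Fin (n + 2)) (MvPolynomial (Fin m) K) →ₐ[MvPolynomial (Fin m) K] _) := by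
    refine Ideal.span_le.2 ?_
    rintro F ⟨hk, h⟩
    have h2 : ∃ b, F.IsHomogeneous b := by
      rcases h with ⟨b, hb⟩ | ⟨a, ha⟩
      · exact ⟨b, hb.1⟩
      · exact ⟨1, ha.1⟩
    obtain ⟨b, hb⟩ := h2
    have h3 : phi K n m F = 0 := hk
    have h4 := aeval_component h3 b
    rw [homogeneousComponent_of_mem (show F ∈ homogeneousSubmodule _ _ b from hb), if_pos rfl] at h4
    exact h4
  exact h1 hF

theorem rr_AA {μ : ℕ} (hμ : 1 ≤ μ) (hn : μ ≤ n + 1) (hn1 : 1 ≤ n) (b : ℕ) (G : SB K n)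
    (hG : G ∈ AA K n μ) : rr K n (n + μ) b G = 0 := by
  have h1 := Psi_mem μ hμ hn hn1 b G hG 1
  rw [one_mul] at h1
  exact aeval_JJ h1

theorem maxMinor_homog (f : Fin n ↪o Fin (n + 2)) : (maxMinor K n m f).IsHomogeneous n := by
  unfold maxMinor
  rw [Matrix.det_apply]
  refine IsHomogeneous.sum _ _ _ fun σ _ => ?_
  have h1 : (∏ i, ((hankel K n m).submatrix id f) (σ i) i).IsHomogeneous n := by
    have h2 := IsHomogeneous.prod (univ : Finset (Fin n))
      (fun i => ((hankel K n m).submatrix id f) (σ i) i) (fun _ => 1) (fun i _ => by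
        rw [Matrix.submatrix_apply, hankel, Matrix.of_apply]
        split_ifs
        · exact isHomogeneous_X _ _
        · exact isHomogeneous_zero _ _ _)
    rwa [Finset.sum_const, Finset.card_univ, Fintype.card_fin, smul_eq_mul, mul_one] at h2
  rcases Int.units_eq_one_or (Equiv.Perm.sign σ) with h | h
  · rw [h, one_smul]
    exact h1
  · rw [h, Units.neg_smul, one_smul]
    exact h1.neg

theorem aeval_biHom {a b : ℕ} {F : MvPolynomial (Fin n ↪o Fin (n + 2)) (MvPolynomial (Fin m) K)}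
    (hF : BiHom K n m a b F) : aeval (maxMinor K n m) F ∈ mI K n m ^ b ∧
      (aeval (maxMinor K n m) F).IsHomogeneous (n * b + a) := by
  rw [F.as_sum, map_sum]
  have hdeg : ∀ d ∈ F.support, d.degree = b := by
    intro d hd
    rw [mem_support_iff] at hd
    rw [Finsupp.degree_eq_weight_one]
    exact hF.1 hd
  constructor
  · refine Ideal.sum_mem _ fun d hd => ?_
    rw [aeval_monomial]
    refine Ideal.mul_mem_left _ _ ?_
    rw [Finsupp.prod_fintype _ _ fun f => pow_zero _, ← hdeg d hd, Finsupp.degree_eq_sum,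
      ← Finset.prod_pow_eq_pow_sum]
    exact Ideal.prod_mem_prod fun f _ => Ideal.pow_mem_pow
      (Ideal.subset_span (Set.mem_range_self f) : maxMinor K n m f ∈ mI K n m) _
  · refine IsHomogeneous.sum _ _ _ fun d hd => ?_
    rw [aeval_monomial]
    have h1 : (d.prod fun f k => maxMinor K n m f ^ k).IsHomogeneous (n * b) := by
      rw [Finsupp.prod_fintype _ _ fun f => pow_zero _, ← hdeg d hd, Finsupp.degree_eq_sum,
        Finset.mul_sum]
      exact IsHomogeneous.prod _ _ _ fun f _ => (maxMinor_homog f).pow _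
    have h2 := (hF.2 d).mul h1
    rw [add_comm a (n * b)] at h2
    exact h2

theorem rr_monomial (b a : ℕ) (d : Vr n →₀ ℕ) (c : K)
    (hd : ∑ k : Fin (2 * n + 1), d (Sum.inl k) = a) :
    rr K n m b (monomial d c) ∈ mI K n m ^ b ∧
      (rr K n m b (monomial d c)).IsHomogeneous (n * b + a) := by
  set W : MvPolynomial (Fin (n + 2) ⊕ Fin (n + 2)) (MvPolynomial (Fin m) K) :=
    ∏ v, X v ^ d (Sum.inr v) with hW
  set s : MvPolynomial (Fin m) K := C c * ∏ k : Fin (2 * n + 1),
    (if h : (k : ℕ) < m then X ⟨k, h⟩ else 0) ^ d (Sum.inl k) with hs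
  have h1 : piS K n m (monomial d c) = C s * W := by
    unfold piS
    rw [aeval_monomial, Finsupp.prod_fintype _ _ fun f => pow_zero _, Fintype.prod_sum_type,
      ← mul_assoc, hs, C_mul, map_prod]
    congr 1
    congr 1
    refine Finset.prod_congr rfl fun k _ => ?_
    simp only [Sum.elim_inl]
    rw [map_pow]
    congr 1
    split_ifs
    · rfl
    · rw [map_zero]
  have hWA : W ∈ A0 K m (Fin (n + 2) ⊕ Fin (n + 2)) := by
    rw [hW]
    exact Subring.prod_mem _ fun v _ => Subring.pow_mem _ (X_mem_A0 _) _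
  have hsh : s.IsHomogeneous a := by
    rw [hs, ← hd]
    have h2 := (isHomogeneous_C (Fin m) c).mul (IsHomogeneous.prod (univ : Finset (Fin (2 * n + 1)))
      (fun k => ((if h : (k : ℕ) < m then X ⟨k, h⟩ else 0 : MvPolynomial (Fin m) K)) ^
        d (Sum.inl k)) (fun k => 1 * d (Sum.inl k)) (fun k _ => by
        refine IsHomogeneous.pow ?_ _
        split_ifs
        · exact isHomogeneous_X _ _
        · exact isHomogeneous_zero _ _ _))
    simp only [one_mul, zero_add] at h2
    exact h2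
  obtain ⟨h3, h4⟩ := aeval_biHom (Psi_biHom b W hWA)
  rw [rr_apply, h1, Psi_C_mul, map_mul, aeval_C]
  refine ⟨Ideal.mul_mem_left _ _ h3, ?_⟩
  have h5 := hsh.mul h4
  rw [show a + (n * b + 0) = n * b + a by omega] at h5
  exact h5

theorem rr_mem (b a : ℕ) (hm : m ≤ 2 * n + 1) (G : SB K n) (hG : G ∈ bih K n a (2 * b)) :
    rr K n m b G ∈ mI K n m ^ b ∧ (rr K n m b G).IsHomogeneous (n * b + a) := by
  have hd : ∀ d ∈ G.support, ∑ k : Fin (2 * n + 1), d (Sum.inl k) = a := by
    intro d hd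
    have h1 : Finsupp.weight (wt n) d = (a, 2 * b) := hG (mem_support_iff.1 hd)
    have h2 := congrArg Prod.fst h1
    rw [Finsupp.weight_apply, Finsupp.sum_fintype _ _ (fun i => zero_smul ℕ (wt n i)),
      Fintype.sum_sum_type] at h2
    rw [Prod.fst_add, Prod.fst_sum, Prod.fst_sum] at h2
    simpa [wt] using h2
  rw [G.as_sum, map_sum]
  exact ⟨Ideal.sum_mem _ fun d hdd => (rr_monomial b a d _ (hd d hdd)).1,
    IsHomogeneous.sum _ _ _ fun d hdd => (rr_monomial b a d _ (hd d hdd)).2⟩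

theorem rr_tht {μ : ℕ} (hμ : 1 ≤ μ) (hn : μ ≤ n + 1) (hn1 : 1 ≤ n) (b : ℕ)
    (F : MvPolynomial (Fin n ↪o Fin (n + 2)) (MvPolynomial (Fin (n + μ)) K))
    (hF : F.IsHomogeneous b) : rr K n (n + μ) b (tht K n (n + μ) F) =
      (b.factorial * (b + 1).factorial : ℕ) * aeval (maxMinor K n (n + μ)) F := by
  obtain ⟨c0, ps, qs, hc0, hM, hps, hqs⟩ := exists_pair K n (n + μ) hn1 (by omega)
  set N : ℕ := b.factorial * (b + 1).factorial with hN
  rw [rr_apply, piS_tht (by omega), Psi_sum, map_sum]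
  conv_rhs => rw [F.as_sum, map_sum, Finset.mul_sum]
  refine Finset.sum_congr rfl fun d hd => ?_
  rw [Psi_C_mul, map_mul, aeval_C, aeval_monomial]
  have hdeg : d.degree = b := by
    rw [mem_support_iff] at hd
    rw [Finsupp.degree_eq_weight_one]
    exact hF hd
  have h3 := ev_Psi ps qs c0 hM b (d.prod fun f e => ttb K n (n + μ) f ^ e)
  have h4 : sig ps qs (d.prod fun f e => ttb K n (n + μ) f ^ e) =
      C (c0 ^ b * (d.prod fun f e => maxMinor K n (n + μ) f ^ e)) *
        (X 0 * X 3 - X 1 * X 2) ^ b := by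
    simp only [Finsupp.prod]
    rw [map_prod]
    simp_rw [map_pow, sig_ttb ps qs c0 hM, mul_pow]
    rw [Finset.prod_mul_distrib, Finset.prod_pow_eq_pow_sum]
    have h5 : ∑ f ∈ d.support, d f = b := hdeg
    rw [h5, C_mul, map_prod, C_pow]
    congr 1
    simp_rw [map_pow, C_mul, mul_pow]
    rw [Finset.prod_mul_distrib, Finset.prod_pow_eq_pow_sum, h5]
  rw [h4, C_mul', LinearMap.map_smul, Om_det, coeff_smul, coeff_C, if_pos rfl, smul_eq_mul,
    mul_assoc] at h3
  have h6 := mul_left_cancel₀ (pow_ne_zero _ hc0) h3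
  rw [h6]
  change coeff d F * (_ * (N : MvPolynomial (Fin (n + μ)) K)) = N * (coeff d F * _)
  ring

end

end HK2
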