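import Pool.Agent.HK2.Summ1

/-! # Module Summ2: degrees -/

namespace HK2

open MvPolynomial Finset HK

section

variable {K : Type*} [Field K] {n m : ℕ}

private theorem det_homog {N : ℕ} (M : Matrix (Fin N) (Fin N) (MvPolynomial (Fin m) K))
    (h : ∀ i j, (M i j).IsHomogeneous 1) : M.det.IsHomogeneous N := by
  rw [Matrix.det_apply]
  refine IsHomogeneous.sum _ _ _ fun σ _ => ?_
  have h1 : (∏ i, M (σ i) i).IsHomogeneous N := by
    have := IsHomogeneous.prod (Finset.univ : Finset (Fin N)) (fun i => M (σ i) i) (fun _ => 1)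
      (fun i _ => h _ _)
    simpa using this
  rcases Int.units_eq_one_or (Equiv.Perm.sign σ) with h2 | h2
  · rw [h2, one_smul]
    exact h1
  · rw [h2, Units.neg_smul, one_smul]
    exact h1.neg

private theorem maxMinor_homog2 (f : Fin n ↪o Fin (n + 2)) : (maxMinor K n m f).IsHomogeneous n := by
  unfold maxMinor
  refine det_homog _ fun i j => ?_
  rw [Matrix.submatrix_apply]
  exact hankel_homog _ _

private theorem hc_mul {N : ℕ} {g : MvPolynomial (Fin m) K} (hg : g.IsHomogeneous N)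
    (s : MvPolynomial (Fin m) K) (i : ℕ) : homogeneousComponent i (s * g) =
      if N ≤ i then homogeneousComponent (i - N) s * g else 0 := by
  induction s using MvPolynomial.induction_on' with
  | monomial e r =>
    have h1 : (monomial e r : MvPolynomial (Fin m) K).IsHomogeneous e.degree :=
      isHomogeneous_monomial _ rfl
    have h2 := h1.mul hg
    rw [homogeneousComponent_of_mem h2, homogeneousComponent_of_mem h1]
    by_cases h : i = e.degree + N
    · rw [if_pos h, if_pos (by omega), if_pos (by omega)]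
    · rw [if_neg h]
      split_ifs with h3 h4
      · omega
      · rw [zero_mul]
      · rfl
  | add p q hp hq =>
    rw [add_mul, map_add, hp, hq, map_add]
    split_ifs
    · rw [add_mul]
    · rw [add_zero]

private theorem pr_homog {b : ℕ} (d : (Fin n ↪o Fin (n + 2)) →₀ ℕ) (hd : d.degree = b) :
    (∏ i ∈ d.support, maxMinor K n m i ^ d i).IsHomogeneous (n * b) := by
  have := IsHomogeneous.prod d.support (fun i => maxMinor K n m i ^ d i) (fun i => n * d i)
      (fun i _ => (maxMinor_homog2 i).pow (d i))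
  rw [← Finset.mul_sum] at this
  rw [← hd]
  exact this

private theorem deg_of {b : ℕ} {p : MvPolynomial (Fin n ↪o Fin (n + 2)) (MvPolynomial (Fin m) K)}
    (hp : p.IsHomogeneous b) {d : (Fin n ↪o Fin (n + 2)) →₀ ℕ} (hd : d ∈ p.support) :
    d.degree = b := by
  rw [mem_support_iff] at hd
  rw [Finsupp.degree_eq_weight_one]
  exact hp hd

private theorem hc_eval {b : ℕ} {p : MvPolynomial (Fin n ↪o Fin (n + 2)) (MvPolynomial (Fin m) K)}
    (hp : p.IsHomogeneous b) (i : ℕ) : homogeneousComponent i (eval (maxMinor K n m) p) =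
      if n * b ≤ i then ∑ d ∈ p.support, homogeneousComponent (i - n * b) (coeff d p) *
        ∏ j ∈ d.support, maxMinor K n m j ^ d j else 0 := by
  rw [eval_eq, map_sum]
  split_ifs with h
  · refine Finset.sum_congr rfl fun d hd => ?_
    rw [hc_mul (pr_homog d (deg_of hp hd)), if_pos h]
  · refine Finset.sum_eq_zero fun d hd => ?_
    rw [hc_mul (pr_homog d (deg_of hp hd)), if_neg h]

private theorem comp_F {b : ℕ} {p : MvPolynomial (Fin n ↪o Fin (n + 2)) (MvPolynomial (Fin m) K)}
    (hp : p.IsHomogeneous b) (a : ℕ) :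
    ∃ F : MvPolynomial (Fin n ↪o Fin (n + 2)) (MvPolynomial (Fin m) K), BiHom K n m a b F ∧
      eval (maxMinor K n m) F = homogeneousComponent (n * b + a) (eval (maxMinor K n m) p) := by
  classical
  refine ⟨∑ d ∈ p.support, monomial d (homogeneousComponent a (coeff d p)), ⟨?_, ?_⟩, ?_⟩
  · exact IsHomogeneous.sum _ _ _ fun d hd => isHomogeneous_monomial _ (deg_of hp hd)
  · intro d
    rw [coeff_sum]
    refine IsHomogeneous.sum _ _ _ fun e _ => ?_
    rw [coeff_monomial]
    split_ifs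
    · exact homogeneousComponent_isHomogeneous _ _
    · exact isHomogeneous_zero _ _ _
  · rw [hc_eval hp, if_pos (by omega), map_sum, Nat.add_sub_cancel_left]
    refine Finset.sum_congr rfl fun d _ => ?_
    rw [eval_monomial]
    rfl

private theorem ev_ae (F : MvPolynomial (Fin n ↪o Fin (n + 2)) (MvPolynomial (Fin m) K)) :
    aeval (maxMinor K n m) F = eval (maxMinor K n m) F := by
  rw [aeval_def]
  rfl

theorem exists_F (b a : ℕ) (f : MvPolynomial (Fin m) K) (hf : f ∈ mI K n m ^ b)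
    (hf' : f.IsHomogeneous (n * b + a)) :
    ∃ F : MvPolynomial (Fin n ↪o Fin (n + 2)) (MvPolynomial (Fin m) K), BiHom K n m a b F ∧
      aeval (maxMinor K n m) F = f := by
  unfold mI at hf
  rw [Ideal.mem_span_pow_iff_exists_isHomogeneous] at hf
  obtain ⟨p, hp, hpf⟩ := hf
  obtain ⟨F, hF, hFe⟩ := comp_F hp a
  refine ⟨F, hF, ?_⟩
  rw [ev_ae, hFe, hpf, homogeneousComponent_of_mem hf', if_pos rfl]

private theorem xx_bih (k : ℤ) : xx K n k ∈ bih K n 1 0 := by
  unfold xx
  split_ifs
  · exact isWeightedHomogeneous_X _ _ _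
  · exact Submodule.zero_mem _

private theorem pp_bih (k : ℤ) : pp K n k ∈ bih K n 0 1 := by
  unfold pp
  split_ifs
  · exact isWeightedHomogeneous_X _ _ _
  · exact Submodule.zero_mem _

private theorem qq_bih (k : ℤ) : qq K n k ∈ bih K n 0 1 := by
  unfold qq
  split_ifs
  · exact isWeightedHomogeneous_X _ _ _
  · exact Submodule.zero_mem _

private theorem pow_bih {a b : ℕ} {g : SB K n} (hg : g ∈ bih K n a b) (k : ℕ) :
    g ^ k ∈ bih K n (a * k) (b * k) := by
  have := IsWeightedHomogeneous.pow (w := wt n) (φ := g) (m := (a, b)) hg k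
  have h2 : k • ((a, b) : ℕ × ℕ) = (a * k, b * k) := by
    ext
    · show k • a = a * k
      rw [smul_eq_mul, mul_comm]
    · show k • b = b * k
      rw [smul_eq_mul, mul_comm]
  rw [h2] at this
  exact this

private theorem prod_bih {ι : Type*} (s : Finset ι) (g : ι → SB K n) (a b : ι → ℕ)
    (h : ∀ i ∈ s, g i ∈ bih K n (a i) (b i)) :
    ∏ i ∈ s, g i ∈ bih K n (∑ i ∈ s, a i) (∑ i ∈ s, b i) := by
  classical
  induction s using Finset.induction_on with
  | empty =>
    rw [Finset.prod_empty, Finset.sum_empty, Finset.sum_empty]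
    exact isWeightedHomogeneous_one _ _
  | insert i s hi ih =>
    rw [Finset.prod_insert hi, Finset.sum_insert hi, Finset.sum_insert hi]
    exact mul_mem_bih (h i (Finset.mem_insert_self _ _))
      (ih fun j hj => h j (Finset.mem_insert_of_mem hj))

private theorem C_bih (c : K) : (C c : SB K n) ∈ bih K n 0 0 :=
  isWeightedHomogeneous_C _ _

private theorem iot_bih {a : ℕ} {s : MvPolynomial (Fin m) K} (hs : s.IsHomogeneous a) :
    iot K n m s ∈ bih K n a 0 := by
  unfold iot
  rw [aeval_def, eval₂_eq]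
  refine Submodule.sum_mem _ fun e he => ?_
  rw [mem_support_iff] at he
  have hd : e.degree = a := by
    rw [Finsupp.degree_eq_weight_one]
    exact hs he
  have h1 := prod_bih e.support (fun i : Fin m => xx K n ((i : ℕ) : ℤ) ^ e i) (fun i => 1 * e i)
    (fun i => 0 * e i) (fun i _ => pow_bih (xx_bih _) _)
  have h2 : ∑ i ∈ e.support, 1 * e i = a := by
    rw [← hd]
    exact Finset.sum_congr rfl fun i _ => one_mul _
  have h3 : ∑ i ∈ e.support, 0 * e i = 0 := Finset.sum_eq_zero fun i _ => zero_mul _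
  rw [h2, h3] at h1
  have h4 := mul_mem_bih (C_bih (n := n) (coeff e s)) h1
  rw [zero_add, zero_add] at h4
  exact h4

private theorem neg_one_bih (k : ℕ) : ((-1 : SB K n) ^ k) ∈ bih K n 0 0 := by
  have h1 : (-1 : SB K n) ∈ bih K n 0 0 := by
    have : (-1 : SB K n) = C (-1 : K) := by rw [C_neg, C_1]
    rw [this]
    exact C_bih _
  have := pow_bih h1 k
  rw [zero_mul] at this
  exact this

theorem tht_bih (b a : ℕ) (hm : m ≤ 2 * n + 1)
    (F : MvPolynomial (Fin n ↪o Fin (n + 2)) (MvPolynomial (Fin m) K))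
    (hF : BiHom K n m a b F) : tht K n m F ∈ bih K n a (2 * b) := by
  have _ := hm
  unfold tht
  rw [coe_eval₂Hom, eval₂_eq]
  refine Submodule.sum_mem _ fun d hd => ?_
  have hdb := deg_of hF.1 hd
  have hg : ∀ f : Fin n ↪o Fin (n + 2), ((-1) ^ ((ci1 f : ℕ) + ci2 f + 1) *
      (pp K n (ci1 f : ℕ) * qq K n (ci2 f : ℕ) - pp K n (ci2 f : ℕ) * qq K n (ci1 f : ℕ)) : SB K n) ∈
      bih K n 0 2 := by
    intro f
    have h1 := Submodule.sub_mem _ (mul_mem_bih (pp_bih (K := K) (n := n) (ci1 f : ℕ))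
      (qq_bih (ci2 f : ℕ))) (mul_mem_bih (pp_bih (K := K) (n := n) (ci2 f : ℕ))
      (qq_bih (ci1 f : ℕ)))
    have h2 := mul_mem_bih (neg_one_bih (K := K) (n := n) ((ci1 f : ℕ) + ci2 f + 1)) h1
    exact h2
  have h1 := prod_bih d.support (fun f => ((-1) ^ ((ci1 f : ℕ) + ci2 f + 1) *
      (pp K n (ci1 f : ℕ) * qq K n (ci2 f : ℕ) - pp K n (ci2 f : ℕ) * qq K n (ci1 f : ℕ)) :
        SB K n) ^ d f) (fun f => 0 * d f) (fun f => 2 * d f) (fun f _ => pow_bih (hg f) _)
  have h2 : ∑ f ∈ d.support, 0 * d f = 0 := Finset.sum_eq_zero fun i _ => zero_mul _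
  have h3 : ∑ f ∈ d.support, 2 * d f = 2 * b := by
    rw [← Finset.mul_sum, ← hdb]
    rfl
  rw [h2, h3] at h1
  have h4 := mul_mem_bih (iot_bih (K := K) (n := n) (hF.2 d)) h1
  rw [add_zero, zero_add] at h4
  exact h4

/-- degrees in `mI ^ b` -/
theorem mI_low (b : ℕ) (f : MvPolynomial (Fin m) K) (hf : f ∈ mI K n m ^ b) (i : ℕ)
    (hi : i < n * b) : homogeneousComponent i f = 0 := by
  unfold mI at hf
  rw [Ideal.mem_span_pow_iff_exists_isHomogeneous] at hf
  obtain ⟨p, hp, rfl⟩ := hf
  rw [hc_eval hp, if_neg (by omega)]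

theorem mI_homog (b : ℕ) (f : MvPolynomial (Fin m) K) (hf : f ∈ mI K n m ^ b) (i : ℕ) :
    homogeneousComponent i f ∈ mI K n m ^ b := by
  by_cases hi : i < n * b
  · rw [mI_low b f hf i hi]
    exact Ideal.zero_mem _
  · obtain ⟨a, rfl⟩ : ∃ a, i = n * b + a := ⟨i - n * b, by omega⟩
    unfold mI at hf ⊢
    rw [Ideal.mem_span_pow_iff_exists_isHomogeneous] at hf ⊢
    obtain ⟨p, hp, rfl⟩ := hf
    obtain ⟨F, hF, hFe⟩ := comp_F hp a
    exact ⟨F, hF.1, hFe⟩

end

end HK2
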