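import Pool.Agent.HK2.Defs

/-! # Module T12: the easy transitions -/

namespace HK2

open Finset HK

section

variable {K : Type*} [Field K] {V : Type*} [AddCommGroup V] [Module K V]

/-- shift of all letters -/
def sh1 (x : Lt) : Lt := (x.1, x.2 + 1)

theorem Rs.T2 {κ : Bool → ℕ} {k m r : ℕ} {N0 : Submodule K V}
    {z : (Fin k → ℤ) → Multiset Lt → V} (e : Bool) (h : Rs κ k m (r + 1) N0 z) :
    Rs κ k m r N0 (fun ρ u => z ρ ((e, 0) ::ₘ u)) := by
  have hc : ∀ u : Multiset Lt, Multiset.card u = r →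
      Multiset.card (((e, 0) : Lt) ::ₘ u) = r + 1 := by
    intro u hu; simp [hu]
  refine ⟨?_, ?_, ?_, ?_, ?_, ?_⟩
  · intro ρ a b u hu hab
    exact h.alt ρ a b _ (hc u hu) hab
  · intro ρ a b u hu hab hr
    exact h.rep ρ a b _ (hc u hu) hab hr
  · intro ρ a u hu ho
    exact h.out ρ a _ (hc u hu) ho
  · intro ρ u hu ⟨x, hx, hx2⟩
    exact h.bad ρ _ (hc u hu) ⟨x, Multiset.mem_cons_of_mem hx, hx2⟩
  · intro c t ht τ hτ u hu
    have h1 := h.rel c t ht τ hτ (((e, 0) : Lt) ::ₘ u) (by simp only [Multiset.card_cons]; omega)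
    refine (congrArg (· ∈ N0) ?_).mp h1
    refine Finset.sum_congr rfl fun a _ => ?_
    simp only [Multiset.cons_swap (c, τ a - (t : ℤ)) (e, 0) u]
  · intro σ hσ u hu
    have h1 := h.lap σ hσ (((e, 0) : Lt) ::ₘ u) (by simp only [Multiset.card_cons]; omega)
    refine (congrArg (· ∈ N0) ?_).mp h1
    refine Finset.sum_congr rfl fun a _ => Finset.sum_congr rfl fun b _ => ?_
    rw [Multiset.cons_swap (true, σ (a.succAbove b)) (e, 0) u,
      Multiset.cons_swap (false, σ a) (e, 0) _]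

theorem Rd.T2 {κ : Bool → ℕ} {k m r m0 o M : ℕ} {Y : ℕ → V →ₗ[K] V} {N : ℕ → Submodule K V}
    {z : (Fin k → ℤ) → Multiset Lt → V} (e : Bool) (hN : Gr m0 Y N) (hM : o + M < m0)
    (h : Rd κ k m (r + 1) m0 o (M + 1) Y N z) :
    Rd κ k m r m0 o M Y N (fun ρ u => z ρ ((e, 0) ::ₘ u)) := by
  have hc : ∀ u : Multiset Lt, Multiset.card u = r →
      Multiset.card (((e, 0) : Lt) ::ₘ u) = r + 1 := by
    intro u hu; simp [hu]
  have key : ∀ (ρ : Fin k → ℤ) (u : Multiset Lt), Multiset.card u = r →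
      Y (o + M) (z ρ ((e, 0) ::ₘ u)) ∈ N 1 := by
    intro ρ u hu
    have h1 := h.r2 ρ e M u (by omega)
    have h2 : M + 1 - M = 1 := by omega
    rw [h2, Finset.sum_range_one] at h1
    simpa using h1
  refine ⟨h.st.T2 e, ?_, ?_, ?_⟩
  · intro ρ a i u hu
    rcases Nat.lt_or_ge M i with hi | hi
    · have h0 : M - i = 0 := by omega
      rw [h0, Finset.sum_range_zero]
      exact (N 1).zero_mem
    · have h1 := h.r1 ρ a i _ (hc u hu)
      have h2 : M + 1 - i = (M - i) + 1 := by omega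
      rw [h2, Finset.sum_range_succ] at h1
      have h3 : o + i + (M - i) = o + M := by omega
      rw [h3] at h1
      exact ((N 1).add_mem_iff_left (key _ u hu)).mp h1
  · intro ρ c i u hu
    rcases Nat.lt_or_ge M i with hi | hi
    · have h0 : M - i = 0 := by omega
      rw [h0, Finset.sum_range_zero]
      exact (N 1).zero_mem
    · have h1 := h.r2 ρ c i (((e, 0) : Lt) ::ₘ u) (by simp only [Multiset.card_cons]; omega)
      have h2 : M + 1 - i = (M - i) + 1 := by omega
      rw [h2, Finset.sum_range_succ] at h1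
      have h3 : o + i + (M - i) = o + M := by omega
      rw [h3] at h1
      have h4 := key ρ ((c, ((M - i : ℕ) : ℤ)) ::ₘ u) (by simp only [Multiset.card_cons]; omega)
      rw [Multiset.cons_swap] at h4
      have h5 := ((N 1).add_mem_iff_left h4).mp h1
      refine (congrArg (· ∈ N 1) ?_).mp h5
      refine Finset.sum_congr rfl fun j _ => ?_
      rw [Multiset.cons_swap]
  · intro ρ u hu j hj hjo
    rcases eq_or_ne j (o + M) with hjM | hjM
    · subst hjM
      exact key ρ u hu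
    · exact h.off ρ _ (hc u hu) j hj (by omega)

theorem Rs.T1 {κ : Bool → ℕ} {k m r : ℕ} {N0 N0' : Submodule K V}
    {z : (Fin k → ℤ) → Multiset Lt → V} (h : Rs κ k (m + 1) r N0 z) (hN : N0 ≤ N0')
    (h1 : ∀ (ρ : Fin k → ℤ) (a : Fin k) (u : Multiset Lt), Multiset.card u = r → ρ a = 0 →
      z ρ u ∈ N0')
    (h2 : ∀ (ρ : Fin k → ℤ) (c : Bool) (u : Multiset Lt), Multiset.card u + 1 = r →
      z ρ ((c, 0) ::ₘ u) ∈ N0') :
    Rs κ k m r N0' (fun ρ u => z (fun a => ρ a + 1) (u.map sh1)) := by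
  have hc : ∀ u : Multiset Lt, Multiset.card u = r → Multiset.card (u.map sh1) = r := by
    intro u hu; rw [Multiset.card_map, hu]
  refine ⟨?_, ?_, ?_, ?_, ?_, ?_⟩
  · intro ρ a b u hu hab
    exact hN (h.alt (fun a => ρ a + 1) a b _ (hc u hu) hab)
  · intro ρ a b u hu hab hr
    exact hN (h.rep (fun a => ρ a + 1) a b _ (hc u hu) hab (by simp only [hr]))
  · intro ρ a u hu ho
    rcases eq_or_ne (ρ a + 1) 0 with h0 | h0
    · exact h1 _ a _ (hc u hu) h0
    · refine hN (h.out (fun a => ρ a + 1) a _ (hc u hu) ?_)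
      push_cast
      omega
  · intro ρ u hu ⟨x, hx, hx2⟩
    rcases eq_or_ne (x.2 + 1) 0 with h0 | h0
    · have hm : ((x.1, 0) : Lt) ∈ u.map sh1 := by
        rw [Multiset.mem_map]
        refine ⟨x, hx, ?_⟩
        simp only [sh1, h0]
      obtain ⟨v, hv⟩ := Multiset.exists_cons_of_mem hm
      have hcv := hc u hu
      rw [hv, Multiset.card_cons] at hcv
      show z _ (u.map sh1) ∈ N0'
      rw [hv]
      exact h2 _ x.1 v hcv
    · refine hN (h.bad _ _ (hc u hu) ⟨sh1 x, Multiset.mem_map_of_mem sh1 hx, ?_⟩)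
      simp only [sh1]
      push_cast
      omega
  · intro c t ht τ hτ u hu
    have h3 := hN (h.rel c t ht (fun a => τ a + 1)
      (fun a => ⟨by have := (hτ a).1; omega, by have := (hτ a).2; push_cast; omega⟩)
      (u.map sh1) (by rw [Multiset.card_map]; exact hu))
    refine (congrArg (· ∈ N0') ?_).mp h3
    refine Finset.sum_congr rfl fun a _ => ?_
    have h4 : ((c, τ a + 1 - (t : ℤ)) : Lt) = sh1 (c, τ a - t) := by
      simp only [sh1, Prod.mk.injEq, true_and]
      ring
    rw [h4, ← Multiset.map_cons]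
  · intro σ hσ u hu
    have h3 := hN (h.lap (fun a => σ a + 1)
      (fun a => ⟨by have := (hσ a).1; omega, by have := (hσ a).2; push_cast; omega⟩)
      (u.map sh1) (by rw [Multiset.card_map]; exact hu))
    refine (congrArg (· ∈ N0') ?_).mp h3
    refine Finset.sum_congr rfl fun a _ => Finset.sum_congr rfl fun b _ => ?_
    rw [Multiset.map_cons, Multiset.map_cons]
    simp only [sh1, add_sub_cancel_right, sub_add_cancel]

theorem Rd.T1 {κ : Bool → ℕ} {k m r m0 o M : ℕ} {Y : ℕ → V →ₗ[K] V} {N N' : ℕ → Submodule K V}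
    {z : (Fin k → ℤ) → Multiset Lt → V} (h : Rd κ k (m + 1) r m0 o (M + 1) Y N z)
    (hM : o + M < m0) (hN : ∀ a, N a ≤ N' a) (hN' : Gr m0 Y N')
    (h1 : ∀ (ρ : Fin k → ℤ) (a : Fin k) (u : Multiset Lt), Multiset.card u = r → ρ a = 0 →
      z ρ u ∈ N' 0)
    (h2 : ∀ (ρ : Fin k → ℤ) (c : Bool) (u : Multiset Lt), Multiset.card u + 1 = r →
      z ρ ((c, 0) ::ₘ u) ∈ N' 0)
    (h3 : ∀ (ρ : Fin k → ℤ) (u : Multiset Lt), Multiset.card u = r → Y o (z ρ u) ∈ N' 1) :
    Rd κ k m r m0 (o + 1) M Y N' (fun ρ u => z (fun a => ρ a + 1) (u.map sh1)) := by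
  have hc : ∀ u : Multiset Lt, Multiset.card u = r → Multiset.card (u.map sh1) = r := by
    intro u hu; rw [Multiset.card_map, hu]
  have hY : ∀ j v, j < m0 → v ∈ N' 0 → Y j v ∈ N' 1 := fun j v hj hv =>
    hN' j hj 0 (Submodule.mem_map_of_mem hv)
  refine ⟨h.st.T1 (hN 0) h1 h2, ?_, ?_, ?_⟩
  · intro ρ a i u hu
    rcases Nat.lt_or_ge M i with hi | hi
    · have h0 : M - i = 0 := by omega
      rw [h0, Finset.sum_range_zero]
      exact (N' 1).zero_mem
    · have h4 := hN 1 (h.r1 (fun a => ρ a + 1) a i _ (hc u hu))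
      have h5 : M + 1 - i = (M - i) + 1 := by omega
      rw [h5, Finset.sum_range_succ'] at h4
      have h6 : Y (o + i + 0) (z (Function.update (fun a => ρ a + 1) a ((0 : ℕ) : ℤ)) (u.map sh1)) ∈
          N' 1 := by
        refine hY _ _ (by omega) (h1 _ a _ (hc u hu) ?_)
        simp
      have h7 := ((N' 1).add_mem_iff_left h6).mp h4
      refine (congrArg (· ∈ N' 1) ?_).mp h7
      refine Finset.sum_congr rfl fun j _ => ?_
      have h8 : o + i + (j + 1) = o + 1 + i + j := by omega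
      have h9 : Function.update (fun a => ρ a + 1) a (((j + 1 : ℕ)) : ℤ) =
          fun b => Function.update ρ a (j : ℤ) b + 1 := by
        funext b
        rcases eq_or_ne b a with hb | hb
        · subst hb; simp
        · simp [Function.update_of_ne hb]
      rw [h8, h9]
  · intro ρ c i u hu
    rcases Nat.lt_or_ge M i with hi | hi
    · have h0 : M - i = 0 := by omega
      rw [h0, Finset.sum_range_zero]
      exact (N' 1).zero_mem
    · have h4 := hN 1 (h.r2 (fun a => ρ a + 1) c i (u.map sh1) (by rw [Multiset.card_map]; exact hu))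
      have h5 : M + 1 - i = (M - i) + 1 := by omega
      rw [h5, Finset.sum_range_succ'] at h4
      have h6 : Y (o + i + 0) (z (fun a => ρ a + 1) ((c, ((0 : ℕ) : ℤ)) ::ₘ u.map sh1)) ∈
          N' 1 := by
        refine hY _ _ (by omega) ?_
        simpa using h2 (fun a => ρ a + 1) c (u.map sh1) (by rw [Multiset.card_map]; exact hu)
      have h7 := ((N' 1).add_mem_iff_left h6).mp h4
      refine (congrArg (· ∈ N' 1) ?_).mp h7
      refine Finset.sum_congr rfl fun j _ => ?_
      have h8 : o + i + (j + 1) = o + 1 + i + j := by omega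
      have h9 : ((c, (((j + 1 : ℕ)) : ℤ)) : Lt) = sh1 (c, (j : ℤ)) := by
        simp [sh1]
      rw [h8, h9, Multiset.map_cons]
  · intro ρ u hu j hj hjo
    rcases eq_or_ne j o with hjo2 | hjo2
    · subst hjo2
      exact h3 _ _ (hc u hu)
    · exact hN 1 (h.off _ _ (hc u hu) j hj (by omega))

theorem spn_T1 {k r : ℕ} (z : (Fin k → ℤ) → Multiset Lt → V) :
    spn K (fun (ρ : Fin k → ℤ) (u : Multiset Lt) => z (fun a => ρ a + 1) (u.map sh1)) r =
      spn K z r := by
  unfold spn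
  congr 1
  ext v
  constructor
  · rintro ⟨ρ, u, hu, rfl⟩
    exact ⟨_, _, by rw [Multiset.card_map, hu], rfl⟩
  · rintro ⟨ρ, u, hu, rfl⟩
    refine ⟨fun a => ρ a - 1, u.map (fun x : Lt => ((x.1, x.2 - 1) : Lt)),
      by rw [Multiset.card_map, hu], ?_⟩
    have h1 : (u.map (fun x : Lt => ((x.1, x.2 - 1) : Lt))).map sh1 = u := by
      rw [Multiset.map_map]
      conv_rhs => rw [← Multiset.map_id u]
      refine Multiset.map_congr rfl fun x _ => ?_
      simp [sh1]
    simp only [h1, sub_add_cancel]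

theorem spn_T2_le {k r : ℕ} (z : (Fin k → ℤ) → Multiset Lt → V) (e : Bool) :
    spn K (fun (ρ : Fin k → ℤ) (u : Multiset Lt) => z ρ ((e, 0) ::ₘ u)) r ≤ spn K z (r + 1) := by
  unfold spn
  refine Submodule.span_mono ?_
  rintro v ⟨ρ, u, hu, rfl⟩
  exact ⟨ρ, (e, 0) ::ₘ u, by rw [Multiset.card_cons, hu], rfl⟩

end

end HK2
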