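import Pool.Agent.HK2.Defs

/-! # Module T3A: the transition that drops a column, preliminaries -/

namespace HK2

open Finset HK

section

variable {K : Type*} [Field K] {V : Type*} [AddCommGroup V] [Module K V]

/-- shift of the letters of kind `e` -/
def she (e : Bool) (x : Lt) : Lt := if x.1 = e then (x.1, x.2 + 1) else x

/-- the new realisation -/
def zT3 {V : Type*} {k : ℕ} (e : Bool) (z : (Fin (k + 1) → ℤ) → Multiset Lt → V)
    (R : Fin k → ℤ) (u : Multiset Lt) : V :=
  z (Fin.cons 0 (fun a => R a + 1)) (u.map (she e))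

/-- the inverse shift -/
private def shi (e : Bool) (x : Lt) : Lt := if x.1 = e then (x.1, x.2 - 1) else x

private theorem she_shi (e : Bool) (x : Lt) : she e (shi e x) = x := by
  unfold she shi
  by_cases h : x.1 = e
  · simp [h]
    ext <;> simp [h]
  · simp [h]

omit [AddCommGroup V] in
private theorem zT3_shi {k : ℕ} (e : Bool) (z : (Fin (k + 1) → ℤ) → Multiset Lt → V)
    (ρ : Fin (k + 1) → ℤ) (h0 : ρ 0 = 0) (u : Multiset Lt) :
    zT3 e z (fun a => ρ a.succ - 1) (u.map (shi e)) = z ρ u := by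
  unfold zT3
  congr 1
  · funext a
    refine Fin.cases ?_ (fun i => ?_) a
    · simp [h0]
    · simp
  · rw [Multiset.map_map]
    have : (she e ∘ shi e) = id := by
      funext x
      exact she_shi e x
    rw [this, Multiset.map_id]

/-- exchanging the two omitted indices changes the sign -/
theorem dswap {k : ℕ} (F : Fin (k + 2) → Fin (k + 2) → (Fin k → Fin (k + 2)) → V) :
    ∑ a : Fin (k + 2), ∑ b : Fin (k + 1), (-1 : K) ^ ((a : ℕ) + (b : ℕ)) •
      F a (a.succAbove b) (fun i => a.succAbove (b.succAbove i)) =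
    - ∑ a : Fin (k + 2), ∑ b : Fin (k + 1), (-1 : K) ^ ((a : ℕ) + (b : ℕ)) •
      F (a.succAbove b) a (fun i => a.succAbove (b.succAbove i)) := by
  rw [← Fintype.sum_prod_type', ← Fintype.sum_prod_type', ← Finset.sum_neg_distrib]
  refine Finset.sum_bij' (fun x _ => (x.1.succAbove x.2, x.2.predAbove x.1))
    (fun x _ => (x.1.succAbove x.2, x.2.predAbove x.1)) ?_ ?_ ?_ ?_ ?_
  · intro x _
    exact Finset.mem_univ _
  · intro x _
    exact Finset.mem_univ _
  · rintro ⟨a, b⟩ _
    simp only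
    have h1 : (a.succAbove b).succAbove (b.predAbove a) = a :=
      Fin.succAbove_succAbove_predAbove a b
    refine Prod.ext h1 ?_
    simp only
    have h2 := Fin.succAbove_succAbove_predAbove (a.succAbove b) (b.predAbove a)
    rw [h1] at h2
    exact Fin.succAbove_right_injective h2
  · rintro ⟨a, b⟩ _
    simp only
    have h1 : (a.succAbove b).succAbove (b.predAbove a) = a :=
      Fin.succAbove_succAbove_predAbove a b
    refine Prod.ext h1 ?_
    simp only
    have h2 := Fin.succAbove_succAbove_predAbove (a.succAbove b) (b.predAbove a)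
    rw [h1] at h2
    exact Fin.succAbove_right_injective h2
  · rintro ⟨a, b⟩ _
    simp only
    have h1 : (a.succAbove b).succAbove (b.predAbove a) = a :=
      Fin.succAbove_succAbove_predAbove a b
    rw [h1]
    have h3 : (fun i => (a.succAbove b).succAbove ((b.predAbove a).succAbove i)) =
        (fun i => a.succAbove (b.succAbove i)) := by
      funext i
      exact Fin.succAbove_succAbove_succAbove_predAbove a b i
    rw [h3, Fin.neg_one_pow_succAbove_add_predAbove, neg_smul, neg_neg]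

/-- moving a zero row to the front -/
theorem Rs.front {κ : Bool → ℕ} {k m r : ℕ} {N0 : Submodule K V}
    {z : (Fin (k + 1) → ℤ) → Multiset Lt → V} (h : Rs κ (k + 1) m r N0 z) (ρ : Fin (k + 1) → ℤ)
    (a : Fin (k + 1)) (ha : ρ a = 0) (u : Multiset Lt) (hu : Multiset.card u = r) (e : Bool) :
    z ρ u ∈ N0 ⊔ spn K (zT3 e z) r := by
  have key : ∀ ρ' : Fin (k + 1) → ℤ, ρ' 0 = 0 → z ρ' u ∈ spn K (zT3 e z) r := by
    intro ρ' h0
    rw [← zT3_shi e z ρ' h0 u]
    exact Submodule.subset_span ⟨_, _, by rw [Multiset.card_map, hu], rfl⟩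
  by_cases h0 : a = 0
  · subst h0
    exact Submodule.mem_sup_right (key ρ ha)
  · have h1 := h.alt ρ 0 a u hu (Ne.symm h0)
    have h2 := key (ρ ∘ Equiv.swap 0 a) (by simp [ha])
    have h3 : z ρ u = (z (ρ ∘ Equiv.swap 0 a) u + z ρ u) - z (ρ ∘ Equiv.swap 0 a) u := by abel
    rw [h3]
    exact Submodule.sub_mem _ (Submodule.mem_sup_left h1) (Submodule.mem_sup_right h2)

/-- a letter of the other kind with index zero -/
theorem Rs.front' {κ : Bool → ℕ} {k m r : ℕ} {N0 : Submodule K V}
    {z : (Fin (k + 1) → ℤ) → Multiset Lt → V} (h : Rs κ (k + 1) m r N0 z) (e : Bool)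
    (hm : 1 ≤ m) (hκ : 1 ≤ κ (!e)) (ρ : Fin (k + 1) → ℤ) (u : Multiset Lt)
    (hu : Multiset.card u + 1 = r) : z ρ ((!e, 0) ::ₘ u) ∈ N0 ⊔ spn K (zT3 e z) r := by
  by_cases hr : ∀ a, 0 ≤ ρ a ∧ ρ a < (m : ℤ)
  · have h1 := h.rel (!e) 0 hκ (Fin.cons 0 ρ) (by
      intro a
      refine Fin.cases ?_ (fun i => ?_) a
      · simp only [Fin.cons_zero]
        omega
      · simpa using hr i) u hu
    rw [Fin.sum_univ_succ] at h1
    simp only [Fin.val_zero, pow_zero, one_smul, Fin.succAbove_zero, Fin.cons_succ, Fin.cons_zero,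
      Nat.cast_zero, sub_zero] at h1
    have h2 : (∑ i : Fin (k + 1), (-1 : K) ^ ((i.succ : Fin (k + 2)) : ℕ) •
        z (fun j => (Fin.cons 0 ρ : Fin (k + 2) → ℤ) (i.succ.succAbove j))
          ((!e, ρ i) ::ₘ u)) ∈ N0 ⊔ spn K (zT3 e z) r := by
      refine Submodule.sum_mem _ (fun i _ => Submodule.smul_mem _ _ ?_)
      refine h.front _ 0 ?_ _ (by simpa using hu) e
      simp
    have h3 := Submodule.sub_mem _ (Submodule.mem_sup_left h1) h2
    simpa using h3
  · push Not at hr
    obtain ⟨a, ha⟩ := hr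
    refine Submodule.mem_sup_left (h.out ρ a _ (by simpa using hu) ?_)
    by_cases h0 : ρ a < 0
    · exact Or.inl h0
    · exact Or.inr (ha (not_lt.mp h0))

theorem spn_zT3_le {k r : ℕ} (e : Bool) (z : (Fin (k + 1) → ℤ) → Multiset Lt → V) :
    spn K (zT3 e z) r ≤ spn K z r := by
  unfold spn
  refine Submodule.span_mono ?_
  rintro v ⟨R, u, hu, rfl⟩
  exact ⟨_, _, by rw [Multiset.card_map, hu], rfl⟩

end

end HK2
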