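import Pool.Agent.HK2.Defs
import Pool.Agent.HK.Chain

/-! # Definitions for the top level -/

namespace HK2

open MvPolynomial Finset HK

section

variable (K : Type*) [Field K] (n : ℕ)

/-- the letter as a polynomial -/
noncomputable def ltr (x : Lt) : SB K n := if x.1 then qq K n x.2 else pp K n x.2

/-- the realisation by minors -/
noncomputable def zt (μ : ℕ) (ρ : Fin (2 * μ) → ℤ) (u : Multiset Lt) : SB K n :=
  (u.map (ltr K n)).prod * D K n μ ρ

/-- multiplication by `x_j` -/
noncomputable def mY (j : ℕ) : SB K n →ₗ[K] SB K n := LinearMap.mulLeft K (xx K n j)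

variable {K n}

/-- graded pieces of an ideal inside the big ring, for fixed `b` -/
noncomputable def NI (I : Ideal (SB K n)) (b a : ℕ) : Submodule K (SB K n) :=
  I.restrictScalars K ⊓ bih K n a b

end

end HK2
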