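import Pool.Agent.HK2.TopH1
import Pool.Agent.HK2.NumB

/-! # Module TopH: Hilbert function of A_mu / C_mu -/

namespace HK2

open MvPolynomial Finset HK

section

variable {K : Type*} [Field K] {n : ℕ}

private theorem fin_map_mkQ {V : Type*} [AddCommGroup V] [Module K V] {N S : Submodule K V}
    (h : N ≤ S) [FiniteDimensional K S] :
    Module.finrank K (S.map N.mkQ) + Module.finrank K N = Module.finrank K S := by
  have h1 := LinearMap.finrank_range_add_finrank_ker (N.mkQ ∘ₗ S.subtype)
  have h2 : LinearMap.range (N.mkQ ∘ₗ S.subtype) = S.map N.mkQ := by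
    rw [LinearMap.range_comp, Submodule.range_subtype]
  have h3 : LinearMap.ker (N.mkQ ∘ₗ S.subtype) = N.comap S.subtype := by
    rw [LinearMap.ker_comp, Submodule.ker_mkQ]
  rw [h2, h3, (Submodule.comapSubtypeEquivOfLe h).finrank_eq] at h1
  exact h1

private theorem hf_NI (I : Ideal (SB K n)) (a b : ℕ) :
    hf K n I a b + Module.finrank K (NI I b a) = Module.finrank K (bih K n a b) := by
  have h1 := Submodule.finrank_quotient_add_finrank (gr K n I a b)
  have h2 : Module.finrank K (gr K n I a b) = Module.finrank K (NI I b a) := by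
    have h3 : gr K n I a b = (NI I b a).comap (bih K n a b).subtype := by
      ext x
      rw [mem_gr, Submodule.mem_comap]
      constructor
      · intro h
        exact ⟨h, x.2⟩
      · intro h
        exact h.1
    rw [h3]
    exact finrank_comap_bih inf_le_right
  rw [← h2]
  exact h1

private theorem NI_mono {I J : Ideal (SB K n)} (h : I ≤ J) (b a : ℕ) : NI I b a ≤ NI J b a :=
  inf_le_inf_right _ h

/-- the dimension of `A_μ / C_μ` -/
theorem topDim {μ : ℕ} (hn : μ ≤ n) (a b : ℕ) :
    (Module.finrank K ((NI (AA K n μ) b a).map (NI (CC K n μ) b a).mkQ) : ℤ) =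
      uB (n + μ) a (eU n μ b) := by
  have hfd : FiniteDimensional K (NI (AA K n μ) b a) := finite_of_le_bih (a := a) (b := b) inf_le_right
  have h1 := fin_map_mkQ (K := K) (NI_mono (CC_le_AA (K := K) (n := n) μ) b a)
  have h2 := hf_NI (AA K n μ) a b
  have h3 := hf_NI (CC K n μ) a b
  have h4 := hf_eq_tr (K := K) (n := n) b (n - μ + 1) μ (by omega) a
  have h5 : (hf K n (CC K n μ) a b : ℤ) = uB (n + μ) a (eU n μ b) + tr n μ a b := by
    have h6 := hf_eq_tr (K := K) (n := n) b (n - μ) (μ + 1) (by omega)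
    cases a with
    | zero =>
      have h7 := hf_zero_sup (AA K n (μ + 1)) (BH_AA _) (xx K n ((n : ℤ) + μ)) (xx_mem _) b
      have h8 := h6 0
      rw [h7, tr_succ_zero] at h8
      exact h8
    | succ a =>
      have h7 := hf_step_le (AA K n (μ + 1)) (BH_AA _) (xx K n ((n : ℤ) + μ)) (xx_mem _) a b
      have h8 := step_succ (K := K) μ a b hn
      have h9 : (hf K n (AA K n (μ + 1)) (a + 1) b : ℤ) ≤
          hf K n (CC K n μ) (a + 1) b + hf K n (AA K n (μ + 1)) a b := by exact_mod_cast h7
      rw [h6 (a + 1), h6 a, tr_succ_succ] at h9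
      linarith
  have h1' : (Module.finrank K ((NI (AA K n μ) b a).map (NI (CC K n μ) b a).mkQ) : ℤ) +
      Module.finrank K (NI (CC K n μ) b a) = Module.finrank K (NI (AA K n μ) b a) := by
    exact_mod_cast h1
  have h2' : (hf K n (AA K n μ) a b : ℤ) + Module.finrank K (NI (AA K n μ) b a) =
      Module.finrank K (bih K n a b) := by exact_mod_cast h2
  have h3' : (hf K n (CC K n μ) a b : ℤ) + Module.finrank K (NI (CC K n μ) b a) =
      Module.finrank K (bih K n a b) := by exact_mod_cast h3
  linarith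

theorem topGE {μ b : ℕ} (hn : μ ≤ n) (hb : 2 * μ ≤ b) (a : ℕ) :
    RelGE (US (n + μ) (mY K n) (spn K (zt K n μ) (b - 2 * μ)) a) (NI (CC K n μ) b a)
      (uBn (n + μ) a (fun j => GG (2 * μ) (n + μ - j) (b - 2 * μ))) := by
  classical
  rintro B' ⟨t, ht, hS⟩
  have h1 := topDim (K := K) hn a b
  have h2 : ((uBn (n + μ) a (fun j => GG (2 * μ) (n + μ - j) (b - 2 * μ)) : ℕ) : ℤ) =
      uB (n + μ) a (eU n μ b) :=
    uBn_cast (n + μ) a _ _ fun k hk => GG_eU n μ b k hn hb hk
  have h3 : NI (AA K n μ) b a ≤ NI (CC K n μ) b a ⊔ Submodule.span K (t : Set (SB K n)) :=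
    (topGen hn hb a).trans (sup_le hS le_sup_left)
  have h4 : (NI (AA K n μ) b a).map (NI (CC K n μ) b a).mkQ ≤
      Submodule.span K ((t.image (NI (CC K n μ) b a).mkQ : Finset _) :
        Set (SB K n ⧸ NI (CC K n μ) b a)) := by
    refine (Submodule.map_mono h3).trans ?_
    rw [Submodule.map_sup, Submodule.map_span, Finset.coe_image]
    refine sup_le ?_ le_rfl
    rw [Submodule.map_le_iff_le_comap]
    intro x hx
    rw [Submodule.mem_comap, Submodule.mkQ_apply, (Submodule.Quotient.mk_eq_zero _).2 hx]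
    exact Submodule.zero_mem _
  have h5 := Submodule.finrank_mono h4
  have h6 := finrank_span_finset_le_card (R := K) (t.image (NI (CC K n μ) b a).mkQ)
  have h7 : (t.image (NI (CC K n μ) b a).mkQ).card ≤ t.card := Finset.card_image_le
  have h8 : ((uBn (n + μ) a (fun j => GG (2 * μ) (n + μ - j) (b - 2 * μ)) : ℕ) : ℤ) ≤ B' := by
    rw [h2, ← h1]
    have : Module.finrank K ((NI (AA K n μ) b a).map (NI (CC K n μ) b a).mkQ) ≤ B' := by
      refine h5.trans (le_trans ?_ (h7.trans ht))
      exact h6
    exact_mod_cast this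
  exact_mod_cast h8

end

end HK2
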