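import Pool.Agent.HK2.TopDefs

/-! # Module TopH1: generators of A_mu / C_mu -/

namespace HK2

open MvPolynomial Finset HK

section

variable {K : Type*} [Field K] {n : ℕ}

theorem mY_apply (j : ℕ) (f : SB K n) : mY K n j f = xx K n j * f := rfl

theorem mY_comm (i j : ℕ) : Commute (mY K n i) (mY K n j) := by
  refine LinearMap.ext fun f => ?_
  change xx K n i * (xx K n j * f) = xx K n j * (xx K n i * f)
  ring

theorem mem_NI {I : Ideal (SB K n)} {b a : ℕ} {f : SB K n} :
    f ∈ NI I b a ↔ f ∈ I ∧ f ∈ bih K n a b := Iff.rfl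

theorem xx_mul_mem {a b j : ℕ} {f : SB K n} (hf : f ∈ bih K n a b) :
    xx K n j * f ∈ bih K n (a + 1) b := by
  have := mul_mem_bih (xx_mem (K := K) (n := n) (j : ℤ)) hf
  rwa [add_comm 1 a, zero_add] at this

theorem Gr_NI (m b : ℕ) (I : Ideal (SB K n)) : Gr m (mY K n) (NI I b) := by
  rintro j - a _ ⟨f, hf, rfl⟩
  exact ⟨Ideal.mul_mem_left _ _ hf.1, xx_mul_mem hf.2⟩

theorem ltr_mem (x : Lt) : ltr K n x ∈ bih K n 0 1 := by
  unfold ltr
  split_ifs
  · exact qq_mem _
  · exact pp_mem _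

theorem one_mem_bih : (1 : SB K n) ∈ bih K n 0 0 := isWeightedHomogeneous_one _ _

theorem prod_ltr_mem (u : Multiset Lt) :
    (u.map (ltr K n)).prod ∈ bih K n 0 (Multiset.card u) := by
  induction u using Multiset.induction_on with
  | empty =>
    rw [Multiset.map_zero, Multiset.prod_zero, Multiset.card_zero]
    exact one_mem_bih
  | cons x u ih =>
    rw [Multiset.map_cons, Multiset.prod_cons, Multiset.card_cons, add_comm]
    exact mul_mem_bih (ltr_mem x) ih

theorem US_le_NI {μ b : ℕ} (hb : 2 * μ ≤ b) (a : ℕ) :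
    US (n + μ) (mY K n) (spn K (zt K n μ) (b - 2 * μ)) a ≤ NI (AA K n μ) b a := by
  induction a with
  | zero =>
    rw [US, spn, Submodule.span_le]
    rintro _ ⟨ρ, u, hu, rfl⟩
    refine ⟨Ideal.mul_mem_left _ _ (D_mem_AA _ _), ?_⟩
    have h1 := mul_mem_bih (prod_ltr_mem (K := K) (n := n) u) (D_mem μ ρ)
    rwa [hu, show b - 2 * μ + 2 * μ = b by omega] at h1
  | succ a ih =>
    rw [US]
    refine iSup_le fun j => ?_
    exact (Submodule.map_mono ih).trans (Gr_NI (n + μ) b _ j j.2 a)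

/-- the letter of a variable -/
def lvr (n : ℕ) : Vr n → Lt
  | Sum.inl _ => (false, 0)
  | Sum.inr (Sum.inl i) => (false, (i : ℕ))
  | Sum.inr (Sum.inr i) => (true, (i : ℕ))

theorem ltr_lvr (v : Fin (n + 2) ⊕ Fin (n + 2)) :
    ltr K n (lvr n (Sum.inr v)) = X (Sum.inr v) := by
  rcases v with i | i
  · unfold ltr lvr
    simp only [Bool.false_eq_true, if_false]
    unfold pp
    rw [dif_pos (by omega)]
    congr 3
  · unfold ltr lvr
    simp only [if_true]
    unfold qq
    rw [dif_pos (by omega)]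
    congr 3

theorem mul_D_mem_spn {μ r : ℕ} (ρ : Fin (2 * μ) → ℤ) {u : SB K n} (hu : u ∈ bih K n 0 r) :
    u * D K n μ ρ ∈ spn K (zt K n μ) r := by
  rw [u.as_sum, Finset.sum_mul]
  refine Submodule.sum_mem _ fun d hd => ?_
  have h1 : Finsupp.weight (wt n) d = (0, r) := hu (mem_support_iff.1 hd)
  rw [Finsupp.weight_apply] at h1
  have h2 := congrArg Prod.fst h1
  have h3 := congrArg Prod.snd h1
  unfold Finsupp.sum at h2 h3
  rw [Prod.fst_sum, Finset.sum_eq_zero_iff] at h2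
  rw [Prod.snd_sum] at h3
  have h4 : ∀ v ∈ d.support, ∃ w, v = Sum.inr w := by
    rintro (k | w) hv
    · exfalso
      have h5 := h2 _ hv
      simp only [wt, Prod.smul_mk, smul_eq_mul, mul_one] at h5
      exact (Finsupp.mem_support_iff.1 hv) h5
    · exact ⟨w, rfl⟩
  have h5 : Multiset.card (Finsupp.toMultiset d) = r := by
    rw [Finsupp.card_toMultiset]
    unfold Finsupp.sum
    refine Eq.trans ?_ h3
    refine Finset.sum_congr rfl fun v hv => ?_
    obtain ⟨w, rfl⟩ := h4 v hv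
    simp [wt]
  have h6 : (((Finsupp.toMultiset d).map (lvr n)).map (ltr K n)).prod = monomial d (1 : K) := by
    have h7 : ((Finsupp.toMultiset d).map (lvr n)).map (ltr K n) =
        (Finsupp.toMultiset d).map (fun v => (X v : SB K n)) := by
      rw [Multiset.map_map]
      refine Multiset.map_congr rfl fun v hv => ?_
      obtain ⟨w, rfl⟩ := h4 v ((Finsupp.mem_toMultiset _ _).1 hv)
      exact ltr_lvr w
    rw [h7, Finsupp.toMultiset_map, Finsupp.prod_toMultiset, Finsupp.prod_mapDomain_index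
      (fun _ => pow_zero _) (fun _ _ _ => pow_add _ _ _), monomial_eq, C_1, one_mul]
  have h8 : (monomial d (coeff d u) : SB K n) = coeff d u • monomial d (1 : K) := by
    rw [smul_monomial, smul_eq_mul, mul_one]
  rw [h8, smul_mul_assoc, ← h6]
  refine Submodule.smul_mem _ _ (Submodule.subset_span
    ⟨ρ, (Finsupp.toMultiset d).map (lvr n), ?_, rfl⟩)
  rw [Multiset.card_map, h5]

theorem mul_D_mem_US {μ b : ℕ} (hb : 2 * μ ≤ b) (ρ : Fin (2 * μ) → ℤ) : ∀ (a : ℕ) (u : SB K n),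
    u ∈ bih K n a (b - 2 * μ) → u * D K n μ ρ ∈
      US (n + μ) (mY K n) (spn K (zt K n μ) (b - 2 * μ)) a ⊔ NI (CC K n μ) b a := by
  intro a
  induction a with
  | zero =>
    intro u hu
    exact Submodule.mem_sup_left (mul_D_mem_spn ρ hu)
  | succ a ih =>
    intro u hu
    refine Submodule.span_induction (p := fun u _ => u * D K n μ ρ ∈
      US (n + μ) (mY K n) (spn K (zt K n μ) (b - 2 * μ)) (a + 1) ⊔ NI (CC K n μ) b (a + 1))
      ?_ ?_ ?_ ?_ (bih_succ_le _ _ hu)
    · rintro w ⟨j, v, hv, rfl⟩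
      rw [mul_assoc]
      have hv' : v * D K n μ ρ ∈ bih K n a b := by
        have := mul_mem_bih hv (D_mem (K := K) (n := n) μ ρ)
        rwa [show b - 2 * μ + 2 * μ = b by omega] at this
      by_cases hj : (j : ℕ) < n + μ
      · obtain ⟨x, hx, y, hy, hxy⟩ := Submodule.mem_sup.1 (ih v hv)
        rw [← hxy, mul_add]
        refine Submodule.add_mem_sup ?_ ?_
        · rw [US]
          exact Submodule.mem_iSup_of_mem (⟨j, hj⟩ : Fin (n + μ))
            (Submodule.mem_map_of_mem (f := mY K n j) hx)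
        · exact ⟨Ideal.mul_mem_left _ _ hy.1, xx_mul_mem hy.2⟩
      · refine Submodule.mem_sup_right ⟨Ideal.mul_mem_right _ _ (xx_mem_CC μ _ ?_), xx_mul_mem hv'⟩
        push Not at hj
        exact_mod_cast hj
    · rw [zero_mul]
      exact Submodule.zero_mem _
    · intro y z _ _ hy hz
      rw [add_mul]
      exact Submodule.add_mem _ hy hz
    · intro r y _ hy
      rw [smul_mul_assoc]
      exact Submodule.smul_mem _ _ hy

theorem NI_AA_le {μ b a : ℕ} (S : Submodule K (SB K n))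
    (h : ∀ (ρ : Fin (2 * μ) → ℤ) (u : SB K n), 2 * μ ≤ b → u ∈ bih K n a (b - 2 * μ) →
      u * D K n μ ρ ∈ S ⊔ NI (CC K n μ) b a) :
    NI (AA K n μ) b a ≤ S ⊔ NI (CC K n μ) b a := by
  rintro f ⟨hf, hfb⟩
  have h1 := cmp_mem_span (gensA_bih (K := K) (n := n) μ) hf a b
  rw [cmp_self hfb] at h1
  refine Submodule.span_le.2 ?_ h1
  rintro _ ⟨g, hg, a', b', u, ha, hb, hg', hu, rfl⟩
  rcases gens_dichotomy μ g hg with h2 | ⟨ρ, rfl⟩
  · refine Submodule.mem_sup_right ⟨Ideal.mul_mem_left _ _ h2, ?_⟩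
    have h3 := mul_mem_bih hu hg'
    rwa [show a - a' + a' = a by omega, show b - b' + b' = b by omega] at h3
  · by_cases h0 : D K n μ ρ = 0
    · rw [h0, mul_zero]
      exact Submodule.zero_mem _
    · have h4 := IsWeightedHomogeneous.inj_right h0 hg' (D_mem (K := K) (n := n) μ ρ)
      rw [Prod.mk.injEq] at h4
      obtain ⟨rfl, rfl⟩ := h4
      exact h ρ u hb hu

theorem topGen {μ b : ℕ} (hn : μ ≤ n) (hb : 2 * μ ≤ b) (a : ℕ) :
    NI (AA K n μ) b a ≤ US (n + μ) (mY K n) (spn K (zt K n μ) (b - 2 * μ)) a ⊔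
      NI (CC K n μ) b a :=
  NI_AA_le _ fun ρ u _ hu => mul_D_mem_US hb ρ a u hu

theorem topSmall {μ b : ℕ} (hn : μ ≤ n) (hb : b < 2 * μ) (a : ℕ) :
    NI (AA K n μ) b a ≤ NI (CC K n μ) b a := by
  have h := NI_AA_le (K := K) (n := n) (μ := μ) (b := b) (a := a) ⊥
    fun ρ u h2 _ => absurd hb (not_lt.2 h2)
  rwa [bot_sup_eq] at h

end

end HK2
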