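import Pool.Agent.HK2.TopDefs

/-! # Module TopL1: graded pieces in the chain -/

namespace HK2

open MvPolynomial Finset HK

section

variable {K : Type*} [Field K] {n : ℕ}

private lemma mem_NI {I : Ideal (SB K n)} {b a : ℕ} {f : SB K n} :
    f ∈ NI I b a ↔ f ∈ I ∧ f ∈ bih K n a b := Iff.rfl

private lemma mY_apply (j : ℕ) (f : SB K n) : mY K n j f = xx K n (j : ℤ) * f := rfl

private lemma cast_idx (μ : ℕ) : ((n + μ : ℕ) : ℤ) = (n : ℤ) + μ := by push_cast; ring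

private lemma xx_mem_CC' (μ : ℕ) : xx K n ((n : ℤ) + μ) ∈ CC K n μ :=
  Ideal.mem_sup_right (Ideal.mem_span_singleton_self _)

theorem NI_top_le_CC {μ : ℕ} (b a : ℕ) :
    (NI (⊤ : Ideal (SB K n)) b a).map (mY K n (n + μ)) ≤ NI (CC K n μ) b (a + 1) := by
  rintro _ ⟨f, hf, rfl⟩
  have hf2 : f ∈ bih K n a b := hf.2
  rw [mY_apply, cast_idx]
  refine mem_NI.2 ⟨Ideal.mul_mem_right _ _ (xx_mem_CC' μ), ?_⟩
  have h := mul_mem_bih (xx_mem ((n : ℤ) + μ)) hf2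
  rwa [add_comm 1 a, zero_add] at h

theorem NI_CC_eq {μ : ℕ} (b a : ℕ) :
    NI (CC K n μ) b a = NI (AA K n (μ + 1)) b a ⊔
      shf (mY K n (n + μ)) (NI (⊤ : Ideal (SB K n)) b) a := by
  apply le_antisymm
  · intro f hf
    obtain ⟨hf1, hf2⟩ := mem_NI.1 hf
    obtain ⟨x, hx, y, hy, hxy⟩ := Submodule.mem_sup.1 hf1
    obtain ⟨c, rfl⟩ := Ideal.mem_span_singleton'.1 hy
    have hg : xx K n ((n : ℤ) + μ) ∈ bih K n 1 0 := xx_mem _
    have h1 : cmp a b (x + c * xx K n ((n : ℤ) + μ)) = f := by rw [hxy, cmp_self hf2]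
    rw [map_add, cmp_mul hg] at h1
    have h2 : cmp a b x ∈ NI (AA K n (μ + 1)) b a :=
      mem_NI.2 ⟨BH_AA (μ + 1) x hx a b, cmp_mem _ _ _⟩
    rw [← h1]
    refine Submodule.add_mem _ (Submodule.mem_sup_left h2) ?_
    cases a with
    | zero =>
      rw [if_neg (by omega)]
      exact Submodule.zero_mem _
    | succ a =>
      rw [if_pos (by omega)]
      refine Submodule.mem_sup_right ?_
      refine ⟨cmp a b c, mem_NI.2 ⟨trivial, cmp_mem _ _ _⟩, ?_⟩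
      rw [mY_apply, cast_idx, Nat.add_sub_cancel, Nat.sub_zero]
      ring
  · refine sup_le ?_ ?_
    · intro f hf
      obtain ⟨hf1, hf2⟩ := mem_NI.1 hf
      exact mem_NI.2 ⟨Ideal.mem_sup_left hf1, hf2⟩
    · cases a with
      | zero => exact bot_le
      | succ a => exact NI_top_le_CC b a

theorem NI_nzd {μ : ℕ} (hn : μ ≤ n) (b a : ℕ) : ∀ s ∈ NI (⊤ : Ideal (SB K n)) b a,
    mY K n (n + μ) s ∈ NI (AA K n (μ + 1)) b (a + 1) → s ∈ NI (AA K n (μ + 1)) b a := by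
  intro s hs h
  have h1 : xx K n ((n : ℤ) + μ) * s ∈ AA K n (μ + 1) := by
    have h2 := (mem_NI.1 h).1
    rwa [mY_apply, cast_idx] at h2
  have h3 : (n : ℤ) + ((μ + 1 : ℕ) : ℤ) - 1 = (n : ℤ) + μ := by push_cast; ring
  refine mem_NI.2 ⟨nzd K n (μ + 1) (by omega) (by omega) s ?_, (mem_NI.1 hs).2⟩
  rw [h3]
  exact h1

theorem NI_zero (b a : ℕ) : NI (⊤ : Ideal (SB K n)) b a ≤ NI (AA K n 0) b a := by
  intro f hf
  have h1 : (1 : SB K n) ∈ AA K n 0 := by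
    rw [← D_zero (K := K) (n := n) (fun _ => 0)]
    exact D_mem_AA _ _
  refine mem_NI.2 ⟨?_, (mem_NI.1 hf).2⟩
  rw [(Ideal.eq_top_iff_one _).2 h1]
  trivial

end

end HK2
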