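import Pool.Agent.HK2.TopR
import Pool.Agent.HK2.TopH
import Pool.Agent.HK2.TopL1
import Pool.Agent.HK2.Main

/-! # Module TopL: all quotients `SB / A_μ` are Koszul exact in positive degrees -/

namespace HK2

open MvPolynomial Finset HK

section

variable {K : Type*} [Field K] {n : ℕ}

/-- the module `A_μ / C_μ` -/
theorem topKEx {μ : ℕ} (hn : μ ≤ n) (b : ℕ) :
    KEx (n + μ) (mY K n) (NI (AA K n μ) b) (NI (CC K n μ) b) := by
  rcases Nat.lt_or_ge b (2 * μ) with hb | hb
  · exact KEx.zero (topSmall hn hb)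
  · refine KEx.congr (Gr_NI _ _ _) (fun a => ?_)
      ((mainThm (n + μ) (mY K n) mY_comm (n + μ) (fun _ => μ) (2 * μ) (n + μ) (b - 2 * μ) 0
        (NI (CC K n μ) b) (zt K n μ) (by ring) (Gr_NI _ _ _) le_rfl (by omega)
        (topRd hn hb)).2 (topGE hn hb))
    apply le_antisymm
    · exact sup_le_sup_right (US_le_NI hb a) _
    · exact sup_le (topGen hn hb a) le_sup_right

theorem chainKEx (b : ℕ) : ∀ μ ≤ n + 1,
    KEx (n + μ) (mY K n) (NI (⊤ : Ideal (SB K n)) b) (NI (AA K n μ) b) := by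
  intro μ
  induction μ with
  | zero =>
    intro _
    exact KEx.zero (NI_zero b)
  | succ μ ih =>
    intro hμ
    have h1 := topKEx (K := K) (n := n) (μ := μ) (by omega) b
    have h2 := ih (by omega)
    have hle : ∀ a, NI (CC K n μ) b a ≤ NI (AA K n μ) b a := fun a =>
      inf_le_inf_right _ (CC_le_AA μ)
    have hle2 : ∀ a, NI (AA K n μ) b a ≤ NI (⊤ : Ideal (SB K n)) b a := fun a =>
      inf_le_inf_right _ (fun _ _ => trivial)
    have h3 : KEx (n + μ) (mY K n) (NI (⊤ : Ideal (SB K n)) b) (NI (CC K n μ) b) := by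
      have h4 : KEx (n + μ) (mY K n) (NI (⊤ : Ideal (SB K n)) b)
          (fun a => NI (CC K n μ) b a ⊔ NI (AA K n μ) b a) := by
        have : (fun a => NI (CC K n μ) b a ⊔ NI (AA K n μ) b a) = NI (AA K n μ) b := by
          funext a
          exact sup_eq_right.2 (hle a)
        rw [this]
        exact h2
      have h5 := KEx.ext mY_comm (Gr_NI _ _ _) (Gr_NI _ _ _) h1 h4
      have : (fun a => NI (⊤ : Ideal (SB K n)) b a ⊔ NI (AA K n μ) b a) =
          NI (⊤ : Ideal (SB K n)) b := by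
        funext a
        exact sup_eq_left.2 (hle2 a)
      rwa [this] at h5
    have h6 : KEx (n + μ + 1) (mY K n) (NI (⊤ : Ideal (SB K n)) b) (NI (CC K n μ) b) :=
      KEx.addvar (NI_top_le_CC b) h3
    have h7 : NI (CC K n μ) b = fun a => NI (AA K n (μ + 1)) b a ⊔
        shf (mY K n (n + μ)) (NI (⊤ : Ideal (SB K n)) b) a := funext (NI_CC_eq b)
    rw [h7] at h6
    exact KEx.nzd (Nat.lt_succ_self _) mY_comm (Gr_NI _ _ _) (Gr_NI _ _ _)
      (NI_nzd (by omega) b) h6

end

end HK2
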