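import Pool.Agent.HK2.TopR2

/-! # Module TopR: the minors satisfy the relations -/

namespace HK2

open MvPolynomial Finset HK

section

variable {K : Type*} [Field K] {n : ℕ}

private theorem R_ltr_mem (x : Lt) : ltr K n x ∈ bih K n 0 1 := by
  unfold ltr
  split_ifs
  · exact qq_mem _
  · exact pp_mem _

private theorem R_prod_mem (u : Multiset Lt) :
    (u.map (ltr K n)).prod ∈ bih K n 0 (Multiset.card u) := by
  induction u using Multiset.induction_on with
  | empty =>
    rw [Multiset.map_zero, Multiset.prod_zero, Multiset.card_zero]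
    exact isWeightedHomogeneous_one K (wt n)
  | cons x u ih =>
    rw [Multiset.map_cons, Multiset.prod_cons, Multiset.card_cons, add_comm (Multiset.card u) 1]
    exact mul_mem_bih (R_ltr_mem x) ih

private theorem R_zt_mem {μ b : ℕ} (hb : 2 * μ ≤ b) (ρ : Fin (2 * μ) → ℤ) (u : Multiset Lt)
    (hu : Multiset.card u = b - 2 * μ) : zt K n μ ρ u ∈ bih K n 0 b := by
  have h := mul_mem_bih (R_prod_mem (K := K) (n := n) u) (D_mem (K := K) (n := n) μ ρ)
  have h2 : Multiset.card u + 2 * μ = b := by omega
  rw [h2] at h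
  exact h

private theorem R_mem {I : Ideal (SB K n)} {b a : ℕ} {x : SB K n} (h1 : x ∈ I)
    (h2 : x ∈ bih K n a b) : x ∈ NI I b a := ⟨h1, h2⟩

private theorem R_zero {I : Ideal (SB K n)} {b a : ℕ} {x : SB K n} (h1 : x = 0) :
    x ∈ NI I b a := by
  rw [h1]
  exact Submodule.zero_mem _

private theorem R_row {μ : ℕ} (ρ : Fin (2 * μ) → ℤ) (c d : Fin (2 * μ)) (hcd : c ≠ d)
    (h : ρ c = ρ d) : D K n μ ρ = 0 := by
  apply Matrix.det_zero_of_row_eq hcd
  ext x
  simp [h]

private theorem R_out {μ : ℕ} (ρ : Fin (2 * μ) → ℤ) (c : Fin (2 * μ))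
    (h : ¬ (0 ≤ ρ c ∧ ρ c < (n : ℤ) + μ)) : D K n μ ρ = 0 := by
  apply Matrix.det_eq_zero_of_row_eq_zero c
  intro x
  simp only [Matrix.of_apply, ent]
  rw [if_neg h]

private theorem R_swap {μ : ℕ} (ρ : Fin (2 * μ) → ℤ) (a b : Fin (2 * μ)) (hab : a ≠ b) :
    D K n μ (ρ ∘ Equiv.swap a b) = - D K n μ ρ := by
  have h1 : D K n μ (ρ ∘ Equiv.swap a b) =
      ((Matrix.of fun a c : Fin (2 * μ) => ent K n μ (ρ a) c).submatrix (Equiv.swap a b) id).det :=
    rfl
  rw [h1, Matrix.det_permute, Equiv.Perm.sign_swap hab]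
  simp [D]

private theorem R_ltr_zero (x : Lt) (h : x.2 < 0 ∨ (n : ℤ) + 2 ≤ x.2) : ltr K n x = 0 := by
  unfold ltr
  split_ifs
  · exact Zr.qq_zero _ h
  · exact Zr.pp_zero _ h

private theorem R_rel {μ : ℕ} (c : Bool) (t : ℕ) (ht : t < μ) (τ : Fin (2 * μ + 1) → ℤ)
    (hτ : ∀ a, 0 ≤ τ a ∧ τ a < ((n + μ : ℕ) : ℤ)) :
    ∑ a : Fin (2 * μ + 1), (-1 : SB K n) ^ (a : ℕ) * (ltr K n (c, τ a - t) *
      D K n μ (fun i => τ (a.succAbove i))) = 0 := by
  obtain ⟨c0, hc0, hent⟩ : ∃ c0 : ℕ, c0 < 2 * μ ∧ ∀ r : ℤ, 0 ≤ r ∧ r < ((n + μ : ℕ) : ℤ) →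
      ltr K n (c, r - t) = ent K n μ r c0 := by
    cases c with
    | false =>
      refine ⟨t, by omega, fun r hr => ?_⟩
      rw [ent, if_pos (by push_cast at hr; exact hr), if_pos ht]
      simp [ltr]
    | true =>
      refine ⟨μ + t, by omega, fun r hr => ?_⟩
      rw [ent, if_pos (by push_cast at hr; exact hr), if_neg (by omega)]
      have h1 : μ + t - μ = t := by omega
      rw [h1]
      simp [ltr]
  set N : Matrix (Fin (2 * μ + 1)) (Fin (2 * μ + 1)) (SB K n) :=
    Matrix.of fun i j => Fin.cases (ent K n μ (τ i) c0) (fun j' => ent K n μ (τ i) (j' : ℕ)) j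
    with hN
  have h0 : N.det = 0 := by
    apply Matrix.det_zero_of_column_eq (i := (0 : Fin (2 * μ + 1)))
      (j := (⟨c0, hc0⟩ : Fin (2 * μ)).succ) (Fin.succ_ne_zero _).symm
    intro i
    rfl
  rw [Matrix.det_succ_column_zero] at h0
  rw [← h0]
  apply Finset.sum_congr rfl
  intro a _
  rw [hent _ (hτ a), mul_assoc]
  rfl

private theorem R_lap {μ : ℕ} (σ : Fin (2 * μ + 2) → ℤ)
    (hσ : ∀ a, 0 ≤ σ a ∧ σ a ≤ ((n + μ : ℕ) : ℤ)) :
    ∑ a : Fin (2 * μ + 2), ∑ b : Fin (2 * μ + 1), (-1 : SB K n) ^ ((a : ℕ) + (b : ℕ)) *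
      (ltr K n (false, σ a) * ltr K n (true, σ (a.succAbove b)) *
        D K n μ (fun i => σ (a.succAbove (b.succAbove i)) - 1)) =
      (-1 : SB K n) ^ μ * D K n (μ + 1) σ := by
  rw [lap, Finset.mul_sum]
  apply Finset.sum_congr rfl
  intro a _
  rw [Finset.mul_sum]
  apply Finset.sum_congr rfl
  intro b _
  have h1 : ent K n (μ + 1) (σ a) 0 = ltr K n (false, σ a) := by
    rw [ent, if_pos (by have := hσ a; push_cast at this ⊢; omega), if_pos (by omega)]
    simp [ltr]
  have h2 : ent K n (μ + 1) (σ (a.succAbove b)) (μ + 1) = ltr K n (true, σ (a.succAbove b)) := by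
    rw [ent, if_pos (by have := hσ (a.succAbove b); push_cast at this ⊢; omega), if_neg (by omega)]
    simp [ltr]
  rw [h1, h2]
  have h3 : (-1 : SB K n) ^ μ * (-1 : SB K n) ^ μ = 1 := by
    rw [← mul_pow]
    simp
  have h4 : (-1 : SB K n) ^ ((a : ℕ) + (b : ℕ)) =
      (-1 : SB K n) ^ μ * (-1 : SB K n) ^ ((a : ℕ) + (b : ℕ) + μ) := by
    rw [pow_add (-1 : SB K n) ((a : ℕ) + (b : ℕ)) μ, mul_left_comm, h3, mul_one]
  rw [h4]
  ring

private theorem R_smul (k : ℕ) (x : SB K n) : (-1 : K) ^ k • x = (-1 : SB K n) ^ k * x := by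
  rw [smul_eq_C_mul]
  simp

theorem topRs {μ b : ℕ} (hn : μ ≤ n) (hb : 2 * μ ≤ b) :
    Rs (fun _ => μ) (2 * μ) (n + μ) (b - 2 * μ) (NI (CC K n μ) b 0) (zt K n μ) where
  alt := by
    intro ρ a c u hu hac
    apply R_zero
    unfold zt
    rw [R_swap ρ a c hac]
    ring
  rep := by
    intro ρ a c u hu hac h
    apply R_zero
    unfold zt
    rw [R_row ρ a c hac h, mul_zero]
  out := by
    intro ρ a u hu h
    apply R_zero
    unfold zt
    rw [R_out ρ a (by push_cast at h; omega), mul_zero]
  bad := by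
    rintro ρ u hu ⟨x, hx, h⟩
    apply R_zero
    unfold zt
    rw [Multiset.prod_eq_zero (Multiset.mem_map.2 ⟨x, hx, R_ltr_zero x (by
      push_cast at h
      omega)⟩), zero_mul]
  rel := by
    intro c t ht τ hτ u hu
    apply R_zero
    have h := R_rel (K := K) (n := n) c t ht τ hτ
    calc ∑ a : Fin (2 * μ + 1), (-1 : K) ^ (a : ℕ) •
          zt K n μ (fun i => τ (a.succAbove i)) ((c, τ a - t) ::ₘ u)
        = (u.map (ltr K n)).prod * ∑ a : Fin (2 * μ + 1), (-1 : SB K n) ^ (a : ℕ) *
          (ltr K n (c, τ a - t) * D K n μ (fun i => τ (a.succAbove i))) := by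
          rw [Finset.mul_sum]
          apply Finset.sum_congr rfl
          intro a _
          rw [R_smul, zt, Multiset.map_cons, Multiset.prod_cons]
          ring
      _ = 0 := by rw [h, mul_zero]
  lap := by
    intro σ hσ u hu
    have h := R_lap (K := K) (n := n) σ hσ
    have h1 : ∑ a : Fin (2 * μ + 2), ∑ c : Fin (2 * μ + 1), (-1 : K) ^ ((a : ℕ) + (c : ℕ)) •
        zt K n μ (fun i => σ (a.succAbove (c.succAbove i)) - 1)
          ((false, σ a) ::ₘ (true, σ (a.succAbove c)) ::ₘ u) =
        (u.map (ltr K n)).prod * ((-1 : SB K n) ^ μ * D K n (μ + 1) σ) := by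
      rw [← h, Finset.mul_sum]
      apply Finset.sum_congr rfl
      intro a _
      rw [Finset.mul_sum]
      apply Finset.sum_congr rfl
      intro c _
      rw [R_smul, zt, Multiset.map_cons, Multiset.prod_cons, Multiset.map_cons,
        Multiset.prod_cons]
      ring
    apply R_mem
    · rw [h1]
      apply Ideal.mul_mem_left
      apply Ideal.mul_mem_left
      exact Ideal.mem_sup_left (D_mem_AA _ _)
    · refine Submodule.sum_mem _ fun a _ => Submodule.sum_mem _ fun c _ =>
        Submodule.smul_mem _ _ (R_zt_mem hb _ _ ?_)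
      rw [Multiset.card_cons, Multiset.card_cons]
      omega

/-- Cramer: `v_c det A = ∑ A_{a c} det(A with row a replaced by v)` -/
private theorem R_cramer {μ : ℕ} (ρ : Fin (2 * μ) → ℤ) (c : Fin (2 * μ)) (j : ℤ) :
    ent K n μ j c * D K n μ ρ = ∑ a : Fin (2 * μ), ent K n μ (ρ a) c *
      D K n μ (Function.update ρ a j) := by
  set A : Matrix (Fin (2 * μ)) (Fin (2 * μ)) (SB K n) :=
    Matrix.of fun a c : Fin (2 * μ) => ent K n μ (ρ a) c with hA
  set v : Fin (2 * μ) → SB K n := fun c => ent K n μ j c with hv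
  have h1 := Matrix.mulVec_cramer A.transpose v
  have h2 := congrFun h1 c
  rw [Matrix.det_transpose, Pi.smul_apply, smul_eq_mul] at h2
  have h3 : (A.transpose.mulVec (A.transpose.cramer v)) c = ∑ a : Fin (2 * μ),
      ent K n μ (ρ a) c * D K n μ (Function.update ρ a j) := by
    rw [Matrix.mulVec, dotProduct]
    apply Finset.sum_congr rfl
    intro a _
    rw [Matrix.cramer_transpose_apply]
    congr 1
    unfold D
    congr 1
    ext x y
    rw [Matrix.updateRow_apply, Matrix.of_apply]
    by_cases h : x = a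
    · rw [if_pos h, h, Function.update_self]
    · rw [if_neg h, Function.update_of_ne h]
      rfl
  rw [← h3, h2]
  change v c * A.det = A.det * v c
  ring

theorem topRd {μ b : ℕ} (hn : μ ≤ n) (hb : 2 * μ ≤ b) :
    Rd (fun _ => μ) (2 * μ) (n + μ) (b - 2 * μ) (n + μ) 0 (n + μ) (mY K n)
      (NI (CC K n μ) b) (zt K n μ) where
  st := topRs hn hb
  r1 := by
    intro ρ a i u hu
    have hμ : 1 ≤ μ := by
      have := a.2
      omega
    have h := topE (K := K) hμ hn ρ a i
    have h1 : ∑ j ∈ range (n + μ - i), mY K n (0 + i + j) (zt K n μ (Function.update ρ a (j : ℤ)) u)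
        = (u.map (ltr K n)).prod *
          ∑ j ∈ range (n + μ - i), xx K n (i + j) * D K n μ (Function.update ρ a (j : ℤ)) := by
      rw [Finset.mul_sum]
      apply Finset.sum_congr rfl
      intro j _
      have h2 : (((0 + i + j : ℕ)) : ℤ) = (i : ℤ) + j := by push_cast; ring
      rw [mY, LinearMap.mulLeft_apply, zt, h2]
      ring
    apply R_mem
    · rw [h1]
      exact Ideal.mul_mem_left _ _ h
    · refine Submodule.sum_mem _ fun j _ => ?_
      have h2 := mul_mem_bih (xx_mem (K := K) (n := n) ((0 + i + j : ℕ) : ℤ))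
        (R_zt_mem (K := K) (n := n) hb (Function.update ρ a (j : ℤ)) u hu)
      rw [zero_add] at h2
      exact h2
  r2 := by
    intro ρ c i u hu
    have h1 : ∑ j ∈ range (n + μ - i), mY K n (0 + i + j) (zt K n μ ρ ((c, (j : ℤ)) ::ₘ u))
        = (u.map (ltr K n)).prod *
          ∑ j ∈ range (n + μ - i), xx K n (i + j) * (ltr K n (c, (j : ℤ)) * D K n μ ρ) := by
      rw [Finset.mul_sum]
      apply Finset.sum_congr rfl
      intro j _
      have h2 : (((0 + i + j : ℕ)) : ℤ) = (i : ℤ) + j := by push_cast; ring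
      rw [mY, LinearMap.mulLeft_apply, zt, h2, Multiset.map_cons, Multiset.prod_cons]
      ring
    apply R_mem
    · rw [h1]
      apply Ideal.mul_mem_left
      rcases Nat.eq_zero_or_pos μ with hμ | hμ
      · subst hμ
        by_cases hi : i < n
        · have key : ∀ (l : ℤ → SB K n), (∑ k ∈ range (n + 2), xx K n (k + i) * l k) ∈ CC K n 0 →
              ∑ j ∈ range (n + 0 - i), xx K n (i + j) * (l j * D K n 0 ρ) ∈ CC K n 0 := by
            intro l hl
            have hsub : range (n + 0 - i) ⊆ range (n + 2) := by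
              intro j hj
              rw [mem_range] at hj ⊢
              omega
            have h2 := Finset.sum_sdiff hsub (f := fun k : ℕ => xx K n ((k : ℤ) + i) * l k)
            have h3 : ∑ k ∈ range (n + 2) \ range (n + 0 - i), xx K n ((k : ℤ) + i) * l k ∈
                CC K n 0 := by
              apply Ideal.sum_mem
              intro j hj
              rw [mem_sdiff, mem_range, mem_range] at hj
              exact Ideal.mul_mem_right _ _ (Zr.xx_mem_CC _ (by push_cast; omega))
            have h4 : ∑ j ∈ range (n + 0 - i), xx K n (i + j) * (l j * D K n 0 ρ) =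
                D K n 0 ρ * ((∑ k ∈ range (n + 2), xx K n (k + i) * l k) -
                  ∑ k ∈ range (n + 2) \ range (n + 0 - i), xx K n ((k : ℤ) + i) * l k) := by
              rw [← h2, add_sub_cancel_left, Finset.mul_sum]
              apply Finset.sum_congr rfl
              intro j _
              rw [add_comm (i : ℤ) (j : ℤ)]
              ring
            rw [h4]
            exact Ideal.mul_mem_left _ _ (Ideal.sub_mem _ hl h3)
          cases c with
          | false =>
            have h2 := key (fun k => pp K n k) (Zr.Lp_mem_CC i hi)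
            simpa [ltr] using h2
          | true =>
            have h2 := key (fun k => qq K n k) (Zr.Lq_mem_CC i hi)
            simpa [ltr] using h2
        · have h2 : n + 0 - i = 0 := by omega
          rw [h2, Finset.sum_range_zero]
          exact Ideal.zero_mem _
      · obtain ⟨c0, hent⟩ : ∃ c0 : Fin (2 * μ), ∀ j : ℕ, j < n + μ →
            ltr K n (c, (j : ℤ)) = ent K n μ (j : ℤ) c0 := by
          cases c with
          | false =>
            refine ⟨⟨0, by omega⟩, fun j hj => ?_⟩
            rw [ent, if_pos (by omega), if_pos hμ]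
            simp [ltr]
          | true =>
            refine ⟨⟨μ, by omega⟩, fun j hj => ?_⟩
            rw [ent, if_pos (by omega), if_neg (by simp)]
            simp [ltr]
        have h2 : ∑ j ∈ range (n + μ - i), xx K n (i + j) * (ltr K n (c, (j : ℤ)) * D K n μ ρ) =
            ∑ a : Fin (2 * μ), ent K n μ (ρ a) c0 * ∑ j ∈ range (n + μ - i), xx K n (i + j) *
              D K n μ (Function.update ρ a (j : ℤ)) := by
          have h3 : ∀ j ∈ range (n + μ - i), xx K n (i + j) * (ltr K n (c, (j : ℤ)) * D K n μ ρ) =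
              ∑ a : Fin (2 * μ), ent K n μ (ρ a) c0 * (xx K n (i + j) *
                D K n μ (Function.update ρ a (j : ℤ))) := by
            intro j hj
            rw [mem_range] at hj
            rw [hent j (by omega), R_cramer, Finset.mul_sum]
            apply Finset.sum_congr rfl
            intro a _
            ring
          rw [Finset.sum_congr rfl h3, Finset.sum_comm]
          apply Finset.sum_congr rfl
          intro a _
          rw [Finset.mul_sum]
        rw [h2]
        apply Ideal.sum_mem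
        intro a _
        exact Ideal.mul_mem_left _ _ (topE hμ hn ρ a i)
    · refine Submodule.sum_mem _ fun j _ => ?_
      have h2 := mul_mem_bih (xx_mem (K := K) (n := n) ((0 + i + j : ℕ) : ℤ))
        (R_zt_mem (K := K) (n := n) hb ρ ((c, (j : ℤ)) ::ₘ u) (by
          rw [Multiset.card_cons]
          exact hu))
      rw [zero_add] at h2
      exact h2
  off := by
    intro ρ u hu j hj h
    omega

end

end HK2
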