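import Pool.Agent.HK2.TopDefs

/-! # Module TopR1: signs of complementary minors -/

namespace HK2

open MvPolynomial Finset HK

section

variable {K : Type*} [Field K] {n : ℕ}

private theorem D_eq_sign {μ : ℕ} (ec er : Fin (2 * μ) ⊕ Fin (n - μ) ≃ Fin (n + μ))
    (hec1 : ∀ t : Fin (2 * μ), ((ec (Sum.inl t) : Fin (n + μ)) : ℕ) = t + (n - μ))
    (hec2 : ∀ b : Fin (n - μ), ((ec (Sum.inr b) : Fin (n + μ)) : ℕ) = b)
    (ρ : Fin (2 * μ) → ℤ) (κ : Fin (n - μ) → ℤ)
    (her1 : ∀ t : Fin (2 * μ), (((er (Sum.inl t) : Fin (n + μ)) : ℕ) : ℤ) = ρ t)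
    (her2 : ∀ b : Fin (n - μ), (((er (Sum.inr b) : Fin (n + μ)) : ℕ) : ℤ) = κ b) :
    D K n μ ρ = (((Equiv.Perm.sign (ec.symm.trans er) : ℤˣ) : ℤ) : SB K n) * Zr.Dc K n μ κ := by
  set M : Matrix (Fin (n + μ)) (Fin (n + μ)) (SB K n) :=
    Matrix.of fun r b : Fin (n + μ) => Zr.cols K n μ (n - μ) κ b ((r : ℕ) : ℤ) with hM
  have hinj : ∀ x y : Fin (2 * μ) ⊕ Fin (n - μ), (((er x : Fin (n + μ)) : ℕ) : ℤ) =
      (((er y : Fin (n + μ)) : ℕ) : ℤ) → x = y := by
    intro x y h
    exact er.injective (Fin.ext (by exact_mod_cast h))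
  have hd : ∀ a b, ρ a ≠ κ b := by
    intro a b h
    rw [← her1, ← her2] at h
    exact absurd (hinj _ _ h) (by simp)
  have hκ : Function.Injective κ := by
    intro b b' h
    rw [← her2, ← her2] at h
    exact Sum.inr_injective (hinj _ _ h)
  have h1 : M.submatrix er ec = Matrix.fromBlocks
      (Matrix.of fun a c : Fin (2 * μ) => ent K n μ (ρ a) c) 0
      (Matrix.of fun (b : Fin (n - μ)) (c : Fin (2 * μ)) => ent K n μ (κ b) c) 1 := by
    ext (a | b) (c | d)
    · simp [hM, Zr.cols, Matrix.submatrix_apply, hec1, her1]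
    · simp [hM, Zr.cols, Matrix.submatrix_apply, hec2, her1, hd a d]
    · simp [hM, Zr.cols, Matrix.submatrix_apply, hec1, her2]
    · simp [hM, Zr.cols, Matrix.submatrix_apply, hec2, her2, hκ.eq_iff, Matrix.one_apply]
  have h2 : (M.submatrix er ec).det = D K n μ ρ := by
    rw [h1, Matrix.det_fromBlocks_zero₁₂, Matrix.det_one, mul_one, D]
  have h3 : (M.submatrix er ec).det = Equiv.Perm.sign (ec.symm.trans er) * M.det := by
    have h4 : M.submatrix er ec = (M.submatrix (ec.symm.trans er) id).submatrix ec ec := by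
      ext i j
      simp
    rw [h4, Matrix.det_submatrix_equiv_self, Matrix.det_permute]
  rw [← h2, h3]
  rfl

/-- sign of the complementary minors -/
theorem Dc_sign {μ : ℕ} (hn : μ ≤ n) (hμ : 1 ≤ μ) (ρ : Fin (2 * μ) → ℤ) (a : Fin (2 * μ))
    (κ : Fin (n - μ + 1) → ℤ) (hκ : Function.Injective κ)
    (hκr : ∀ b, 0 ≤ κ b ∧ κ b < (n : ℤ) + μ)
    (hρ : ∀ c d, c ≠ a → d ≠ a → ρ c = ρ d → c = d)
    (hρr : ∀ c, c ≠ a → 0 ≤ ρ c ∧ ρ c < (n : ℤ) + μ)
    (hd : ∀ c b, c ≠ a → ρ c ≠ κ b) :
    ∃ ε : K, ε ≠ 0 ∧ ∀ b : Fin (n - μ + 1),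
      (-1 : SB K n) ^ (b : ℕ) * Zr.Dc K n μ (fun d => κ (b.succAbove d)) =
        C ε * D K n μ (Function.update ρ a (κ b)) := by
  classical
  have hcard : Fintype.card (Fin (2 * μ) ⊕ Fin (n - μ)) = Fintype.card (Fin (n + μ)) := by
    simp
    omega
  -- columns
  let fc : Fin (2 * μ) ⊕ Fin (n - μ) → Fin (n + μ) := Sum.elim
    (fun t => ⟨t + (n - μ), by omega⟩) (fun b => ⟨b, by omega⟩)
  have hfc : Function.Injective fc := by
    rintro (a | b) (a' | b') h
    · have h1 : (a : ℕ) + (n - μ) = a' + (n - μ) := by simpa [fc] using h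
      congr 1
      apply Fin.ext
      omega
    · exfalso
      have h1 : (a : ℕ) + (n - μ) = b' := by simpa [fc] using h
      omega
    · exfalso
      have h1 : (b : ℕ) = a' + (n - μ) := by simpa [fc] using h
      omega
    · have h1 : (b : ℕ) = b' := by simpa [fc] using h
      congr 1
      exact Fin.ext h1
  let ec : Fin (2 * μ) ⊕ Fin (n - μ) ≃ Fin (n + μ) := Equiv.ofBijective fc
    ((Fintype.bijective_iff_injective_and_card fc).2 ⟨hfc, hcard⟩)
  -- rows
  have hval : ∀ x : ℤ, 0 ≤ x ∧ x < (n : ℤ) + μ → x.toNat < n + μ := by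
    intro x hx
    omega
  have hup : ∀ t : Fin (2 * μ), 0 ≤ Function.update ρ a (κ 0) t ∧
      Function.update ρ a (κ 0) t < (n : ℤ) + μ := by
    intro t
    by_cases h : t = a
    · subst h
      rw [Function.update_self]
      exact hκr 0
    · rw [Function.update_of_ne h]
      exact hρr t h
  let fr : Fin (2 * μ) ⊕ Fin (n - μ) → Fin (n + μ) := Sum.elim
    (fun t => ⟨(Function.update ρ a (κ 0) t).toNat, hval _ (hup t)⟩)
    (fun b => ⟨(κ b.succ).toNat, hval _ (hκr b.succ)⟩)
  have hfr1 : ∀ t, (((fr (Sum.inl t) : Fin (n + μ)) : ℕ) : ℤ) = Function.update ρ a (κ 0) t :=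
    fun t => Int.toNat_of_nonneg (hup t).1
  have hfr2 : ∀ b : Fin (n - μ), (((fr (Sum.inr b) : Fin (n + μ)) : ℕ) : ℤ) = κ b.succ :=
    fun b => Int.toNat_of_nonneg (hκr b.succ).1
  have hup2 : ∀ t t' : Fin (2 * μ), Function.update ρ a (κ 0) t = Function.update ρ a (κ 0) t' →
      t = t' := by
    intro t t' h
    by_cases h1 : t = a
    · by_cases h2 : t' = a
      · rw [h1, h2]
      · exfalso
        rw [h1, Function.update_self, Function.update_of_ne h2] at h
        exact hd t' 0 h2 h.symm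
    · by_cases h2 : t' = a
      · exfalso
        rw [h2, Function.update_self, Function.update_of_ne h1] at h
        exact hd t 0 h1 h
      · rw [Function.update_of_ne h1, Function.update_of_ne h2] at h
        exact hρ t t' h1 h2 h
  have hup3 : ∀ (t : Fin (2 * μ)) (b : Fin (n - μ)), Function.update ρ a (κ 0) t ≠ κ b.succ := by
    intro t b h
    by_cases h1 : t = a
    · rw [h1, Function.update_self] at h
      exact absurd (hκ h) (Fin.succ_ne_zero b).symm
    · rw [Function.update_of_ne h1] at h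
      exact hd t b.succ h1 h
  have hfr : Function.Injective fr := by
    rintro (t | b) (t' | b') h
    · have h1 := congrArg (fun z : Fin (n + μ) => ((z : ℕ) : ℤ)) h
      rw [hfr1, hfr1] at h1
      rw [hup2 _ _ h1]
    · exfalso
      have h1 := congrArg (fun z : Fin (n + μ) => ((z : ℕ) : ℤ)) h
      rw [hfr1, hfr2] at h1
      exact hup3 _ _ h1
    · exfalso
      have h1 := congrArg (fun z : Fin (n + μ) => ((z : ℕ) : ℤ)) h
      rw [hfr1, hfr2] at h1
      exact hup3 _ _ h1.symm
    · have h1 := congrArg (fun z : Fin (n + μ) => ((z : ℕ) : ℤ)) h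
      rw [hfr2, hfr2] at h1
      rw [Fin.succ_injective _ (hκ h1)]
  let er : Fin (2 * μ) ⊕ Fin (n - μ) ≃ Fin (n + μ) := Equiv.ofBijective fr
    ((Fintype.bijective_iff_injective_and_card fr).2 ⟨hfr, hcard⟩)
  -- the embedding of the rows of kappa
  let ι : Fin (n - μ + 1) → Fin (2 * μ) ⊕ Fin (n - μ) := Fin.cons (Sum.inl a) (fun d => Sum.inr d)
  have hι : Function.Injective ι := by
    intro x y h
    induction x using Fin.cases with
    | zero =>
      induction y using Fin.cases with
      | zero => rfl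
      | succ y => simp [ι] at h
    | succ x =>
      induction y using Fin.cases with
      | zero => simp [ι] at h
      | succ y =>
        have h' : x = y := by simpa [ι] using h
        rw [h']
  let ιe : Fin (n - μ + 1) ↪ Fin (2 * μ) ⊕ Fin (n - μ) := ⟨ι, hι⟩
  have hιv : ∀ x, (((er (ι x) : Fin (n + μ)) : ℕ) : ℤ) = κ x := by
    intro x
    induction x using Fin.cases with
    | zero =>
      change (((fr (Sum.inl a) : Fin (n + μ)) : ℕ) : ℤ) = κ 0
      rw [hfr1, Function.update_self]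
    | succ x =>
      change (((fr (Sum.inr x) : Fin (n + μ)) : ℕ) : ℤ) = κ x.succ
      rw [hfr2]
  refine ⟨(((Equiv.Perm.sign (ec.symm.trans er) : ℤˣ) : ℤ) : K), ?_, ?_⟩
  · rcases Int.units_eq_one_or (Equiv.Perm.sign (ec.symm.trans er)) with h | h
    · rw [h]
      simp
    · rw [h]
      simp
  · intro b
    set σ : Equiv.Perm (Fin (n - μ + 1)) := (Fin.cycleRange b).symm with hσ
    set τ : Equiv.Perm (Fin (2 * μ) ⊕ Fin (n - μ)) := σ.viaFintypeEmbedding ιe with hτ
    have hτ1 : ∀ x, τ (ι x) = ι (σ x) := fun x => Equiv.Perm.viaFintypeEmbedding_apply_image σ ιe x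
    have hτ2 : ∀ t, t ≠ a → τ (Sum.inl t) = Sum.inl t := by
      intro t ht
      apply Equiv.Perm.viaFintypeEmbedding_apply_notMem_range σ ιe
      rintro ⟨x, hx⟩
      induction x using Fin.cases with
      | zero =>
        apply ht
        have hx' : (Sum.inl a : Fin (2 * μ) ⊕ Fin (n - μ)) = Sum.inl t := hx
        exact (Sum.inl_injective hx').symm
      | succ x =>
        have hx' : (Sum.inr x : Fin (2 * μ) ⊕ Fin (n - μ)) = Sum.inl t := hx
        exact absurd hx' (by simp)
    have hsg : Equiv.Perm.sign (ec.symm.trans (τ.trans er)) =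
        (-1) ^ (b : ℕ) * Equiv.Perm.sign (ec.symm.trans er) := by
      have h1 : ec.symm.trans (τ.trans er) =
          ((ec.symm.trans τ).trans ec).trans (ec.symm.trans er) := by
        ext x
        simp
      have h2 : Equiv.Perm.sign (((ec.symm.trans τ).trans ec).trans (ec.symm.trans er)) =
          Equiv.Perm.sign (ec.symm.trans er) * Equiv.Perm.sign ((ec.symm.trans τ).trans ec) := by
        rw [← Equiv.Perm.sign_mul]
        rfl
      rw [h1, h2, Equiv.Perm.sign_symm_trans_trans, hτ, Equiv.Perm.viaFintypeEmbedding_sign, hσ,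
        Equiv.Perm.sign_symm, Fin.sign_cycleRange, mul_comm]
    have hmain := D_eq_sign (K := K) ec (τ.trans er) (fun t => rfl) (fun b => rfl)
      (Function.update ρ a (κ b)) (fun d => κ (b.succAbove d)) (by
        intro t
        change (((er (τ (Sum.inl t)) : Fin (n + μ)) : ℕ) : ℤ) = _
        by_cases h : t = a
        · have h1 : (Sum.inl t : Fin (2 * μ) ⊕ Fin (n - μ)) = ι 0 := by rw [h]; rfl
          rw [h1, hτ1, hιv, h, Function.update_self, hσ, Fin.cycleRange_symm_zero]
        · rw [hτ2 t h, Function.update_of_ne h]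
          have h1 := hfr1 t
          rw [Function.update_of_ne h] at h1
          exact h1) (by
        intro d
        change (((er (τ (ι d.succ)) : Fin (n + μ)) : ℕ) : ℤ) = _
        rw [hτ1, hιv, hσ, Fin.cycleRange_symm_succ])
    rw [hmain, hsg]
    have h3 : (C (((Equiv.Perm.sign (ec.symm.trans er) : ℤˣ) : ℤ) : K) : SB K n) =
        (((Equiv.Perm.sign (ec.symm.trans er) : ℤˣ) : ℤ) : SB K n) := by
      simp
    rw [h3]
    rcases Int.units_eq_one_or (Equiv.Perm.sign (ec.symm.trans er)) with h | h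
    · rw [h]
      push_cast
      ring
    · rw [h]
      push_cast
      ring

end

end HK2
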