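import Pool.Agent.HK2.TopR1

/-! # Module TopR2: the relations among minors -/

namespace HK2

open MvPolynomial Finset HK

section

variable {K : Type*} [Field K] {n : ℕ}

private theorem topE_D_row {μ : ℕ} (ρ : Fin (2 * μ) → ℤ) (c d : Fin (2 * μ)) (hcd : c ≠ d)
    (h : ρ c = ρ d) : D K n μ ρ = 0 := by
  apply Matrix.det_zero_of_row_eq hcd
  ext x
  simp [h]

private theorem topE_D_out {μ : ℕ} (ρ : Fin (2 * μ) → ℤ) (c : Fin (2 * μ))
    (h : ¬ (0 ≤ ρ c ∧ ρ c < (n : ℤ) + μ)) : D K n μ ρ = 0 := by
  apply Matrix.det_eq_zero_of_row_eq_zero c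
  intro x
  simp only [Matrix.of_apply, ent]
  rw [if_neg h]

theorem topE {μ : ℕ} (hμ : 1 ≤ μ) (hn : μ ≤ n) (ρ : Fin (2 * μ) → ℤ) (a : Fin (2 * μ)) (i : ℕ) :
    ∑ j ∈ range (n + μ - i), xx K n (i + j) * D K n μ (Function.update ρ a (j : ℤ)) ∈
      CC K n μ := by
  classical
  set f : ℕ → SB K n := fun j => xx K n (i + j) * D K n μ (Function.update ρ a (j : ℤ)) with hf
  have hupd : ∀ (x : ℤ) (c : Fin (2 * μ)), c ≠ a → Function.update ρ a x c = ρ c :=
    fun x c hc => Function.update_of_ne hc _ _
  have hupa : ∀ x : ℤ, Function.update ρ a x a = x := fun x => Function.update_self _ _ _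
  -- it is enough to consider the full sum
  suffices h : ∑ j ∈ range (n + μ), f j ∈ CC K n μ by
    have hsub : range (n + μ - i) ⊆ range (n + μ) := by
      intro j hj
      rw [mem_range] at hj ⊢
      omega
    have h2 := Finset.sum_sdiff hsub (f := f)
    have h3 : ∑ j ∈ range (n + μ) \ range (n + μ - i), f j ∈ CC K n μ := by
      apply Ideal.sum_mem
      intro j hj
      rw [mem_sdiff, mem_range, mem_range] at hj
      exact Ideal.mul_mem_right _ _ (Zr.xx_mem_CC _ (by omega))
    have h4 : ∑ j ∈ range (n + μ - i), f j = ∑ j ∈ range (n + μ), f j -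
        ∑ j ∈ range (n + μ) \ range (n + μ - i), f j := by
      rw [← h2]
      ring
    rw [h4]
    exact Ideal.sub_mem _ h h3
  by_cases hρ : ∀ c d, c ≠ a → d ≠ a → ρ c = ρ d → c = d
  · by_cases hρr : ∀ c, c ≠ a → 0 ≤ ρ c ∧ ρ c < (n : ℤ) + μ
    · -- the complement of the other rows
      set t : Finset ℤ := (univ.erase a).image ρ with ht
      set s : Finset ℤ := Finset.Ico 0 ((n : ℤ) + μ) \ t with hs
      have htc : t.card = 2 * μ - 1 := by
        rw [ht, Finset.card_image_of_injOn, Finset.card_erase_of_mem (Finset.mem_univ _),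
          Finset.card_univ, Fintype.card_fin]
        intro c hc d hd h
        exact hρ c d (Finset.ne_of_mem_erase hc) (Finset.ne_of_mem_erase hd) h
      have hsub : t ⊆ Finset.Ico 0 ((n : ℤ) + μ) := by
        intro x hx
        obtain ⟨c, hc, rfl⟩ := Finset.mem_image.1 hx
        exact Finset.mem_Ico.2 (hρr c (Finset.ne_of_mem_erase hc))
      have hsc : s.card = n - μ + 1 := by
        rw [hs, Finset.card_sdiff_of_subset hsub, htc, Int.card_Ico]
        omega
      let e := s.equivFinOfCardEq hsc
      have hmem : ∀ b, ((e.symm b : ℤ)) ∈ s := fun b => (e.symm b).2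
      have hms : ∀ x ∈ s, (0 ≤ x ∧ x < (n : ℤ) + μ) ∧ x ∉ t := fun x hx =>
        ⟨Finset.mem_Ico.1 (Finset.mem_sdiff.1 hx).1, (Finset.mem_sdiff.1 hx).2⟩
      obtain ⟨ε, hε, hD⟩ := Dc_sign (K := K) hn hμ ρ a (fun b => (e.symm b : ℤ))
        (fun b b' h => e.symm.injective (Subtype.ext h)) (fun b => (hms _ (hmem b)).1) hρ hρr
        (fun c b hc h => (hms _ (hmem b)).2 (by
          rw [← h]
          exact Finset.mem_image_of_mem _ (Finset.mem_erase.2 ⟨hc, Finset.mem_univ _⟩)))
      have hZ := Zr.ZZ_mem (K := K) hn i (fun b => (e.symm b : ℤ)) (fun b => (hms _ (hmem b)).1.1)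
      have h1 : Zr.ZZ K n μ i (fun b => (e.symm b : ℤ)) = C ε * ∑ j ∈ range (n + μ), f j := by
        have h2 : Zr.ZZ K n μ i (fun b => (e.symm b : ℤ)) =
            C ε * ∑ b : Fin (n - μ + 1), xx K n ((e.symm b : ℤ) + i) *
              D K n μ (Function.update ρ a (e.symm b : ℤ)) := by
          rw [Zr.ZZ, Finset.mul_sum]
          refine Finset.sum_congr rfl fun b _ => ?_
          have h3 := hD b
          calc (-1 : SB K n) ^ (b : ℕ) * (xx K n ((e.symm b : ℤ) + i) *
                Zr.Dc K n μ (fun d => (e.symm (b.succAbove d) : ℤ)))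
              = xx K n ((e.symm b : ℤ) + i) * ((-1 : SB K n) ^ (b : ℕ) *
                Zr.Dc K n μ (fun d => (e.symm (b.succAbove d) : ℤ))) := by ring
            _ = _ := by rw [h3]; ring
        rw [h2]
        congr 1
        have h4 : ∑ b : Fin (n - μ + 1), xx K n ((e.symm b : ℤ) + i) *
              D K n μ (Function.update ρ a (e.symm b : ℤ)) =
            ∑ x ∈ s, xx K n (x + i) * D K n μ (Function.update ρ a x) := by
          rw [← Finset.sum_coe_sort s (fun x => xx K n (x + i) * D K n μ (Function.update ρ a x))]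
          exact Equiv.sum_comp e.symm (fun x : s => xx K n ((x : ℤ) + i) *
            D K n μ (Function.update ρ a (x : ℤ)))
        have h5 : ∑ x ∈ s, xx K n (x + i) * D K n μ (Function.update ρ a x) =
            ∑ x ∈ Finset.Ico 0 ((n : ℤ) + μ), xx K n (x + i) * D K n μ (Function.update ρ a x) := by
          apply Finset.sum_subset Finset.sdiff_subset
          intro x hx hxs
          have hxt : x ∈ t := by
            by_contra h
            exact hxs (Finset.mem_sdiff.2 ⟨hx, h⟩)
          obtain ⟨c, hc, hcx⟩ := Finset.mem_image.1 hxt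
          have hca := Finset.ne_of_mem_erase hc
          rw [topE_D_row _ c a hca (by rw [hupd _ _ hca, hupa, hcx]), mul_zero]
        have h6 : ∑ x ∈ Finset.Ico 0 ((n : ℤ) + μ), xx K n (x + i) *
            D K n μ (Function.update ρ a x) = ∑ j ∈ range (n + μ), f j := by
          symm
          apply Finset.sum_bij (fun (j : ℕ) _ => (j : ℤ))
          · intro j hj
            rw [mem_range] at hj
            rw [Finset.mem_Ico]
            omega
          · intro j _ j' _ h
            exact_mod_cast h
          · intro x hx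
            rw [Finset.mem_Ico] at hx
            exact ⟨x.toNat, by rw [mem_range]; omega, by omega⟩
          · intro j _
            rw [hf]
            simp only
            rw [add_comm (i : ℤ) (j : ℤ)]
        rw [h4, h5, h6]
      rw [h1] at hZ
      have h7 := Ideal.mul_mem_left (CC K n μ) (C ε⁻¹ : SB K n) hZ
      rwa [← mul_assoc, ← C_mul, inv_mul_cancel₀ hε, C_1, one_mul] at h7
    · push Not at hρr
      obtain ⟨c, hc, hc2⟩ := hρr
      apply Ideal.sum_mem
      intro j _
      rw [hf]
      simp only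
      rw [topE_D_out _ c (by
        rw [hupd _ _ hc]
        intro h
        exact absurd h.2 (not_lt.2 (hc2 h.1))), mul_zero]
      exact Ideal.zero_mem _
  · push Not at hρ
    obtain ⟨c, d, hc, hd, hcd, hne⟩ := hρ
    apply Ideal.sum_mem
    intro j _
    rw [hf]
    simp only
    rw [topE_D_row _ c d hne (by rw [hupd _ _ hc, hupd _ _ hd, hcd]), mul_zero]
    exact Ideal.zero_mem _

end

end HK2
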